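import Pool.Agent.Lib_helper19.LSPD.Defs

set_option autoImplicit false

namespace Pool.Agent.LSPD

open Pool.Agent.FG61 (mu cc)
open Pool.Agent.Var35 (e)
open Finset

noncomputable section

/-- the profile -/
def abl_G (v : ℝ) : ℝ := v * Real.exp (-Real.pi * v ^ 2)

theorem abl_exp_ge (v : ℝ) : 1 + 2 * v ^ 2 + 2 * v ^ 4 ≤ Real.exp ((Real.pi - 1) * v ^ 2) := by
  have hpi := Real.pi_gt_three
  have h1 : Real.exp (2 * v ^ 2) ≤ Real.exp ((Real.pi - 1) * v ^ 2) := by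
    apply Real.exp_le_exp.2
    nlinarith [sq_nonneg v]
  have h2 : 1 + 2 * v ^ 2 + (2 * v ^ 2) ^ 2 / 2 ≤ Real.exp (2 * v ^ 2) :=
    Real.quadratic_le_exp_of_nonneg (by positivity)
  nlinarith [h1, h2]

theorem abl_exp_split (v : ℝ) :
    Real.exp (-Real.pi * v ^ 2) * Real.exp ((Real.pi - 1) * v ^ 2) = Real.exp (-v ^ 2) := by
  rw [← Real.exp_add]
  congr 1
  ring

theorem abl_of_le {v a c : ℝ} (h : a ≤ c * (1 + 2 * v ^ 2 + 2 * v ^ 4)) (hc : 0 ≤ c) :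
    a * Real.exp (-Real.pi * v ^ 2) ≤ c * Real.exp (-v ^ 2) := by
  have h1 := abl_exp_ge v
  have h2 := Real.exp_pos (-Real.pi * v ^ 2)
  calc a * Real.exp (-Real.pi * v ^ 2)
      ≤ (c * Real.exp ((Real.pi - 1) * v ^ 2)) * Real.exp (-Real.pi * v ^ 2) := by
        apply mul_le_mul_of_nonneg_right _ h2.le
        exact h.trans (mul_le_mul_of_nonneg_left h1 hc)
    _ = c * (Real.exp (-Real.pi * v ^ 2) * Real.exp ((Real.pi - 1) * v ^ 2)) := by ring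
    _ = c * Real.exp (-v ^ 2) := by rw [abl_exp_split]

theorem abl_G_le (v : ℝ) : abl_G v ≤ Real.exp (-v ^ 2) := by
  have := abl_of_le (v := v) (a := v) (c := 1) (by nlinarith [sq_nonneg (v - 1), sq_nonneg v, sq_nonneg (v ^ 2)]) (by norm_num)
  simpa [abl_G] using this

theorem abl_G_nonneg {v : ℝ} (hv : 0 ≤ v) : 0 ≤ abl_G v := by
  unfold abl_G
  positivity

theorem abl_vG_le (v : ℝ) (hv : 0 ≤ v) : 2 * Real.pi * (v * abl_G v) ≤ 4 * Real.exp (-v ^ 2) := by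
  have hpi : Real.pi < 4 := Real.pi_lt_four
  have := abl_of_le (v := v) (a := 2 * Real.pi * v ^ 2) (c := 4)
    (by nlinarith [sq_nonneg v, sq_nonneg (v ^ 2)]) (by norm_num)
  calc 2 * Real.pi * (v * abl_G v) = 2 * Real.pi * v ^ 2 * Real.exp (-Real.pi * v ^ 2) := by
        unfold abl_G; ring
    _ ≤ _ := this

theorem abl_hasDeriv (v : ℝ) :
    HasDerivAt abl_G ((1 - 2 * Real.pi * v ^ 2) * Real.exp (-Real.pi * v ^ 2)) v := by
  have h1 : HasDerivAt (fun v : ℝ => -Real.pi * v ^ 2) (-Real.pi * (2 * v)) v := by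
    have := (hasDerivAt_pow 2 v).const_mul (-Real.pi)
    simpa using this
  have h2 := (hasDerivAt_id v).mul h1.exp
  have h3 : HasDerivAt abl_G (1 * Real.exp (-Real.pi * v ^ 2) +
      id v * (Real.exp (-Real.pi * v ^ 2) * (-Real.pi * (2 * v)))) v := h2
  convert h3 using 1
  simp only [id]
  ring

theorem abl_deriv_le {v b : ℝ} (hb : 0 < b) (hv : b ≤ v) :
    ‖(1 - 2 * Real.pi * v ^ 2) * Real.exp (-Real.pi * v ^ 2)‖ ≤ 4 / b * Real.exp (-b ^ 2) := by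
  have hpi : Real.pi < 4 := Real.pi_lt_four
  have hpi0 := Real.pi_pos
  have hpi3 : 2 * Real.pi ≤ 7 := by
    have := Real.pi_lt_d2
    linarith
  have hv0 : 0 < v := lt_of_lt_of_le hb hv
  rw [norm_mul, Real.norm_eq_abs, Real.norm_of_nonneg (Real.exp_pos _).le]
  have h1 : |1 - 2 * Real.pi * v ^ 2| ≤ 1 + 7 * v ^ 2 := by
    rw [abs_le]
    constructor
    · nlinarith [sq_nonneg v]
    · nlinarith [sq_nonneg v, mul_nonneg hpi0.le (sq_nonneg v)]
  have h2 := abl_of_le (v := v) (a := v * (1 + 7 * v ^ 2)) (c := 4)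
    (by
      have hq : 0 ≤ v * (v - 1) ^ 2 := by positivity
      nlinarith [sq_nonneg (v - 1), sq_nonneg (v ^ 2 - v), sq_nonneg (v ^ 2), sq_nonneg v, hq]) (by norm_num)
  have h3 : Real.exp (-v ^ 2) ≤ Real.exp (-b ^ 2) := by
    apply Real.exp_le_exp.2
    nlinarith
  have h4 : b * (|1 - 2 * Real.pi * v ^ 2| * Real.exp (-Real.pi * v ^ 2)) ≤
      4 * Real.exp (-b ^ 2) := by
    calc b * (|1 - 2 * Real.pi * v ^ 2| * Real.exp (-Real.pi * v ^ 2))
        ≤ v * ((1 + 7 * v ^ 2) * Real.exp (-Real.pi * v ^ 2)) := by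
          apply mul_le_mul hv _ (by positivity) hv0.le
          exact mul_le_mul_of_nonneg_right h1 (Real.exp_pos _).le
      _ = v * (1 + 7 * v ^ 2) * Real.exp (-Real.pi * v ^ 2) := by ring
      _ ≤ 4 * Real.exp (-v ^ 2) := h2
      _ ≤ 4 * Real.exp (-b ^ 2) := by linarith
  rw [div_mul_eq_mul_div, le_div_iff₀ hb]
  linarith

theorem abl_G_sub {a b : ℝ} (hb : 0 < b) (hab : b ≤ a) :
    |abl_G b - abl_G a| ≤ 4 / b * Real.exp (-b ^ 2) * (a - b) := by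
  have h := Convex.norm_image_sub_le_of_norm_hasDerivWithin_le (f := abl_G)
    (f' := fun v => (1 - 2 * Real.pi * v ^ 2) * Real.exp (-Real.pi * v ^ 2))
    (C := 4 / b * Real.exp (-b ^ 2)) (s := Set.Icc b a) (x := b) (y := a)
    (fun v _ => (abl_hasDeriv v).hasDerivWithinAt)
    (fun v hv => abl_deriv_le hb hv.1) (convex_Icc b a) (Set.left_mem_Icc.2 hab)
    (Set.right_mem_Icc.2 hab)
  rw [Real.norm_eq_abs, Real.norm_eq_abs, abs_of_nonneg (sub_nonneg.2 hab)] at h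
  rw [abs_sub_comm]
  exact h

theorem abl_e_norm (x : ℝ) : ‖e x‖ = 1 := by
  unfold e
  exact Complex.norm_exp_ofReal_mul_I _

theorem abl_e_sub (x y : ℝ) : ‖e x - e y‖ ≤ 2 * Real.pi * |x - y| := by
  have h1 : e x - e y = e y * (Complex.exp (Complex.I * ((2 * Real.pi * (x - y) : ℝ) : ℂ)) - 1) := by
    unfold e
    rw [mul_sub, mul_one, ← Complex.exp_add]
    congr 2
    push_cast
    ring
  rw [h1, norm_mul, abl_e_norm, one_mul]
  refine (Real.norm_exp_I_mul_ofReal_sub_one_le (x := 2 * Real.pi * (x - y))).trans ?_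
  rw [Real.norm_eq_abs, abs_mul, abs_of_pos (by positivity : 0 < 2 * Real.pi)]

theorem abl_abel (f z : ℕ → ℂ) (n : ℕ) :
    ∑ k ∈ Icc 1 (n + 1), f k * z k = f (n + 1) * ∑ k ∈ Icc 1 (n + 1), z k +
      ∑ k ∈ Icc 1 n, (f k - f (k + 1)) * ∑ j ∈ Icc 1 k, z j := by
  induction n with
  | zero => simp
  | succ n ih =>
    have h1 : ∑ k ∈ Icc 1 (n + 1 + 1), f k * z k =
        ∑ k ∈ Icc 1 (n + 1), f k * z k + f (n + 1 + 1) * z (n + 1 + 1) :=
      Finset.sum_Icc_succ_top (by omega) _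
    have h2 : ∑ k ∈ Icc 1 (n + 1 + 1), z k =
        ∑ k ∈ Icc 1 (n + 1), z k + z (n + 1 + 1) :=
      Finset.sum_Icc_succ_top (by omega) _
    have h3 : ∑ k ∈ Icc 1 (n + 1), (f k - f (k + 1)) * ∑ j ∈ Icc 1 k, z j =
        ∑ k ∈ Icc 1 n, (f k - f (k + 1)) * ∑ j ∈ Icc 1 k, z j +
          (f (n + 1) - f (n + 1 + 1)) * ∑ j ∈ Icc 1 (n + 1), z j :=
      Finset.sum_Icc_succ_top (by omega) _
    rw [h1, ih, h2, h3]
    ring

theorem abl_harm (n : ℕ) : ∑ k ∈ Icc 1 n, 1 / (k : ℝ) ≤ 1 + Real.log (n + 1 : ℕ) := by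
  have h1 : ∑ k ∈ Icc 1 n, 1 / (k : ℝ) = ((harmonic n : ℚ) : ℝ) := by
    rw [harmonic_eq_sum_Icc]
    push_cast
    exact Finset.sum_congr rfl fun k _ => by rw [one_div]
  rw [h1]
  refine (harmonic_le_one_add_log n).trans ?_
  rcases Nat.eq_zero_or_pos n with rfl | hn
  · simp
  · have : Real.log n ≤ Real.log ((n + 1 : ℕ) : ℝ) :=
      Real.log_le_log (by exact_mod_cast hn) (by push_cast; linarith)
    linarith

/-- the real factor -/
def abl_g (L : ℝ) (l : ℕ) (h : ℤ) (k : ℕ) : ℝ :=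
  L / (k * l) * Real.exp (-Real.pi * (L * h / (k * l)) ^ 2)

theorem abl_g_eq {L : ℝ} {l : ℕ} (hl : 1 ≤ l) {h : ℤ} (hh : h ≠ 0) {k : ℕ} (hk : 1 ≤ k) :
    abl_g L l h k = 1 / |(h : ℝ)| * abl_G (L * |(h : ℝ)| / l / k) := by
  have hh' : (h : ℝ) ≠ 0 := by exact_mod_cast hh
  have habs : |(h : ℝ)| ≠ 0 := abs_ne_zero.2 hh'
  have hl' : (l : ℝ) ≠ 0 := by positivity
  have hk' : (k : ℝ) ≠ 0 := by positivity
  unfold abl_g abl_G
  have h1 : (L * |(h : ℝ)| / l / k) ^ 2 = (L * h / (k * l)) ^ 2 := by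
    rw [div_pow, div_pow, mul_pow, sq_abs, div_pow, mul_pow]
    field_simp
  rw [h1]
  field_simp

theorem abl_step {L : ℝ} (hL : 0 < L) {p l : ℕ} (hp : 1 ≤ p) (hl : 1 ≤ l) {r h : ℤ} (hh : h ≠ 0)
    {k : ℕ} (hk : 1 ≤ k) :
    ‖ph L l (p * l) r h k - ph L l (p * l) r h (k + 1)‖ ≤
      4 * (1 + |(r : ℝ)| / (p * L)) * (1 / |(h : ℝ)|) *
        Real.exp (-(L * |(h : ℝ)| / l / (k + 1 : ℕ)) ^ 2) * (1 / (k : ℝ)) := by
  have hh' : (h : ℝ) ≠ 0 := by exact_mod_cast hh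
  have habs : 0 < |(h : ℝ)| := abs_pos.2 hh'
  have hl' : (0 : ℝ) < l := by exact_mod_cast hl
  have hp' : (0 : ℝ) < p := by exact_mod_cast hp
  have hk' : (0 : ℝ) < k := by exact_mod_cast hk
  set A : ℝ := L * |(h : ℝ)| / l with hA
  have hApos : 0 < A := by positivity
  set b : ℝ := A / ((k + 1 : ℕ) : ℝ) with hb
  have hk1 : (0 : ℝ) < ((k + 1 : ℕ) : ℝ) := by positivity
  have hbpos : 0 < b := by positivity
  have hab : A / k - b = b * (1 / k) := by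
    rw [hb]
    push_cast
    field_simp
    ring
  have hba : b ≤ A / k := by
    have : 0 ≤ b * (1 / (k : ℝ)) := by positivity
    linarith
  set E : ℝ := Real.exp (-b ^ 2) with hE
  have hEpos : 0 < E := Real.exp_pos _
  -- first part
  have h1 : |abl_g L l h k - abl_g L l h (k + 1)| ≤ 1 / |(h : ℝ)| * (4 * E * (1 / k)) := by
    rw [abl_g_eq hl hh hk, abl_g_eq hl hh (by omega : 1 ≤ k + 1), ← mul_sub, abs_mul,
      abs_of_pos (by positivity : 0 < 1 / |(h : ℝ)|), ← hA]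
    apply mul_le_mul_of_nonneg_left _ (by positivity)
    rw [abs_sub_comm]
    refine (abl_G_sub hbpos hba).trans ?_
    rw [hab]
    apply le_of_eq
    field_simp
    exact hE.symm
  -- second part
  have h2 : abl_g L l h (k + 1) * ‖e ((h : ℝ) * r / (k * (p * l : ℕ))) -
      e ((h : ℝ) * r / ((k + 1 : ℕ) * (p * l : ℕ)))‖ ≤
      1 / |(h : ℝ)| * (|(r : ℝ)| / (p * L) * (4 * E * (1 / k))) := by
    have h3 := abl_e_sub ((h : ℝ) * r / (k * (p * l : ℕ)))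
      ((h : ℝ) * r / ((k + 1 : ℕ) * (p * l : ℕ)))
    have h4 : |(h : ℝ) * r / (k * (p * l : ℕ)) - (h : ℝ) * r / ((k + 1 : ℕ) * (p * l : ℕ))| =
        |(r : ℝ)| / (p * L) * (b * (1 / k)) := by
      have h5 : (h : ℝ) * r / (k * (p * l : ℕ)) - (h : ℝ) * r / ((k + 1 : ℕ) * (p * l : ℕ)) =
          (h * r) * (1 / (k * ((k + 1 : ℕ) : ℝ) * (p * l))) := by
        push_cast
        field_simp
        ring
      rw [h5, abs_mul, abs_mul, abs_of_pos
        (by positivity : 0 < 1 / ((k : ℝ) * ((k + 1 : ℕ) : ℝ) * (p * l))), hb, hA]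
      field_simp
    rw [h4] at h3
    have h6 : 0 ≤ abl_G b := abl_G_nonneg hbpos.le
    have h7 := abl_vG_le b hbpos.le
    rw [abl_g_eq hl hh (by omega : 1 ≤ k + 1), ← hA, ← hb]
    calc 1 / |(h : ℝ)| * abl_G b * ‖e ((h : ℝ) * r / (k * (p * l : ℕ))) -
          e ((h : ℝ) * r / ((k + 1 : ℕ) * (p * l : ℕ)))‖
        ≤ 1 / |(h : ℝ)| * abl_G b * (2 * Real.pi * (|(r : ℝ)| / (p * L) * (b * (1 / k)))) :=
          mul_le_mul_of_nonneg_left h3 (by positivity)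
      _ = 1 / |(h : ℝ)| * (|(r : ℝ)| / (p * L) * ((2 * Real.pi * (b * abl_G b)) * (1 / k))) := by
          ring
      _ ≤ 1 / |(h : ℝ)| * (|(r : ℝ)| / (p * L) * ((4 * E) * (1 / k))) := by
          apply mul_le_mul_of_nonneg_left _ (by positivity)
          apply mul_le_mul_of_nonneg_left _ (by positivity)
          exact mul_le_mul_of_nonneg_right h7 (by positivity)
      _ = _ := by ring
  have h8 : ph L l (p * l) r h k - ph L l (p * l) r h (k + 1) =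
      ((abl_g L l h k - abl_g L l h (k + 1) : ℝ) : ℂ) * e ((h : ℝ) * r / (k * (p * l : ℕ))) +
      ((abl_g L l h (k + 1) : ℝ) : ℂ) * (e ((h : ℝ) * r / (k * (p * l : ℕ))) -
        e ((h : ℝ) * r / ((k + 1 : ℕ) * (p * l : ℕ)))) := by
    unfold ph abl_g
    push_cast
    ring
  have h9 : 0 ≤ abl_g L l h (k + 1) := by
    unfold abl_g
    positivity
  rw [h8]
  refine (norm_add_le _ _).trans ?_
  rw [norm_mul, norm_mul, Complex.norm_real, Complex.norm_real, abl_e_norm, mul_one,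
    Real.norm_eq_abs, Real.norm_eq_abs, abs_of_nonneg h9]
  refine (add_le_add h1 h2).trans (le_of_eq ?_)
  ring

theorem abl_pr {L : ℝ} (hL : 0 < L) {p l : ℕ} (hp : 1 ≤ p) (hl : 1 ≤ l) {r h : ℤ} (hh : h ≠ 0)
    {K₀ : ℕ} (hK : 1 ≤ K₀) {z : ℕ → ℂ} {W : ℝ} (hz : ∀ K ≤ K₀, ‖∑ k ∈ Icc 1 K, z k‖ ≤ W) :
    ‖∑ k ∈ Icc 1 K₀, ph L l (p * l) r h k * z k‖ ≤ W * (10 * (1 + |(r : ℝ)| / (p * L)) *
      (1 + Real.log K₀) * (1 / |(h : ℝ)|) * Real.exp (-(L * h / (K₀ * l)) ^ 2)) := by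
  obtain ⟨n, rfl⟩ : ∃ n, K₀ = n + 1 := ⟨K₀ - 1, by omega⟩
  have hh' : (h : ℝ) ≠ 0 := by exact_mod_cast hh
  have habs : 0 < |(h : ℝ)| := abs_pos.2 hh'
  have hl' : (0 : ℝ) < l := by exact_mod_cast hl
  have hp' : (0 : ℝ) < p := by exact_mod_cast hp
  have hW : 0 ≤ W := by
    have := hz 0 (by omega)
    simpa using this
  set A : ℝ := L * |(h : ℝ)| / l with hA
  have hApos : 0 < A := by positivity
  set y : ℝ := A / ((n + 1 : ℕ) : ℝ) with hy
  have hy2 : (L * h / (((n + 1 : ℕ) : ℝ) * l)) ^ 2 = y ^ 2 := by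
    rw [hy, hA, div_pow, div_pow, div_pow, mul_pow, mul_pow, mul_pow, sq_abs]
    field_simp
  rw [hy2]
  set E : ℝ := Real.exp (-y ^ 2) with hE
  have hEpos : 0 < E := Real.exp_pos _
  set ρ : ℝ := |(r : ℝ)| / (p * L) with hρ
  have hρ0 : 0 ≤ ρ := by positivity
  have hlog : 0 ≤ Real.log ((n + 1 : ℕ) : ℝ) := Real.log_nonneg (by push_cast; linarith [Nat.cast_nonneg (α := ℝ) n])
  rw [abl_abel]
  have h1 : ‖ph L l (p * l) r h (n + 1)‖ ≤ 1 / |(h : ℝ)| * E := by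
    have h0 : ph L l (p * l) r h (n + 1) = ((abl_g L l h (n + 1) : ℝ) : ℂ) *
        e ((h : ℝ) * r / ((n + 1 : ℕ) * (p * l : ℕ))) := by
      unfold ph abl_g
      push_cast
      ring
    rw [h0, norm_mul, abl_e_norm, mul_one, Complex.norm_real, abl_g_eq hl hh (by omega : 1 ≤ n + 1),
      ← hA, ← hy, Real.norm_eq_abs, abs_mul, abs_of_pos (by positivity : 0 < 1 / |(h : ℝ)|),
      abs_of_nonneg (abl_G_nonneg (by positivity))]
    exact mul_le_mul_of_nonneg_left (abl_G_le y) (by positivity)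
  have h2 : ∀ k ∈ Icc 1 n, ‖(ph L l (p * l) r h k - ph L l (p * l) r h (k + 1)) *
      ∑ j ∈ Icc 1 k, z j‖ ≤ (4 * (1 + ρ) * (1 / |(h : ℝ)|) * E * W) * (1 / (k : ℝ)) := by
    intro k hk
    rw [Finset.mem_Icc] at hk
    rw [norm_mul]
    have h3 := abl_step hL hp hl (r := r) hh hk.1
    have hk0 : (0 : ℝ) < k := by exact_mod_cast hk.1
    have hk1 : (0 : ℝ) < ((k + 1 : ℕ) : ℝ) := by positivity
    have h4 : Real.exp (-(A / ((k + 1 : ℕ) : ℝ)) ^ 2) ≤ E := by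
      rw [hE]
      apply Real.exp_le_exp.2
      have h5 : y ≤ A / ((k + 1 : ℕ) : ℝ) := by
        rw [hy]
        apply div_le_div_of_nonneg_left hApos.le hk1
        exact_mod_cast (by omega : k + 1 ≤ n + 1)
      have h6 : 0 ≤ y := by positivity
      have := pow_le_pow_left₀ h6 h5 2
      linarith
    have h7 : ‖ph L l (p * l) r h k - ph L l (p * l) r h (k + 1)‖ ≤
        4 * (1 + ρ) * (1 / |(h : ℝ)|) * E * (1 / (k : ℝ)) := by
      refine h3.trans ?_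
      apply mul_le_mul_of_nonneg_right _ (by positivity)
      exact mul_le_mul_of_nonneg_left h4 (by positivity)
    calc ‖ph L l (p * l) r h k - ph L l (p * l) r h (k + 1)‖ * ‖∑ j ∈ Icc 1 k, z j‖
        ≤ (4 * (1 + ρ) * (1 / |(h : ℝ)|) * E * (1 / (k : ℝ))) * W :=
          mul_le_mul h7 (hz k (by omega)) (norm_nonneg _) (by positivity)
      _ = _ := by ring
  have h3 : ‖∑ k ∈ Icc 1 n, (ph L l (p * l) r h k - ph L l (p * l) r h (k + 1)) *
      ∑ j ∈ Icc 1 k, z j‖ ≤ (4 * (1 + ρ) * (1 / |(h : ℝ)|) * E * W) *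
        (1 + Real.log ((n + 1 : ℕ) : ℝ)) := by
    refine (norm_sum_le_of_le _ h2).trans ?_
    rw [← Finset.mul_sum]
    exact mul_le_mul_of_nonneg_left (abl_harm n) (by positivity)
  have h4 : ‖ph L l (p * l) r h (n + 1) * ∑ k ∈ Icc 1 (n + 1), z k‖ ≤ 1 / |(h : ℝ)| * E * W := by
    rw [norm_mul]
    exact mul_le_mul h1 (hz _ le_rfl) (norm_nonneg _) (by positivity)
  refine (norm_add_le _ _).trans ((add_le_add h4 h3).trans ?_)
  have h5 : 0 ≤ 1 / |(h : ℝ)| * E * W := by positivity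
  have h6 : (1 : ℝ) ≤ (1 + ρ) * (1 + Real.log ((n + 1 : ℕ) : ℝ)) := by nlinarith [mul_nonneg hρ0 hlog]
  calc 1 / |(h : ℝ)| * E * W + (4 * (1 + ρ) * (1 / |(h : ℝ)|) * E * W) *
        (1 + Real.log ((n + 1 : ℕ) : ℝ))
      = (1 / |(h : ℝ)| * E * W) * (1 + 4 * ((1 + ρ) * (1 + Real.log ((n + 1 : ℕ) : ℝ)))) := by ring
    _ ≤ (1 / |(h : ℝ)| * E * W) * (10 * ((1 + ρ) * (1 + Real.log ((n + 1 : ℕ) : ℝ)))) := by
        apply mul_le_mul_of_nonneg_left _ h5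
        linarith
    _ = _ := by ring

end

end Pool.Agent.LSPD

namespace Pool.Agent.LSPD

alias abl := abl_pr

end Pool.Agent.LSPD
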