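import Pool.Agent.Lib_helper19.LSPD.Defs

/-!
# LSP, part D, block CLS: the two congruences
-/

set_option autoImplicit false

namespace Pool.Agent.LSPD

open Finset

/-- one congruence -/
theorem cls_one {p : ℕ} (hp : p.Prime) {r : ℤ} {d : ℕ} (hd : ¬ p ∣ d) :
    ∃ a : ℤ, ∀ m : ℤ, (d : ℤ) ∣ p * m - r ↔ (d : ℤ) ∣ m - a := by
  have hc : IsCoprime (d : ℤ) (p : ℤ) := by
    rw [Nat.isCoprime_iff_coprime]
    exact ((Nat.Prime.coprime_iff_not_dvd hp).2 hd).symm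
  obtain ⟨x, y, hxy⟩ := hc
  refine ⟨y * r, fun m => ?_⟩
  have h1 : (p : ℤ) * m - r = p * (m - y * r) - d * (x * r) := by
    linear_combination r * hxy
  rw [h1]
  constructor
  · intro h
    have h2 : (d : ℤ) ∣ p * (m - y * r) := by
      have := dvd_add h (Dvd.intro (x * r) rfl : (d : ℤ) ∣ d * (x * r))
      simpa using this
    exact IsCoprime.dvd_of_dvd_mul_left ⟨x, y, hxy⟩ h2
  · intro h
    exact dvd_sub (Dvd.dvd.mul_left h _) (Dvd.intro (x * r) rfl)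

theorem cls_pr {p p' : ℕ} {r : ℤ} (h : PP p p' r) {d d' : ℕ} (hd : 1 ≤ d) (hd' : 1 ≤ d') :
    (rh p p' r d d' = 1 → ∃ s : ℤ, ∀ m : ℤ,
      ((d : ℤ) ∣ p * m - r ∧ (d' : ℤ) ∣ p' * m - r) ↔ ((Nat.lcm d d' : ℕ) : ℤ) ∣ m - s) ∧
    (rh p p' r d d' = 0 → ∀ m : ℤ, ¬ ((d : ℤ) ∣ p * m - r ∧ (d' : ℤ) ∣ p' * m - r)) := by
  constructor
  · intro h1
    have hc : ¬ p ∣ d ∧ ¬ p' ∣ d' ∧ Nat.gcd d d' ∣ n0 p p' r := by
      by_contra hcon
      rw [rh, if_neg hcon] at h1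
      exact zero_ne_one h1
    obtain ⟨hpd, hpd', hg⟩ := hc
    obtain ⟨a, ha⟩ := cls_one h.pr (r := r) hpd
    obtain ⟨a', ha'⟩ := cls_one h.pr' (r := r) hpd'
    have hgd : ((Nat.gcd d d' : ℕ) : ℤ) ∣ d := by exact_mod_cast Nat.gcd_dvd_left d d'
    have hgd' : ((Nat.gcd d d' : ℕ) : ℤ) ∣ d' := by exact_mod_cast Nat.gcd_dvd_right d d'
    have e1 : ((Nat.gcd d d' : ℕ) : ℤ) ∣ p * a - r :=
      hgd.trans ((ha a).2 (by simp))
    have e2 : ((Nat.gcd d d' : ℕ) : ℤ) ∣ p' * a' - r :=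
      hgd'.trans ((ha' a').2 (by simp))
    have e3 : ((Nat.gcd d d' : ℕ) : ℤ) ∣ r * ((p : ℤ) - p') := by
      have := Int.natCast_dvd_natCast.2 hg
      rw [n0, Int.dvd_natAbs] at this
      exact this
    have e4 : ((Nat.gcd d d' : ℕ) : ℤ) ∣ (p * p' : ℤ) * (a' - a) := by
      have : (p * p' : ℤ) * (a' - a) = p * (p' * a' - r) - p' * (p * a - r) + r * ((p : ℤ) - p') := by
        ring
      rw [this]
      exact dvd_add (dvd_sub (Dvd.dvd.mul_left e2 _) (Dvd.dvd.mul_left e1 _)) e3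
    have hcop : IsCoprime ((Nat.gcd d d' : ℕ) : ℤ) (p * p' : ℤ) := by
      apply IsCoprime.mul_right
      · rw [Nat.isCoprime_iff_coprime]
        exact (((Nat.Prime.coprime_iff_not_dvd h.pr).2
          (fun hh => hpd (hh.trans (Nat.gcd_dvd_left d d')))).symm)
      · rw [Nat.isCoprime_iff_coprime]
        exact (((Nat.Prime.coprime_iff_not_dvd h.pr').2
          (fun hh => hpd' (hh.trans (Nat.gcd_dvd_right d d')))).symm)
    obtain ⟨k, hk⟩ := hcop.dvd_of_dvd_mul_left e4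
    have hbz : ((Nat.gcd d d' : ℕ) : ℤ) = d * Nat.gcdA d d' + d' * Nat.gcdB d d' :=
      Nat.gcd_eq_gcd_ab d d'
    refine ⟨a + d * (Nat.gcdA d d' * k), fun m => ?_⟩
    rw [ha m, ha' m]
    have f1 : (d : ℤ) ∣ m - a ↔ (d : ℤ) ∣ m - (a + d * (Nat.gcdA d d' * k)) := by
      have : m - (a + d * (Nat.gcdA d d' * k)) = m - a - d * (Nat.gcdA d d' * k) := by ring
      rw [this]
      exact (dvd_sub_left (Dvd.intro _ rfl)).symm
    have f2 : (d' : ℤ) ∣ m - a' ↔ (d' : ℤ) ∣ m - (a + d * (Nat.gcdA d d' * k)) := by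
      have : m - (a + d * (Nat.gcdA d d' * k)) = m - a' + d' * (Nat.gcdB d d' * k) := by
        rw [hbz] at hk
        linear_combination hk
      rw [this]
      exact (dvd_add_left (Dvd.intro _ rfl)).symm
    rw [f1, f2]
    constructor
    · rintro ⟨g1, g2⟩
      have := lcm_dvd g1 g2
      rw [← Int.coe_lcm] at this
      simpa [Int.lcm_natCast_natCast] using this
    · intro g
      constructor
      · exact (Int.natCast_dvd_natCast.2 (Nat.dvd_lcm_left d d')).trans g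
      · exact (Int.natCast_dvd_natCast.2 (Nat.dvd_lcm_right d d')).trans g
  · intro h0 m hm
    obtain ⟨g1, g2⟩ := hm
    have hc : ¬ p ∣ d ∧ ¬ p' ∣ d' ∧ Nat.gcd d d' ∣ n0 p p' r := by
      refine ⟨fun hh => ?_, fun hh => ?_, ?_⟩
      · apply h.dv
        have h1 : (p : ℤ) ∣ p * m - r := (Int.natCast_dvd_natCast.2 hh).trans g1
        have := dvd_sub (Dvd.intro m rfl : (p : ℤ) ∣ p * m) h1
        simpa using this
      · apply h.dv'
        have h1 : (p' : ℤ) ∣ p' * m - r := (Int.natCast_dvd_natCast.2 hh).trans g2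
        have := dvd_sub (Dvd.intro m rfl : (p' : ℤ) ∣ p' * m) h1
        simpa using this
      · have hgd : ((Nat.gcd d d' : ℕ) : ℤ) ∣ p * m - r :=
          (by exact_mod_cast Nat.gcd_dvd_left d d' : ((Nat.gcd d d' : ℕ) : ℤ) ∣ d).trans g1
        have hgd' : ((Nat.gcd d d' : ℕ) : ℤ) ∣ p' * m - r :=
          (by exact_mod_cast Nat.gcd_dvd_right d d' : ((Nat.gcd d d' : ℕ) : ℤ) ∣ d').trans g2
        rw [← Int.natCast_dvd_natCast, n0, Int.dvd_natAbs]
        have key : r * ((p : ℤ) - p') = p' * (p * m - r) - p * (p' * m - r) := by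
          ring
        rw [key]
        exact dvd_sub (Dvd.dvd.mul_left hgd _) (Dvd.dvd.mul_left hgd' _)
    rw [rh, if_pos hc] at h0
    exact one_ne_zero h0

end Pool.Agent.LSPD

namespace Pool.Agent.LSPD

alias cls := cls_pr

end Pool.Agent.LSPD
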