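import Pool.Agent.Lib_helper19.LSPD.Defs

/-! # LSPD, block GPO: Poisson summation for the Gaussian weight in a residue class -/

set_option autoImplicit false

namespace Pool.Agent.LSPD

open Pool.Agent.FG61 (mu cc)
open Pool.Agent.Var35 (e)
open Finset

noncomputable section

/-- block GPO -/
theorem gs_poisson_pr {L : ℝ} (hL : 0 < L) {l : ℕ} (hl : 1 ≤ l) (s : ℤ) :
    ((∑' j : ℤ, gs L (s + l * j) : ℝ) : ℂ) =
      ((L / l : ℝ) : ℂ) * ∑' h : ℤ, ((Real.exp (-Real.pi * (L * h / l) ^ 2) : ℝ) : ℂ) *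
        e ((h : ℝ) * s / l) := by
  have hl0 : (0 : ℝ) < l := by exact_mod_cast hl
  have hL' : (L : ℂ) ≠ 0 := by exact_mod_cast hL.ne'
  have hlc : (l : ℂ) ≠ 0 := by exact_mod_cast hl0.ne'
  have hcp : 0 < L / l := by positivity
  have key := Complex.tsum_exp_neg_quadratic (a := (((L / l) ^ 2 : ℝ) : ℂ))
    (by rw [Complex.ofReal_re]; positivity) (Complex.I * s / l)
  have hroot : (((L / l) ^ 2 : ℝ) : ℂ) ^ (1 / 2 : ℂ) = ((L / l : ℝ) : ℂ) := by
    have h2 : ((1 / 2 : ℂ)) = ((1 / 2 : ℝ) : ℂ) := by push_cast; rfl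
    rw [h2, ← Complex.ofReal_cpow (by positivity)]
    congr 1
    rw [← Real.sqrt_eq_rpow, Real.sqrt_sq hcp.le]
  have hlhs : ∀ n : ℤ, Complex.exp (-Real.pi * (((L / l) ^ 2 : ℝ) : ℂ) * n ^ 2
      + 2 * Real.pi * (Complex.I * s / l) * n) =
      ((Real.exp (-Real.pi * (L * n / l) ^ 2) : ℝ) : ℂ) * e ((n : ℝ) * s / l) := by
    intro n
    unfold Pool.Agent.Var35.e
    rw [Complex.ofReal_exp, ← Complex.exp_add]
    congr 1
    push_cast
    field_simp
  have hrhs : ∑' n : ℤ, Complex.exp (-Real.pi / (((L / l) ^ 2 : ℝ) : ℂ) *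
      (n + Complex.I * (Complex.I * s / l)) ^ 2) = ((∑' j : ℤ, gs L (s + l * j) : ℝ) : ℂ) := by
    rw [Complex.ofReal_tsum, ← (Equiv.neg ℤ).tsum_eq]
    refine tsum_congr fun n => ?_
    unfold gs
    rw [Complex.ofReal_exp]
    congr 1
    have hI : Complex.I * (Complex.I * s / l) = -((s : ℂ) / l) := by
      have := Complex.I_mul_I
      linear_combination ((s : ℂ) / l) * this
    rw [hI]
    simp only [Equiv.neg_apply]
    push_cast
    field_simp
    ring
  rw [hroot, hrhs] at key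
  rw [tsum_congr hlhs] at key
  rw [key]
  have hc : ((L / l : ℝ) : ℂ) ≠ 0 := by exact_mod_cast hcp.ne'
  field_simp

end

end Pool.Agent.LSPD

namespace Pool.Agent.LSPD

alias gs_poisson := gs_poisson_pr

end Pool.Agent.LSPD
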