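import Pool.Agent.Lib_helper19.LSPD.Defs
import Pool.Agent.Lib_helper19.LSPD.CLS
import Pool.Agent.Lib_helper19.LSPD.GPO

/-! LSP, part D: block EEF. -/

set_option autoImplicit false

namespace Pool.Agent.LSPD

open Pool.Agent.FG61 (mu cc)
open Pool.Agent.Var35 (e)
open Finset

noncomputable section

theorem eef_summable {c : ℝ} (hc : 0 < c) :
    Summable (fun n : ℕ => Real.exp (-Real.pi * (c * ((n : ℝ) + 1)) ^ 2)) := by
  have h1 : Summable (fun n : ℕ => Real.exp (n * (-(Real.pi * c ^ 2)))) :=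
    Real.summable_exp_nat_mul_iff.2 (by
      have : 0 < Real.pi * c ^ 2 := by positivity
      linarith)
  refine Summable.of_nonneg_of_le (fun n => (Real.exp_pos _).le) (fun n => ?_) h1
  refine Real.exp_le_exp.2 ?_
  have h2 : 0 ≤ Real.pi * c ^ 2 := by positivity
  have h3 : (n : ℝ) ≤ ((n : ℝ) + 1) ^ 2 := by nlinarith [(Nat.cast_nonneg n : (0 : ℝ) ≤ n)]
  have h4 := mul_le_mul_of_nonneg_left h3 h2
  have h5 : -Real.pi * (c * ((n : ℝ) + 1)) ^ 2 = -(Real.pi * c ^ 2 * ((n : ℝ) + 1) ^ 2) := by ring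
  rw [h5]
  linarith

/-- splitting of a sum over the integers -/
theorem eef_split {f : ℤ → ℂ} (h1 : Summable (fun n : ℕ => f (n + 1)))
    (h2 : Summable (fun n : ℕ => f (-(n + 1)))) :
    ∑' h : ℤ, f h = f 0 + ∑' n : ℕ, (f (n + 1) + f (-(n + 1))) := by
  have h0 : Summable (fun n : ℕ => f n) := by
    rw [← summable_nat_add_iff 1]
    refine h1.congr (fun n => ?_)
    push_cast
    rfl
  rw [tsum_of_nat_of_neg_add_one h0 h2, h0.tsum_eq_zero_add, h1.tsum_add h2, add_assoc]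
  push_cast
  rfl

theorem eef_TT {L : ℝ} {p p' : ℕ} {r : ℤ} (h : PP p p' r) {d d' : ℕ}
    (hd : 1 ≤ d) (hd' : 1 ≤ d') (h1 : rh p p' r d d' = 1) {s : ℤ}
    (hs : (d : ℤ) ∣ p * s - r ∧ (d' : ℤ) ∣ p' * s - r) :
    TT L p p' r d d' = ∑' j : ℤ, gs L (s + ((Nat.lcm d d' : ℕ) : ℤ) * j) := by
  obtain ⟨s₀, hs₀⟩ := (cls h hd hd').1 h1
  have h2 := (hs₀ s).1 hs
  have hl : ((Nat.lcm d d' : ℕ) : ℤ) ≠ 0 := by
    have : Nat.lcm d d' ≠ 0 := Nat.lcm_ne_zero (by omega) (by omega)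
    exact_mod_cast this
  have h3 : ∀ m : ℤ, ((d : ℤ) ∣ p * m - r ∧ (d' : ℤ) ∣ p' * m - r) ↔
      ((Nat.lcm d d' : ℕ) : ℤ) ∣ m - s := by
    intro m
    rw [hs₀ m]
    constructor
    · intro h4
      have := dvd_sub h4 h2
      have h5 : m - s₀ - (s - s₀) = m - s := by ring
      rwa [h5] at this
    · intro h4
      have := dvd_add h4 h2
      have h5 : m - s + (s - s₀) = m - s₀ := by ring
      rwa [h5] at this
  have hinj : Function.Injective (fun j : ℤ => s + ((Nat.lcm d d' : ℕ) : ℤ) * j) := by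
    intro a b hab
    have h4 : ((Nat.lcm d d' : ℕ) : ℤ) * a = ((Nat.lcm d d' : ℕ) : ℤ) * b := by
      simpa using hab
    exact mul_left_cancel₀ hl h4
  unfold TT
  rw [← hinj.tsum_eq]
  · refine tsum_congr (fun j => ?_)
    rw [if_pos]
    rw [h3]
    exact ⟨j, by ring⟩
  · intro m hm
    by_contra hc
    apply hm
    simp only
    rw [if_neg]
    intro h4
    rw [h3] at h4
    obtain ⟨j, hj⟩ := h4
    exact hc ⟨j, by simp only; rw [← hj]; ring⟩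

/-- block EEF -/
theorem ee_fourier_pr {L : ℝ} (hL : 0 < L) {p p' : ℕ} {r : ℤ} (h : PP p p' r) {d d' : ℕ}
    (hd : 1 ≤ d) (hd' : 1 ≤ d') (h1 : rh p p' r d d' = 1) {s : ℤ}
    (hs : (d : ℤ) ∣ p * s - r ∧ (d' : ℤ) ∣ p' * s - r) :
    ((EE L p p' r d d' : ℝ) : ℂ) = ∑' n : ℕ,
      (((L / (Nat.lcm d d' : ℕ) * Real.exp (-Real.pi * (L * ((n : ℝ) + 1) / (Nat.lcm d d' : ℕ)) ^ 2) : ℝ) : ℂ) *
        e (((n : ℝ) + 1) * s / (Nat.lcm d d' : ℕ)) +
       ((L / (Nat.lcm d d' : ℕ) * Real.exp (-Real.pi * (L * ((n : ℝ) + 1) / (Nat.lcm d d' : ℕ)) ^ 2) : ℝ) : ℂ) *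
        e (-(((n : ℝ) + 1) * s / (Nat.lcm d d' : ℕ)))) := by
  have hl1 : 1 ≤ Nat.lcm d d' := Nat.one_le_iff_ne_zero.2 (Nat.lcm_ne_zero (by omega) (by omega))
  have hT := eef_TT (L := L) h hd hd' h1 hs
  have hP := gs_poisson hL hl1 s
  obtain ⟨l, hl⟩ : ∃ l : ℕ, l = Nat.lcm d d' := ⟨_, rfl⟩
  rw [← hl] at hT hP hl1 ⊢
  have hl0 : (0 : ℝ) < l := by exact_mod_cast hl1
  have hc : 0 < L / l := div_pos hL hl0
  obtain ⟨f, hf⟩ : ∃ f : ℤ → ℂ, f = fun h : ℤ =>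
      ((Real.exp (-Real.pi * (L * h / l) ^ 2) : ℝ) : ℂ) * e ((h : ℝ) * s / l) := ⟨_, rfl⟩
  have hn1 : ∀ n : ℕ, f (n + 1) = ((Real.exp (-Real.pi * (L * ((n : ℝ) + 1) / l) ^ 2) : ℝ) : ℂ) *
      e (((n : ℝ) + 1) * s / l) := by
    intro n
    rw [hf]
    push_cast
    rfl
  have hn2 : ∀ n : ℕ, f (-(n + 1)) =
      ((Real.exp (-Real.pi * (L * ((n : ℝ) + 1) / l) ^ 2) : ℝ) : ℂ) *
      e (-(((n : ℝ) + 1) * s / l)) := by
    intro n
    rw [hf]
    simp only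
    have e1 : (((-((n : ℤ) + 1)) : ℤ) : ℝ) = -((n : ℝ) + 1) := by push_cast; ring
    rw [e1]
    have e2 : L * -((n : ℝ) + 1) / l = -(L * ((n : ℝ) + 1) / l) := by ring
    have e3 : -((n : ℝ) + 1) * s / l = -(((n : ℝ) + 1) * s / l) := by ring
    rw [e2, e3, neg_sq]
  have hS := eef_summable hc
  have hnorm : ∀ (n : ℕ) (x : ℝ), ‖((Real.exp (-Real.pi * (L * ((n : ℝ) + 1) / l) ^ 2) : ℝ) : ℂ) *
      e x‖ = Real.exp (-Real.pi * (L / l * ((n : ℝ) + 1)) ^ 2) := by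
    intro n x
    rw [norm_mul, Pool.Agent.Var35.norm_e, mul_one, Complex.norm_real,
      Real.norm_of_nonneg (Real.exp_pos _).le]
    congr 2
    ring
  have s1 : Summable (fun n : ℕ => f (n + 1)) := by
    refine Summable.of_norm ?_
    refine hS.congr (fun n => ?_)
    rw [hn1, hnorm]
  have s2 : Summable (fun n : ℕ => f (-(n + 1))) := by
    refine Summable.of_norm ?_
    refine hS.congr (fun n => ?_)
    rw [hn2, hnorm]
  have hsplit := eef_split s1 s2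
  have hf0 : f 0 = 1 := by
    rw [hf]
    simp [Pool.Agent.Var35.e_zero]
  have hEE : ((EE L p p' r d d' : ℝ) : ℂ) =
      ((L / l : ℝ) : ℂ) * ∑' n : ℕ, (f (n + 1) + f (-(n + 1))) := by
    unfold EE
    rw [h1, hT, one_mul, Complex.ofReal_sub, hP, ← hl]
    have : (∑' h : ℤ, ((Real.exp (-Real.pi * (L * h / l) ^ 2) : ℝ) : ℂ) *
        e ((h : ℝ) * s / l)) = ∑' h : ℤ, f h := by rw [hf]
    rw [this, hsplit, hf0, mul_add, mul_one]
    ring
  rw [hEE, ← tsum_mul_left]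
  refine tsum_congr (fun n => ?_)
  rw [hn1, hn2]
  push_cast
  ring

end

end Pool.Agent.LSPD

namespace Pool.Agent.LSPD

alias ee_fourier := ee_fourier_pr

end Pool.Agent.LSPD
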