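import Pool.Agent.Lib_helper19.LSPD.Defs
import Pool.Agent.Lib_helper97.LSPD.KLO

/-! LSP part D, blocks KLN, KLM, KLP, KLR: Kloosterman sums and Ramanujan sums. -/

set_option autoImplicit false

namespace Pool.Agent.LSPD

open Pool.Agent.FG61 (mu cc)
open Pool.Agent.Var35 (e)
open Finset

/-- block KLN -/
theorem kl_count_pr (q : ℕ) [NeZero q] :
    (Nat.card {x : ZMod q × ZMod q × ZMod q // x.1 * x.2.1 * x.2.2 = 0} : ℝ) ≤
      (q : ℝ) ^ 2 * tau q ^ 2 := by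
  classical
  rw [Nat.card_eq_fintype_card, Fintype.card_subtype]
  unfold tau
  exact_mod_cast klo_triple (q := q)

theorem klp_KL (q : ℕ) [NeZero q] (a b : ZMod q) : KL q a b = klS q a b := rfl

/-- block KLM -/
theorem kl_moment_pr (q : ℕ) [NeZero q] :
    ∑ a : ZMod q, ∑ b : ZMod q, ‖KL q a b‖ ^ 4 ≤ 2 * (q : ℝ) ^ 4 * tau q ^ 2 := klo_moment_le

theorem klp_dvd (q : ℕ) [NeZero q] (a : ℤ) {d : ℕ} (hd : d ∣ q) :
    d ∣ ((a : ℤ) : ZMod q).val ↔ (d : ℤ) ∣ a := by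
  rw [← Int.natCast_dvd_natCast, ZMod.val_intCast]
  have hd' : (d : ℤ) ∣ (q : ℤ) := by exact_mod_cast hd
  rw [Int.emod_def]
  exact dvd_sub_left (hd'.mul_right _)

/-- block KLP -/
theorem kl_bound_pr (q : ℕ) [NeZero q] (a b : ℤ) :
    ‖KL q a b‖ ^ 4 ≤ 2 * (q : ℝ) ^ 3 * (Nat.gcd (Int.gcd a b) q : ℕ) * tau q ^ 3 := by
  have h := kloo_pr (q := q) (a : ZMod q) (b : ZMod q)
  have h1 : Nat.gcd (Nat.gcd ((a : ℤ) : ZMod q).val ((b : ℤ) : ZMod q).val) q =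
      Nat.gcd (Int.gcd a b) q := by
    refine Nat.dvd_antisymm ?_ ?_
    · have i1 : Nat.gcd (Nat.gcd ((a : ℤ) : ZMod q).val ((b : ℤ) : ZMod q).val) q ∣ q :=
        Nat.gcd_dvd_right _ _
      have i2 := Nat.gcd_dvd_left (Nat.gcd ((a : ℤ) : ZMod q).val ((b : ℤ) : ZMod q).val) q
      refine Nat.dvd_gcd (Int.dvd_gcd ?_ ?_) i1
      · exact (klp_dvd q a i1).1 (i2.trans (Nat.gcd_dvd_left _ _))
      · exact (klp_dvd q b i1).1 (i2.trans (Nat.gcd_dvd_right _ _))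
    · have i1 : Nat.gcd (Int.gcd a b) q ∣ q := Nat.gcd_dvd_right _ _
      have i2 : ((Nat.gcd (Int.gcd a b) q : ℕ) : ℤ) ∣ ((Int.gcd a b : ℕ) : ℤ) := by
        exact_mod_cast Nat.gcd_dvd_left (Int.gcd a b) q
      refine Nat.dvd_gcd (Nat.dvd_gcd ?_ ?_) i1
      · exact (klp_dvd q a i1).2 (i2.trans (Int.gcd_dvd_left _ _))
      · exact (klp_dvd q b i1).2 (i2.trans (Int.gcd_dvd_right _ _))
  rw [h1] at h
  exact h

/-- block KLR -/
theorem kl_ram_pr (q : ℕ) [NeZero q] (a : ℤ) : ‖KL q a 0‖ ≤ (Int.gcd a q : ℕ) := by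
  have h := klo_ram_pr (q := q) (a : ZMod q)
  have h1 : Nat.gcd ((a : ℤ) : ZMod q).val q = Int.gcd a q := by
    refine Nat.dvd_antisymm ?_ ?_
    · have i1 : Nat.gcd ((a : ℤ) : ZMod q).val q ∣ q := Nat.gcd_dvd_right _ _
      refine Int.dvd_gcd ((klp_dvd q a i1).1 (Nat.gcd_dvd_left _ _)) ?_
      exact_mod_cast i1
    · have i1 : Int.gcd a q ∣ q := by
        exact_mod_cast Int.gcd_dvd_right a (q : ℤ)
      exact Nat.dvd_gcd ((klp_dvd q a i1).2 (Int.gcd_dvd_left _ _)) i1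
  rw [h1] at h
  exact h

end Pool.Agent.LSPD

namespace Pool.Agent.LSPD

alias kl_bound := kl_bound_pr
alias kl_count := kl_count_pr
alias kl_moment := kl_moment_pr

end Pool.Agent.LSPD
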