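import Pool.Agent.Lib_helper19.LSPD.KLP

/-! LSP part D, block KLR: the Ramanujan sum bound is proved in `KLP`. -/

namespace Pool.Agent.LSPD

alias kl_ram := kl_ram_pr

end Pool.Agent.LSPD
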