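import Pool.Agent.Lib_helper19.LSPD.Defs
import Pool.Agent.Lib_helper19.LSPD.KLP
import Pool.Agent.Lib_helper19.LSPD.KLR

set_option autoImplicit false

namespace Pool.Agent.LSPD

open Finset

noncomputable section

theorem ikb_unit (q : ℕ) [NeZero q] (a : ℤ) (K : ℕ) :
    IK q a K = ∑ k ∈ Icc 1 K, ∑ u : (ZMod q)ˣ, if (u : ZMod q) = (k : ZMod q) then
      (ZMod.stdAddChar ((a : ZMod q) * ((u⁻¹ : (ZMod q)ˣ) : ZMod q)) : ℂ) else 0 := by
  unfold IK
  rw [Finset.sum_filter]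
  refine Finset.sum_congr rfl fun k _ => ?_
  split_ifs with h
  · rw [Finset.sum_eq_single (ZMod.unitOfCoprime k h)]
    · rw [if_pos (ZMod.coe_unitOfCoprime k h)]
      rw [← ZMod.inv_coe_unit, ZMod.coe_unitOfCoprime]
    · intro u _ hu
      rw [if_neg]
      intro he
      exact hu (Units.ext (by rw [he, ZMod.coe_unitOfCoprime]))
    · intro h'
      exact absurd (Finset.mem_univ _) h'
  · symm
    refine Finset.sum_eq_zero fun u _ => ?_
    rw [if_neg]
    intro he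
    apply h
    rw [← ZMod.isUnit_iff_coprime, ← he]
    exact u.isUnit

theorem ikb_fourier (q : ℕ) [NeZero q] (a : ℤ) (K : ℕ) :
    (q : ℂ) * IK q a K = ∑ l : ZMod q, KL q a l * ∑ k ∈ Icc 1 K, ZMod.stdAddChar (-(l * (k : ZMod q))) := by
  have h1 : ∀ l : ZMod q, KL q a l * ∑ k ∈ Icc 1 K, ZMod.stdAddChar (-(l * (k : ZMod q))) =
      ∑ k ∈ Icc 1 K, ∑ u : (ZMod q)ˣ,
        (ZMod.stdAddChar ((a : ZMod q) * ((u⁻¹ : (ZMod q)ˣ) : ZMod q)) : ℂ) *
          ZMod.stdAddChar (l * ((u : ZMod q) - (k : ZMod q))) := by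
    intro l
    unfold KL
    rw [Finset.sum_mul_sum, Finset.sum_comm]
    refine Finset.sum_congr rfl fun k _ => Finset.sum_congr rfl fun u _ => ?_
    rw [← AddChar.map_add_eq_mul, ← AddChar.map_add_eq_mul]
    congr 1
    ring
  rw [Finset.sum_congr rfl fun l _ => h1 l, Finset.sum_comm, ikb_unit, Finset.mul_sum]
  refine Finset.sum_congr rfl fun k _ => ?_
  rw [Finset.sum_comm, Finset.mul_sum]
  refine Finset.sum_congr rfl fun u _ => ?_
  rw [← Finset.mul_sum, AddChar.sum_mulShift _ (ZMod.isPrimitive_stdAddChar q), ZMod.card]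
  by_cases h : (u : ZMod q) = k
  · rw [if_pos h, if_pos (by rw [h, sub_self])]
    ring
  · rw [if_neg h, if_neg (by rwa [sub_eq_zero])]
    simp

theorem ikb_geo (q : ℕ) [NeZero q] {l : ℕ} (hl : 1 ≤ l) (hlq : l < q) (K : ℕ) :
    ‖∑ k ∈ Icc 1 K, (ZMod.stdAddChar (-(((l : ℕ) : ZMod q) * (k : ZMod q))) : ℂ)‖ ≤
      (q : ℝ) / 2 * (1 / l + 1 / ((q - l : ℕ) : ℝ)) := by
  have hq : 0 < q := NeZero.pos q
  have hqr : (0 : ℝ) < q := by exact_mod_cast hq
  have hlr : (1 : ℝ) ≤ l := by exact_mod_cast hl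
  have hlqr : (l : ℝ) < q := by exact_mod_cast hlq
  set z : ℂ := ZMod.stdAddChar (-((l : ℕ) : ZMod q)) with hz
  have h1 : ∀ k : ℕ, (ZMod.stdAddChar (-(((l : ℕ) : ZMod q) * (k : ZMod q))) : ℂ) = z ^ k := by
    intro k
    rw [hz, ← AddChar.map_nsmul_eq_pow]
    congr 1
    rw [nsmul_eq_mul]; ring
  have hzn : ‖z‖ = 1 := by rw [hz]; exact AddChar.norm_apply _ _
  have hz1 : z = Complex.exp (Complex.I * ((-(2 * Real.pi * l / q) : ℝ) : ℂ)) := by
    rw [hz]
    have : (-((l : ℕ) : ZMod q)) = (((-(l : ℤ)) : ℤ) : ZMod q) := by push_cast; rfl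
    rw [this, ZMod.stdAddChar_coe]
    congr 1
    push_cast
    ring
  have hsin : 2 * (1 / (1 / (l : ℝ) + 1 / ((q - l : ℕ) : ℝ))) / q ≤ Real.sin (Real.pi * l / q) := by
    have hc : ((q - l : ℕ) : ℝ) = q - l := by rw [Nat.cast_sub hlq.le]
    have hql : (0 : ℝ) < q - l := by linarith
    have h3 : 1 / (1 / (l : ℝ) + 1 / ((q - l : ℕ) : ℝ)) ≤ l ∧
        1 / (1 / (l : ℝ) + 1 / ((q - l : ℕ) : ℝ)) ≤ q - l := by
      rw [hc]
      have p1 : 0 < 1 / (l : ℝ) := by positivity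
      have p2 : 0 < 1 / ((q : ℝ) - l) := by positivity
      constructor
      · rw [div_le_iff₀ (by positivity)]
        have : (l : ℝ) * (1 / l) = 1 := by field_simp
        nlinarith
      · rw [div_le_iff₀ (by positivity)]
        have : ((q : ℝ) - l) * (1 / (q - l)) = 1 := by field_simp
        nlinarith
    rcases le_or_gt (2 * (l : ℝ)) q with h | h
    · have h4 := Real.mul_le_sin (x := Real.pi * l / q) (by positivity) (by
        rw [div_le_div_iff₀ hqr (by norm_num)]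
        nlinarith [Real.pi_pos])
      refine le_trans ?_ h4
      have : 2 / Real.pi * (Real.pi * l / q) = 2 * l / q := by
        have := Real.pi_ne_zero
        field_simp
      rw [this]
      gcongr
      exact h3.1
    · have e1 : Real.sin (Real.pi * l / q) = Real.sin (Real.pi * (q - l) / q) := by
        rw [← Real.sin_pi_sub]
        congr 1
        field_simp
      have h4 := Real.mul_le_sin (x := Real.pi * (q - l) / q) (by positivity) (by
        rw [div_le_div_iff₀ hqr (by norm_num)]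
        nlinarith [Real.pi_pos])
      rw [e1]
      refine le_trans ?_ h4
      have : 2 / Real.pi * (Real.pi * (q - l) / q) = 2 * (q - l) / q := by
        have := Real.pi_ne_zero
        field_simp
      rw [this]
      gcongr
      exact h3.2
  have hpos : 0 < 1 / (l : ℝ) + 1 / ((q - l : ℕ) : ℝ) := by positivity
  have hsinpos : 0 < Real.sin (Real.pi * l / q) := lt_of_lt_of_le (by positivity) hsin
  have hnorm : ‖z - 1‖ = 2 * Real.sin (Real.pi * l / q) := by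
    rw [hz1, Complex.norm_exp_I_mul_ofReal_sub_one]
    have : -(2 * Real.pi * l / q) / 2 = -(Real.pi * l / q) := by ring
    rw [this, Real.sin_neg, mul_neg, norm_neg, Real.norm_eq_abs, abs_of_pos (by positivity)]
  have hne : z ≠ 1 := by
    intro h
    rw [h, sub_self, norm_zero] at hnorm
    linarith
  have hgeo : ∑ k ∈ Icc 1 K, z ^ k = z * ((z ^ K - 1) / (z - 1)) := by
    rw [← geom_sum_eq hne, Finset.mul_sum, Finset.range_eq_Ico, Finset.sum_Ico_eq_sum_range]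
    have : Icc 1 K = Ico 1 (K + 1) := by ext; simp [Finset.mem_Icc, Finset.mem_Ico]
    rw [this, Finset.sum_Ico_eq_sum_range]
    refine Finset.sum_congr (by simp) fun k _ => ?_
    rw [← pow_succ']
    congr 1
    omega
  rw [Finset.sum_congr rfl fun k _ => h1 k, hgeo, norm_mul, hzn, one_mul, norm_div, hnorm]
  have hnum : ‖z ^ K - 1‖ ≤ 2 := by
    calc _ ≤ ‖z ^ K‖ + ‖(1 : ℂ)‖ := norm_sub_le _ _
      _ = 2 := by rw [norm_pow, hzn]; norm_num
  calc ‖z ^ K - 1‖ / (2 * Real.sin (Real.pi * l / q)) ≤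
        2 / (2 * (2 * (1 / (1 / (l : ℝ) + 1 / ((q - l : ℕ) : ℝ))) / q)) := by gcongr
    _ = _ := by
        field_simp

theorem ikb_harm (q : ℕ) : ∑ l ∈ Icc 1 q, 1 / (l : ℝ) ≤ 1 + Real.log q := by
  have h := harmonic_le_one_add_log q
  rw [harmonic_eq_sum_Icc] at h
  push_cast at h
  simpa [one_div] using h

theorem ikb_sum (q : ℕ) (hq : 1 ≤ q) :
    ∑ l ∈ Ico 1 q, (Nat.gcd l q : ℝ) / l ≤ tau q * (1 + Real.log q) := by
  have h1 : ∀ l ∈ Ico 1 q, (Nat.gcd l q : ℝ) / l ≤ ∑ d ∈ q.divisors, if d ∣ l then (d : ℝ) / l else 0 := by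
    intro l _
    have hmem : Nat.gcd l q ∈ q.divisors := by
      rw [Nat.mem_divisors]; exact ⟨Nat.gcd_dvd_right l q, by omega⟩
    calc (Nat.gcd l q : ℝ) / l = if Nat.gcd l q ∣ l then (Nat.gcd l q : ℝ) / l else 0 := by
          rw [if_pos (Nat.gcd_dvd_left l q)]
      _ ≤ _ := Finset.single_le_sum (f := fun d => if d ∣ l then (d : ℝ) / l else 0)
          (fun _ _ => by positivity) hmem
  refine (Finset.sum_le_sum h1).trans ?_
  rw [Finset.sum_comm]
  have h2 : ∀ d ∈ q.divisors, (∑ l ∈ Ico 1 q, if d ∣ l then (d : ℝ) / l else 0) ≤ 1 + Real.log q := by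
    intro d hd
    have hd0 : 0 < d := Nat.pos_of_mem_divisors hd
    have hd1 : (0 : ℝ) < d := by exact_mod_cast hd0
    refine le_trans ?_ (ikb_harm q)
    rw [← Finset.sum_filter]
    have h3 : (Ico 1 q).filter (fun a => d ∣ a) ⊆ (Icc 1 q).image (fun j => d * j) := by
      intro a ha
      rw [Finset.mem_filter, Finset.mem_Ico] at ha
      obtain ⟨ha, ⟨j, rfl⟩⟩ := ha
      rw [Finset.mem_image]
      refine ⟨j, Finset.mem_Icc.2 ⟨Nat.pos_of_ne_zero (by rintro rfl; simp at ha), ?_⟩, rfl⟩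
      exact (Nat.le_mul_of_pos_left j hd0).trans ha.2.le
    refine (Finset.sum_le_sum_of_subset_of_nonneg h3 (fun _ _ _ => by positivity)).trans ?_
    rw [Finset.sum_image (fun a _ b _ h => Nat.eq_of_mul_eq_mul_left hd0 h)]
    refine le_of_eq (Finset.sum_congr rfl fun j hj => ?_)
    have hj0 : (j : ℝ) ≠ 0 := by
      have := (Finset.mem_Icc.1 hj).1
      positivity
    push_cast
    field_simp
  calc _ ≤ ∑ d ∈ q.divisors, (1 + Real.log q) := Finset.sum_le_sum h2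
    _ = _ := by rw [Finset.sum_const, nsmul_eq_mul]; rfl

theorem ikb_tau (q : ℕ) (hq : 1 ≤ q) : 1 ≤ tau q := by
  unfold tau
  have : 1 ≤ q.divisors.card := Finset.card_pos.2 ⟨1, Nat.one_mem_divisors.2 (by omega)⟩
  exact_mod_cast this

theorem ikb_kl (q : ℕ) [NeZero q] (a : ℤ) (l : ℕ) :
    ‖KL q a ((l : ℕ) : ZMod q)‖ ≤ 2 * (q : ℝ) ^ (3 / 4 : ℝ) * tau q * (Nat.gcd l q : ℝ) := by
  have hq : 0 < q := NeZero.pos q
  have hqr : (0 : ℝ) < q := by exact_mod_cast hq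
  have hb := kl_bound q a (l : ℤ)
  have hc : (((l : ℤ)) : ZMod q) = ((l : ℕ) : ZMod q) := by push_cast; rfl
  rw [hc] at hb
  have ht := ikb_tau q hq
  have hg0 : 1 ≤ Nat.gcd l q := Nat.gcd_pos_of_pos_right _ hq
  have hg1 : (1 : ℝ) ≤ (Nat.gcd l q : ℝ) := by exact_mod_cast hg0
  have hgle : ((Nat.gcd (Int.gcd a (l : ℤ)) q : ℕ) : ℝ) ≤ (Nat.gcd l q : ℝ) := by
    have : Nat.gcd (Int.gcd a (l : ℤ)) q ≤ Nat.gcd l q := by
      apply Nat.le_of_dvd hg0
      apply Nat.dvd_gcd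
      · refine (Nat.gcd_dvd_left _ _).trans ?_
        have := Int.gcd_dvd_right a (l : ℤ)
        exact_mod_cast this
      · exact Nat.gcd_dvd_right _ _
    exact_mod_cast this
  have h1 : ‖KL q a ((l : ℕ) : ZMod q)‖ ^ 4 ≤
      (2 * (q : ℝ) ^ (3 / 4 : ℝ) * tau q * (Nat.gcd l q : ℝ)) ^ 4 := by
    have hpow : ((q : ℝ) ^ (3 / 4 : ℝ)) ^ 4 = (q : ℝ) ^ 3 := by
      rw [← Real.rpow_natCast, ← Real.rpow_mul hqr.le, ← Real.rpow_natCast]
      norm_num
    have e1 : (2 * (q : ℝ) ^ (3 / 4 : ℝ) * tau q * (Nat.gcd l q : ℝ)) ^ 4 =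
        16 * (q : ℝ) ^ 3 * tau q ^ 4 * (Nat.gcd l q : ℝ) ^ 4 := by
      rw [mul_pow, mul_pow, mul_pow, hpow]; norm_num
    rw [e1]
    refine hb.trans ?_
    have e2 : (Nat.gcd l q : ℝ) ≤ (Nat.gcd l q : ℝ) ^ 4 := by
      nth_rewrite 1 [← pow_one (Nat.gcd l q : ℝ)]
      exact pow_le_pow_right₀ hg1 (by norm_num)
    have e3 : tau q ^ 3 ≤ tau q ^ 4 := pow_le_pow_right₀ ht (by norm_num)
    calc 2 * (q : ℝ) ^ 3 * ((Nat.gcd (Int.gcd a (l : ℤ)) q : ℕ) : ℝ) * tau q ^ 3 ≤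
        16 * (q : ℝ) ^ 3 * ((Nat.gcd l q : ℝ) ^ 4) * tau q ^ 4 := by
          have h0 : 0 ≤ tau q := by linarith
          gcongr
          · norm_num
          · exact hgle.trans e2
      _ = _ := by ring
  exact le_of_pow_le_pow_left₀ (by norm_num) (by positivity) h1

theorem ik_bound_pr (q : ℕ) [NeZero q] (a : ℤ) (K : ℕ) :
    ‖IK q a K‖ ≤ (K : ℝ) / q * (Int.gcd a q : ℕ) +
      2 * (q : ℝ) ^ (3 / 4 : ℝ) * tau q ^ 2 * (1 + Real.log q) := by
  have hq : 0 < q := NeZero.pos q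
  have hqr : (0 : ℝ) < q := by exact_mod_cast hq
  have hf := ikb_fourier q a K
  -- split off `l = 0`
  have hsplit : ∑ l : ZMod q, KL q a l * ∑ k ∈ Icc 1 K, ZMod.stdAddChar (-(l * (k : ZMod q))) =
      KL q a 0 * K + ∑ l ∈ Ico 1 q, KL q a ((l : ℕ) : ZMod q) *
        ∑ k ∈ Icc 1 K, ZMod.stdAddChar (-(((l : ℕ) : ZMod q) * (k : ZMod q))) := by
    have h1 : ∑ l : ZMod q, KL q a l * ∑ k ∈ Icc 1 K, ZMod.stdAddChar (-(l * (k : ZMod q))) =
        ∑ l ∈ range q, KL q a ((l : ℕ) : ZMod q) *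
        ∑ k ∈ Icc 1 K, ZMod.stdAddChar (-(((l : ℕ) : ZMod q) * (k : ZMod q))) := by
      refine Finset.sum_bij (fun A _ => A.val) ?_ ?_ ?_ ?_
      · intro A _; exact Finset.mem_range.2 (ZMod.val_lt A)
      · intro A _ B _ h; exact ZMod.val_injective q h
      · intro a ha
        exact ⟨(a : ZMod q), Finset.mem_univ _, ZMod.val_cast_of_lt (Finset.mem_range.1 ha)⟩
      · intro A _; rw [ZMod.natCast_zmod_val]
    rw [h1, Finset.range_eq_Ico, Finset.sum_eq_sum_Ico_succ_bot hq]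
    congr 1
    simp
  rw [hsplit] at hf
  have hn : (q : ℝ) * ‖IK q a K‖ ≤ (Int.gcd a q : ℕ) * K +
      2 * (q : ℝ) * ((q : ℝ) ^ (3 / 4 : ℝ)) * tau q ^ 2 * (1 + Real.log q) := by
    calc (q : ℝ) * ‖IK q a K‖ = ‖(q : ℂ) * IK q a K‖ := by rw [norm_mul, Complex.norm_natCast]
      _ ≤ ‖KL q a 0 * K‖ + ∑ l ∈ Ico 1 q, ‖KL q a ((l : ℕ) : ZMod q) *
        ∑ k ∈ Icc 1 K, ZMod.stdAddChar (-(((l : ℕ) : ZMod q) * (k : ZMod q)))‖ := by
          rw [hf]
          exact (norm_add_le _ _).trans (add_le_add le_rfl (norm_sum_le _ _))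
      _ ≤ (Int.gcd a q : ℕ) * K + ∑ l ∈ Ico 1 q, (q : ℝ) * ((q : ℝ) ^ (3 / 4 : ℝ) * tau q) *
            ((Nat.gcd l q : ℝ) / l + (Nat.gcd l q : ℝ) / ((q - l : ℕ) : ℝ)) := by
          refine add_le_add ?_ (Finset.sum_le_sum fun l hl => ?_)
          · rw [norm_mul, Complex.norm_natCast]
            exact mul_le_mul_of_nonneg_right (kl_ram q a) (Nat.cast_nonneg _)
          · rw [Finset.mem_Ico] at hl
            rw [norm_mul]
            have h0 : 0 ≤ tau q := by have := ikb_tau q hq; linarith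
            calc _ ≤ (2 * (q : ℝ) ^ (3 / 4 : ℝ) * tau q * (Nat.gcd l q : ℝ)) *
                ((q : ℝ) / 2 * (1 / l + 1 / ((q - l : ℕ) : ℝ))) := by
                  refine mul_le_mul (ikb_kl q a l) (ikb_geo q hl.1 hl.2 K) (norm_nonneg _) ?_
                  positivity
              _ = _ := by ring
      _ = (Int.gcd a q : ℕ) * K + (q : ℝ) * ((q : ℝ) ^ (3 / 4 : ℝ) * tau q) *
            (2 * ∑ l ∈ Ico 1 q, (Nat.gcd l q : ℝ) / l) := by
          rw [← Finset.mul_sum, Finset.sum_add_distrib]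
          congr 2
          rw [two_mul]
          congr 1
          refine Finset.sum_nbij' (fun l => q - l) (fun l => q - l) ?_ ?_ ?_ ?_ ?_
          · intro l hl; rw [Finset.mem_Ico] at hl ⊢; omega
          · intro l hl; rw [Finset.mem_Ico] at hl ⊢; omega
          · intro l hl; rw [Finset.mem_Ico] at hl; omega
          · intro l hl; rw [Finset.mem_Ico] at hl; omega
          · intro l hl
            rw [Finset.mem_Ico] at hl
            rw [Nat.gcd_self_sub_left hl.2.le]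
      _ ≤ _ := by
          have h0 : 0 ≤ tau q := by have := ikb_tau q hq; linarith
          have h1 := ikb_sum q hq
          have h2 : (q : ℝ) * ((q : ℝ) ^ (3 / 4 : ℝ) * tau q) *
            (2 * ∑ l ∈ Ico 1 q, (Nat.gcd l q : ℝ) / l) ≤ (q : ℝ) * ((q : ℝ) ^ (3 / 4 : ℝ) * tau q) *
            (2 * (tau q * (1 + Real.log q))) := by gcongr
          calc _ ≤ (Int.gcd a q : ℕ) * (K : ℝ) + (q : ℝ) * ((q : ℝ) ^ (3 / 4 : ℝ) * tau q) *
            (2 * (tau q * (1 + Real.log q))) := by gcongr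
            _ = _ := by ring
  have : ‖IK q a K‖ = (q : ℝ) * ‖IK q a K‖ / q := by field_simp
  rw [this, div_le_iff₀ hqr]
  calc _ ≤ _ := hn
    _ = _ := by field_simp

end

end Pool.Agent.LSPD

namespace Pool.Agent.LSPD

alias ik_bound := ik_bound_pr

end Pool.Agent.LSPD
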