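import Pool.Agent.Lib_helper19.LSPD.Defs

/-! LSP, part D: block PHA. -/

set_option autoImplicit false

namespace Pool.Agent.LSPD

open Pool.Agent.FG61 (mu cc)
open Pool.Agent.Var35 (e)
open Finset

theorem pha_std (q : ℕ) [NeZero q] (j : ℤ) :
    e ((j : ℝ) / q) = ZMod.stdAddChar (j : ZMod q) := by
  rw [ZMod.stdAddChar_coe]
  unfold Pool.Agent.Var35.e
  congr 1
  push_cast
  ring

theorem pha_pr {p l k : ℕ} [NeZero (p * l)] {r s s₂ : ℤ} (hk : 1 ≤ k)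
    (hc : Nat.Coprime k (p * l)) (h1 : (k : ℤ) ∣ p * s - r) (h2 : (l : ℤ) ∣ s - s₂) (h : ℤ) :
    e ((h : ℝ) * s / (k * l)) = e ((h : ℝ) * r / (k * (p * l : ℕ))) *
      ZMod.stdAddChar (((h * (p * s₂ - r) : ℤ) : ZMod (p * l)) * (k : ZMod (p * l))⁻¹) := by
  obtain ⟨v, hv⟩ := h1
  obtain ⟨u, hu⟩ := h2
  have hpl : p * l ≠ 0 := NeZero.ne (p * l)
  have hp0 : (p : ℝ) ≠ 0 := by
    have : p ≠ 0 := fun h0 => hpl (by simp [h0])
    exact_mod_cast this
  have hl0 : (l : ℝ) ≠ 0 := by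
    have : l ≠ 0 := fun h0 => hpl (by simp [h0])
    exact_mod_cast this
  have hk0 : (k : ℝ) ≠ 0 := by
    have : k ≠ 0 := by omega
    exact_mod_cast this
  have hvR : (p : ℝ) * s - r = k * v := by exact_mod_cast hv
  have e1 : (h : ℝ) * s / (k * l) = (h : ℝ) * r / (k * (p * l : ℕ)) +
      ((h * v : ℤ) : ℝ) / (p * l : ℕ) := by
    push_cast
    have hs : (s : ℝ) = (k * v + r) / p := by
      field_simp
      linarith
    rw [hs]
    field_simp
    ring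
  rw [e1, Pool.Agent.Var35.e_add, pha_std]
  congr 2
  -- in `ZMod (p l)`
  have hunit : (k : ZMod (p * l)) * (k : ZMod (p * l))⁻¹ = 1 := ZMod.coe_mul_inv_eq_one k hc
  have h3 : ((k * v : ℤ) : ZMod (p * l)) = ((p * s₂ - r : ℤ) : ZMod (p * l)) := by
    rw [← sub_eq_zero, ← Int.cast_sub, ZMod.intCast_zmod_eq_zero_iff_dvd]
    refine ⟨u, ?_⟩
    push_cast
    linear_combination (-1 : ℤ) * hv + p * hu
  have h4 : ((k : ℕ) : ZMod (p * l)) * ((v : ℤ) : ZMod (p * l)) =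
      ((p * s₂ - r : ℤ) : ZMod (p * l)) := by
    rw [← h3]; push_cast; rfl
  rw [Int.cast_mul, Int.cast_mul, ← h4]
  linear_combination (-((h : ℤ) : ZMod (p * l)) * ((v : ℤ) : ZMod (p * l))) * hunit

end Pool.Agent.LSPD

namespace Pool.Agent.LSPD

alias pha := pha_pr

end Pool.Agent.LSPD
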