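import Pool.Agent.Lib_helper19.LSPD.Defs

/-!
# Block SMH: the sum over `h` with `gcd (h, q)`
-/

set_option autoImplicit false

namespace Pool.Agent.LSPD

open Finset

/-- `(1/k) e^{-(k y)²}` -/
noncomputable def smh_a (y : ℝ) (k : ℕ) : ℝ := 1 / (k : ℝ) * Real.exp (-((k : ℝ) * y) ^ 2)

theorem smh_a_nonneg (y : ℝ) (k : ℕ) : 0 ≤ smh_a y k := by
  unfold smh_a
  positivity

/-- the sum of the `y e^{-k y}` -/
theorem smh_geom (y : ℝ) (M : ℕ) :
    ∑ k ∈ Icc 1 M, y * Real.exp (-(k * y)) ≤ 1 := by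
  have h1 : ∀ M : ℕ, ∑ k ∈ Icc 1 M, y * Real.exp (-(k * y)) ≤ 1 - Real.exp (-(M * y)) := by
    intro M
    induction M with
    | zero => simp
    | succ M ih =>
      rw [Finset.sum_Icc_succ_top (by omega)]
      have h2 : Real.exp (-(M * y)) = Real.exp (-(((M + 1 : ℕ) : ℝ) * y)) * Real.exp y := by
        rw [← Real.exp_add]
        congr 1
        push_cast
        ring
      have h3 : y + 1 ≤ Real.exp y := Real.add_one_le_exp y
      have h4 : 0 < Real.exp (-(((M + 1 : ℕ) : ℝ) * y)) := Real.exp_pos _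
      nlinarith
  refine (h1 M).trans ?_
  have := Real.exp_pos (-(M * y))
  linarith

theorem smh_term {y : ℝ} (hy : 0 < y) {k : ℕ} (hk : 1 ≤ k) :
    smh_a y k ≤ (if k ≤ ⌊1 / y⌋₊ then 1 / (k : ℝ) else 0) + y * Real.exp (-(k * y)) := by
  have hkr : (1 : ℝ) ≤ k := by exact_mod_cast hk
  have hk0 : (0 : ℝ) < k := by linarith
  unfold smh_a
  split_ifs with h
  · have h1 : Real.exp (-((k : ℝ) * y) ^ 2) ≤ 1 := Real.exp_le_one_iff.mpr (by nlinarith [sq_nonneg ((k : ℝ) * y)])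
    have h2 : 1 / (k : ℝ) * Real.exp (-((k : ℝ) * y) ^ 2) ≤ 1 / (k : ℝ) * 1 :=
      mul_le_mul_of_nonneg_left h1 (by positivity)
    have h3 : 0 ≤ y * Real.exp (-(k * y)) := by positivity
    linarith
  · rw [not_le, Nat.floor_lt (by positivity)] at h
    rw [div_lt_iff₀ hy] at h
    have h1 : 1 / (k : ℝ) ≤ y := by
      rw [div_le_iff₀ hk0]
      linarith
    have h2 : Real.exp (-((k : ℝ) * y) ^ 2) ≤ Real.exp (-(k * y)) := by
      apply Real.exp_le_exp.mpr
      nlinarith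
    rw [zero_add]
    exact mul_le_mul h1 h2 (Real.exp_pos _).le hy.le

theorem smh_sum {y : ℝ} (hy : 0 < y) (M : ℕ) :
    ∑ k ∈ Icc 1 M, smh_a y k ≤ 2 + Real.log (1 + 1 / y) := by
  have h1 : ∑ k ∈ Icc 1 M, smh_a y k ≤
      ∑ k ∈ Icc 1 M, (if k ≤ ⌊1 / y⌋₊ then 1 / (k : ℝ) else 0) +
        ∑ k ∈ Icc 1 M, y * Real.exp (-(k * y)) := by
    rw [← Finset.sum_add_distrib]
    apply Finset.sum_le_sum
    intro k hk
    exact smh_term hy (Finset.mem_Icc.mp hk).1
  have h2 : ∑ k ∈ Icc 1 M, (if k ≤ ⌊1 / y⌋₊ then 1 / (k : ℝ) else 0) ≤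
      1 + Real.log (1 + 1 / y) := by
    rw [← Finset.sum_filter]
    have h3 : ∑ k ∈ (Icc 1 M).filter (fun k => k ≤ ⌊1 / y⌋₊), 1 / (k : ℝ) ≤
        ∑ k ∈ Icc 1 ⌊1 / y⌋₊, 1 / (k : ℝ) := by
      apply Finset.sum_le_sum_of_subset_of_nonneg
      · intro k hk
        rw [Finset.mem_filter, Finset.mem_Icc] at hk
        rw [Finset.mem_Icc]
        exact ⟨hk.1.1, hk.2⟩
      · intro k _ _
        positivity
    have h4 : ∑ k ∈ Icc 1 ⌊1 / y⌋₊, 1 / (k : ℝ) ≤ 1 + Real.log ⌊1 / y⌋₊ := by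
      have h5 := harmonic_le_one_add_log ⌊1 / y⌋₊
      rw [harmonic_eq_sum_Icc] at h5
      push_cast at h5
      refine le_trans (le_of_eq ?_) h5
      apply Finset.sum_congr rfl
      intro k _
      rw [one_div]
    have h6 : Real.log ⌊1 / y⌋₊ ≤ Real.log (1 + 1 / y) := by
      rcases Nat.eq_zero_or_pos ⌊1 / y⌋₊ with h0 | h0
      · rw [h0]
        simp only [Nat.cast_zero, Real.log_zero]
        apply Real.log_nonneg
        have : 0 ≤ 1 / y := by positivity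
        linarith
      · apply Real.log_le_log (by exact_mod_cast h0)
        have := Nat.floor_le (show 0 ≤ 1 / y by positivity)
        linarith
    linarith
  have h7 := smh_geom y M
  linarith

/-- the part divisible by `δ` -/
theorem smh_div {y : ℝ} (hy : 0 < y) {δ : ℕ} (hδ : 1 ≤ δ) (M : ℕ) :
    ∑ h ∈ (Icc 1 M).filter (fun h => δ ∣ h), (δ : ℝ) * smh_a y h ≤ ∑ k ∈ Icc 1 M, smh_a y k := by
  have hδr : (1 : ℝ) ≤ δ := by exact_mod_cast hδ
  have h1 : ∑ h ∈ (Icc 1 M).filter (fun h => δ ∣ h), (δ : ℝ) * smh_a y h =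
      ∑ k ∈ ((Icc 1 M).filter (fun h => δ ∣ h)).image (fun h => h / δ),
        (δ : ℝ) * smh_a y (δ * k) := by
    rw [Finset.sum_image]
    · apply Finset.sum_congr rfl
      intro h hh
      rw [Finset.mem_filter] at hh
      rw [Nat.mul_div_cancel' hh.2]
    · intro h hh h' hh' e
      rw [Finset.mem_coe, Finset.mem_filter] at hh hh'
      have e1 := Nat.mul_div_cancel' hh.2
      have e2 := Nat.mul_div_cancel' hh'.2
      simp only at e
      rw [← e1, ← e2, e]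
  rw [h1]
  have h2 : ∑ k ∈ ((Icc 1 M).filter (fun h => δ ∣ h)).image (fun h => h / δ),
        (δ : ℝ) * smh_a y (δ * k) ≤
      ∑ k ∈ ((Icc 1 M).filter (fun h => δ ∣ h)).image (fun h => h / δ), smh_a y k := by
    apply Finset.sum_le_sum
    intro k hk
    unfold smh_a
    rcases Nat.eq_zero_or_pos k with h0 | h0
    · rw [h0]
      simp
    · have hk0 : (0 : ℝ) < k := by exact_mod_cast h0
      have h3 : (δ : ℝ) * (1 / ((δ * k : ℕ) : ℝ) * Real.exp (-(((δ * k : ℕ) : ℝ) * y) ^ 2)) =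
          1 / (k : ℝ) * Real.exp (-(((δ * k : ℕ) : ℝ) * y) ^ 2) := by
        push_cast
        field_simp
      rw [h3]
      apply mul_le_mul_of_nonneg_left _ (by positivity)
      apply Real.exp_le_exp.mpr
      have h4 : (k : ℝ) * y ≤ ((δ * k : ℕ) : ℝ) * y := by
        push_cast
        have : 0 ≤ (k : ℝ) * y := by positivity
        nlinarith
      have h5 : 0 ≤ (k : ℝ) * y := by positivity
      nlinarith
  refine h2.trans ?_
  apply Finset.sum_le_sum_of_subset_of_nonneg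
  · intro k hk
    rw [Finset.mem_image] at hk
    obtain ⟨h, hh, rfl⟩ := hk
    rw [Finset.mem_filter, Finset.mem_Icc] at hh
    rw [Finset.mem_Icc]
    refine ⟨?_, (Nat.div_le_self _ _).trans hh.1.2⟩
    exact Nat.div_pos (Nat.le_of_dvd (by omega) hh.2) (by omega)
  · intro k _ _
    exact smh_a_nonneg y k

theorem smh_shift (f : ℕ → ℝ) (M : ℕ) : ∑ n ∈ range M, f (n + 1) = ∑ h ∈ Icc 1 M, f h := by
  induction M with
  | zero => simp
  | succ M ih => rw [Finset.sum_range_succ, ih, Finset.sum_Icc_succ_top (by omega)]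

theorem smh_partial {y : ℝ} (hy : 0 < y) {q : ℕ} (hq : 1 ≤ q) (M : ℕ) :
    ∑ n ∈ range M, 1 / ((n : ℝ) + 1) * Real.exp (-(((n : ℝ) + 1) * y) ^ 2) *
      (Nat.gcd (n + 1) q : ℕ) ≤ 2 * tau q * (2 + Real.log (1 + 1 / y)) := by
  have h0 : 0 ≤ 2 + Real.log (1 + 1 / y) := by
    have : 0 ≤ Real.log (1 + 1 / y) := by
      apply Real.log_nonneg
      have : 0 ≤ 1 / y := by positivity
      linarith
    linarith
  have h1 : ∑ n ∈ range M, 1 / ((n : ℝ) + 1) * Real.exp (-(((n : ℝ) + 1) * y) ^ 2) *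
      (Nat.gcd (n + 1) q : ℕ) = ∑ h ∈ Icc 1 M, smh_a y h * (Nat.gcd h q : ℕ) := by
    rw [← smh_shift]
    apply Finset.sum_congr rfl
    intro n _
    unfold smh_a
    push_cast
    ring
  rw [h1]
  have h2 : ∑ h ∈ Icc 1 M, smh_a y h * (Nat.gcd h q : ℕ) ≤
      ∑ h ∈ Icc 1 M, ∑ δ ∈ q.divisors, (if δ ∣ h then (δ : ℝ) * smh_a y h else 0) := by
    apply Finset.sum_le_sum
    intro h _
    have hmem : Nat.gcd h q ∈ q.divisors :=
      Nat.mem_divisors.mpr ⟨Nat.gcd_dvd_right h q, by omega⟩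
    have h3 := Finset.single_le_sum (s := q.divisors)
      (f := fun δ => (if δ ∣ h then (δ : ℝ) * smh_a y h else 0)) (by
        intro δ _
        split_ifs
        · exact mul_nonneg (by positivity) (smh_a_nonneg y h)
        · exact le_rfl) hmem
    simp only [Nat.gcd_dvd_left h q, if_true] at h3
    linarith
  refine h2.trans ?_
  rw [Finset.sum_comm]
  have h4 : ∑ δ ∈ q.divisors, ∑ h ∈ Icc 1 M, (if δ ∣ h then (δ : ℝ) * smh_a y h else 0) ≤
      ∑ δ ∈ q.divisors, (2 + Real.log (1 + 1 / y)) := by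
    apply Finset.sum_le_sum
    intro δ hδ
    rw [← Finset.sum_filter]
    exact (smh_div hy (Nat.pos_of_mem_divisors hδ) M).trans (smh_sum hy M)
  refine h4.trans ?_
  rw [Finset.sum_const, nsmul_eq_mul]
  unfold tau
  have h5 : (0 : ℝ) ≤ (q.divisors.card : ℝ) := by positivity
  nlinarith [mul_nonneg h5 h0]

theorem smh_pr {y : ℝ} (hy : 0 < y) {q : ℕ} (hq : 1 ≤ q) :
    Summable (fun n : ℕ => 1 / ((n : ℝ) + 1) * Real.exp (-(((n : ℝ) + 1) * y) ^ 2) *
      (Nat.gcd (n + 1) q : ℕ)) ∧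
    ∑' n : ℕ, 1 / ((n : ℝ) + 1) * Real.exp (-(((n : ℝ) + 1) * y) ^ 2) *
      (Nat.gcd (n + 1) q : ℕ) ≤ 2 * tau q * (2 + Real.log (1 + 1 / y)) := by
  have h0 : ∀ n : ℕ, 0 ≤ 1 / ((n : ℝ) + 1) * Real.exp (-(((n : ℝ) + 1) * y) ^ 2) *
      (Nat.gcd (n + 1) q : ℕ) := by
    intro n
    positivity
  exact ⟨summable_of_sum_range_le h0 (smh_partial hy hq),
    Real.tsum_le_of_sum_range_le h0 (smh_partial hy hq)⟩

end Pool.Agent.LSPD

namespace Pool.Agent.LSPD

alias smh := smh_pr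

end Pool.Agent.LSPD
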