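import Pool.Agent.Lib_helper19.LSPD.Defs

/-! # LSP part D, block GCB -/

set_option autoImplicit false

namespace Pool.Agent.LSPD

/-- block GCB -/
theorem gcd_b_pr {p p' : ℕ} {r : ℤ} (h : PP p p' r) {t d' : ℕ} (ht : 1 ≤ t) (hd' : 1 ≤ d') {s₂ : ℤ}
    (hs : (d' : ℤ) ∣ p' * s₂ - r) (a : ℤ) :
    (Int.gcd (a * (p * s₂ - r)) ((p * Nat.lcm t d' : ℕ) : ℤ) : ℝ) ≤
      (Int.gcd a ((p * Nat.lcm t d' : ℕ) : ℤ) : ℝ) * t * (Nat.gcd (n0 p p' r) d' : ℕ) := by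
  have hp := h.pr
  set Y : ℕ := (p * s₂ - r).natAbs with hY
  have e1 : Int.gcd (a * (p * s₂ - r)) ((p * Nat.lcm t d' : ℕ) : ℤ) =
      Nat.gcd (a.natAbs * Y) (p * Nat.lcm t d') := by
    rw [Int.gcd, Int.natAbs_mul, Int.natAbs_natCast]
  have e2 : Int.gcd a ((p * Nat.lcm t d' : ℕ) : ℤ) = Nat.gcd a.natAbs (p * Nat.lcm t d') := by
    rw [Int.gcd, Int.natAbs_natCast]
  have hl : 0 < Nat.lcm t d' := Nat.lcm_pos (by omega) (by omega)
  have hq : 0 < p * Nat.lcm t d' := Nat.mul_pos hp.pos hl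
  have h1 : Nat.gcd (a.natAbs * Y) (p * Nat.lcm t d') ∣
      Nat.gcd a.natAbs (p * Nat.lcm t d') * Nat.gcd Y (p * Nat.lcm t d') := by
    have := Nat.gcd_mul_right_dvd_mul_gcd (p * Nat.lcm t d') a.natAbs Y
    rw [Nat.gcd_comm (a.natAbs * Y), Nat.gcd_comm a.natAbs, Nat.gcd_comm Y]
    exact this
  have hcop : Nat.gcd Y p = 1 := by
    have : Nat.Coprime p Y := by
      rw [hp.coprime_iff_not_dvd]
      intro hd
      apply h.dv
      have h2 : (p : ℤ) ∣ p * s₂ - r := by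
        rw [← Int.natCast_dvd_natCast] at hd
        exact (Int.dvd_natAbs).1 hd
      have h3 : r = p * s₂ - (p * s₂ - r) := by ring
      rw [h3]
      exact dvd_sub (dvd_mul_right _ _) h2
    exact this.symm
  have h2 : Nat.gcd Y (p * Nat.lcm t d') ∣ Nat.gcd Y (Nat.lcm t d') := by
    have := Nat.gcd_mul_right_dvd_mul_gcd Y p (Nat.lcm t d')
    rwa [hcop, one_mul] at this
  have h3 : Nat.gcd Y (Nat.lcm t d') ∣ Nat.gcd Y t * Nat.gcd Y d' :=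
    (Nat.gcd_dvd_gcd_of_dvd_right Y (Nat.lcm_dvd_mul t d')).trans
      (Nat.gcd_mul_right_dvd_mul_gcd Y t d')
  have h4 : Nat.gcd Y d' ∣ Nat.gcd (n0 p p' r) d' := by
    apply Nat.dvd_gcd _ (Nat.gcd_dvd_right _ _)
    rw [n0, ← Int.natCast_dvd_natCast, Int.dvd_natAbs]
    have k1 : ((Nat.gcd Y d' : ℕ) : ℤ) ∣ p * s₂ - r := by
      rw [← Int.dvd_natAbs, Int.natCast_dvd_natCast]
      exact Nat.gcd_dvd_left _ _
    have k2 : ((Nat.gcd Y d' : ℕ) : ℤ) ∣ p' * s₂ - r :=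
      (Int.natCast_dvd_natCast.2 (Nat.gcd_dvd_right _ _)).trans hs
    have k3 : r * ((p : ℤ) - p') = p' * (p * s₂ - r) - p * (p' * s₂ - r) := by ring
    rw [k3]
    exact dvd_sub (Dvd.dvd.mul_left k1 _) (Dvd.dvd.mul_left k2 _)
  have hgd : 0 < Nat.gcd (n0 p p' r) d' := Nat.gcd_pos_of_pos_right _ (by omega)
  have hga : 0 < Nat.gcd a.natAbs (p * Nat.lcm t d') := Nat.gcd_pos_of_pos_right _ hq
  have hgt : 0 < Nat.gcd Y t := Nat.gcd_pos_of_pos_right _ (by omega)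
  have hgY : 0 < Nat.gcd Y (Nat.lcm t d') := Nat.gcd_pos_of_pos_right _ hl
  have hgq : 0 < Nat.gcd Y (p * Nat.lcm t d') := Nat.gcd_pos_of_pos_right _ hq
  have hgY' : 0 < Nat.gcd Y d' := Nat.gcd_pos_of_pos_right _ (by omega)
  have main : Nat.gcd (a.natAbs * Y) (p * Nat.lcm t d') ≤
      Nat.gcd a.natAbs (p * Nat.lcm t d') * t * Nat.gcd (n0 p p' r) d' := by
    calc Nat.gcd (a.natAbs * Y) (p * Nat.lcm t d')
        ≤ Nat.gcd a.natAbs (p * Nat.lcm t d') * Nat.gcd Y (p * Nat.lcm t d') :=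
          Nat.le_of_dvd (Nat.mul_pos hga hgq) h1
      _ ≤ Nat.gcd a.natAbs (p * Nat.lcm t d') * (t * Nat.gcd (n0 p p' r) d') := by
          apply Nat.mul_le_mul_left
          calc Nat.gcd Y (p * Nat.lcm t d') ≤ Nat.gcd Y (Nat.lcm t d') := Nat.le_of_dvd hgY h2
            _ ≤ Nat.gcd Y t * Nat.gcd Y d' := Nat.le_of_dvd (Nat.mul_pos hgt hgY') h3
            _ ≤ t * Nat.gcd (n0 p p' r) d' :=
              Nat.mul_le_mul (Nat.gcd_le_right _ (by omega)) (Nat.le_of_dvd hgd h4)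
      _ = _ := by ring
  rw [e1, e2]
  exact_mod_cast main

end Pool.Agent.LSPD

namespace Pool.Agent.LSPD

alias gcd_b := gcd_b_pr

end Pool.Agent.LSPD
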