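import Pool.Agent.Lib_helper19.LSPD.Defs

set_option autoImplicit false

namespace Pool.Agent.LSPD

open Pool.Agent.FG61 (mu cc)
open Pool.Agent.Var35 (e)
open Finset

noncomputable section

theorem rht_iff (p p' : ℕ) (r : ℤ) (d d' : ℕ) :
    rh p p' r d d' = 1 ↔ (¬ p ∣ d ∧ ¬ p' ∣ d' ∧ Nat.gcd d d' ∣ n0 p p' r) := by
  unfold rh
  split_ifs with h
  · simp [h]
  · simp [h]

theorem rht_n0 {p p' : ℕ} {r : ℤ} (h : PP p p' r) : n0 p p' r ≠ 0 := by
  unfold n0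
  rw [Int.natAbs_ne_zero]
  refine mul_ne_zero ?_ ?_
  · rintro rfl
    exact h.dv (dvd_zero _)
  · intro h0
    apply h.ne
    have : (p : ℤ) = p' := by linarith
    exact_mod_cast this

theorem rh_t_pr {p p' : ℕ} {r : ℤ} (h : PP p p' r) {t k d' : ℕ} (ht : 1 ≤ t) (hk : 1 ≤ k)
    (hd' : 1 ≤ d') (h1 : t.primeFactors ⊆ d'.primeFactors) (h2 : Nat.Coprime k d') :
    (rh p p' r (t * k) d' = 1 ↔ rh p p' r t d' = 1 ∧ ¬ p ∣ k) ∧
    (rh p p' r (t * k) d' = 1 → t.primeFactors ⊆ (n0 p p' r).primeFactors) ∧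
    Nat.lcm (t * k) d' = k * Nat.lcm t d' ∧
    (Nat.Coprime k (p * Nat.lcm t d') ↔ ¬ p ∣ k) := by
  have hg : Nat.gcd (t * k) d' = Nat.gcd t d' := Nat.Coprime.gcd_mul_right_cancel t h2
  have hkt : Nat.Coprime k t := by
    rw [Nat.coprime_iff_gcd_eq_one]
    by_contra hne
    obtain ⟨q, hq, hqd⟩ := Nat.exists_prime_and_dvd hne
    have hqk : q ∣ k := hqd.trans (Nat.gcd_dvd_left _ _)
    have hqt : q ∣ t := hqd.trans (Nat.gcd_dvd_right _ _)
    have hq' : q ∈ d'.primeFactors := h1 (Nat.mem_primeFactors.2 ⟨hq, hqt, by omega⟩)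
    have hqd' : q ∣ d' := Nat.dvd_of_mem_primeFactors hq'
    have := Nat.dvd_gcd hqk hqd'
    rw [Nat.coprime_iff_gcd_eq_one.1 h2] at this
    exact hq.one_lt.ne' (Nat.dvd_one.1 this)
  refine ⟨?_, ?_, ?_, ?_⟩
  · rw [rht_iff, rht_iff, hg, h.pr.dvd_mul]
    tauto
  · intro hr q hq
    rw [rht_iff, hg] at hr
    have hqp := Nat.prime_of_mem_primeFactors hq
    have hqt := Nat.dvd_of_mem_primeFactors hq
    have hqd' := Nat.dvd_of_mem_primeFactors (h1 hq)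
    exact Nat.mem_primeFactors.2 ⟨hqp, (Nat.dvd_gcd hqt hqd').trans hr.2.2, rht_n0 h⟩
  · have hpos : 0 < Nat.gcd t d' := Nat.gcd_pos_of_pos_left _ (by omega)
    apply Nat.eq_of_mul_eq_mul_left hpos
    have e1 : Nat.gcd (t * k) d' * Nat.lcm (t * k) d' = t * k * d' := Nat.gcd_mul_lcm _ _
    have e2 : Nat.gcd t d' * Nat.lcm t d' = t * d' := Nat.gcd_mul_lcm _ _
    rw [hg] at e1
    rw [e1]
    calc t * k * d' = k * (t * d') := by ring
      _ = k * (Nat.gcd t d' * Nat.lcm t d') := by rw [e2]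
      _ = Nat.gcd t d' * (k * Nat.lcm t d') := by ring
  · have hkl : Nat.Coprime k (Nat.lcm t d') :=
      Nat.Coprime.coprime_dvd_right (Nat.lcm_dvd_mul t d') (Nat.Coprime.mul_right hkt h2)
    rw [Nat.coprime_mul_iff_right]
    constructor
    · rintro ⟨ha, -⟩ hp
      exact h.pr.coprime_iff_not_dvd.1 ha.symm hp
    · intro hp
      exact ⟨(h.pr.coprime_iff_not_dvd.2 hp).symm, hkl⟩

end

end Pool.Agent.LSPD

namespace Pool.Agent.LSPD

alias rh_t := rh_t_pr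

end Pool.Agent.LSPD
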