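import Pool.Agent.Lib_helper19.LSPD.Defs
import Pool.Agent.Lib_helper19.LSPD.ABL
import Pool.Agent.Lib_helper19.LSPD.CLS
import Pool.Agent.Lib_helper19.LSPD.EEF
import Pool.Agent.Lib_helper19.LSPD.GCB
import Pool.Agent.Lib_helper19.LSPD.IKB
import Pool.Agent.Lib_helper19.LSPD.PHA
import Pool.Agent.Lib_helper19.LSPD.RHT
import Pool.Agent.Lib_helper19.LSPD.SMH

set_option autoImplicit false

namespace Pool.Agent.LSPD

open Pool.Agent.FG61 (mu cc)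
open Pool.Agent.Var35 (e)
open Finset

noncomputable section

theorem tqq_zero {L : ℝ} {p p' : ℕ} {r : ℤ} (h : PP p p' r) {d d' : ℕ} (hd : 1 ≤ d)
    (hd' : 1 ≤ d') (h0 : rh p p' r d d' = 0) : EE L p p' r d d' = 0 := by
  have h1 := (cls h hd hd').2 h0
  unfold EE TT
  rw [h0, zero_mul, sub_zero]
  simp [h1]

theorem tqq_rh (p p' : ℕ) (r : ℤ) (d d' : ℕ) : rh p p' r d d' = 1 ∨ rh p p' r d d' = 0 := by
  unfold rh
  split_ifs <;> simp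

theorem tqq_four {L : ℝ} (hL : 0 < L) {p p' : ℕ} {r : ℤ} (h : PP p p' r) {t k d' : ℕ}
    (ht : 1 ≤ t) (hk : 1 ≤ k) (hd' : 1 ≤ d') (h1 : t.primeFactors ⊆ d'.primeFactors)
    (hc : Nat.Coprime k (p * Nat.lcm t d')) (hr : rh p p' r t d' = 1) {s₂ : ℤ}
    (hs : (t : ℤ) ∣ p * s₂ - r ∧ (d' : ℤ) ∣ p' * s₂ - r) [NeZero (p * Nat.lcm t d')] :
    ((EE L p p' r (t * k) d' : ℝ) : ℂ) = ∑' n : ℕ,
      (ph L (Nat.lcm t d') (p * Nat.lcm t d') r ((n : ℤ) + 1) k *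
        ZMod.stdAddChar (((((n : ℤ) + 1) * (p * s₂ - r) : ℤ) : ZMod (p * Nat.lcm t d')) *
          (k : ZMod (p * Nat.lcm t d'))⁻¹) +
       ph L (Nat.lcm t d') (p * Nat.lcm t d') r (-((n : ℤ) + 1)) k *
        ZMod.stdAddChar ((((-((n : ℤ) + 1)) * (p * s₂ - r) : ℤ) : ZMod (p * Nat.lcm t d')) *
          (k : ZMod (p * Nat.lcm t d'))⁻¹)) := by
  have h2 : Nat.Coprime k d' :=
    Nat.Coprime.coprime_dvd_right ((Nat.dvd_lcm_right t d').trans (Dvd.intro_left p rfl)) hc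
  obtain ⟨a1, _, a3, a4⟩ := rh_t h ht hk hd' h1 h2
  have hpk : ¬ p ∣ k := a4.1 hc
  have hr1 : rh p p' r (t * k) d' = 1 := a1.2 ⟨hr, hpk⟩
  have htk : 1 ≤ t * k := Nat.mul_pos ht hk
  obtain ⟨s, hs1⟩ := (cls h htk hd').1 hr1
  have hs2 := (hs1 s).2 (by simp)
  rw [ee_fourier hL h htk hd' hr1 hs2, a3]
  obtain ⟨s', hs'⟩ := (cls h ht hd').1 hr
  have hl1 : ((Nat.lcm t d' : ℕ) : ℤ) ∣ s₂ - s' := (hs' s₂).1 hs
  have hts : (t : ℤ) ∣ p * s - r := by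
    refine dvd_trans ?_ hs2.1
    push_cast; exact Dvd.intro _ rfl
  have hl2 : ((Nat.lcm t d' : ℕ) : ℤ) ∣ s - s' := (hs' s).1 ⟨hts, hs2.2⟩
  have hl3 : ((Nat.lcm t d' : ℕ) : ℤ) ∣ s - s₂ := by
    have := dvd_sub hl2 hl1
    have e1 : s - s' - (s₂ - s') = s - s₂ := by ring
    rwa [e1] at this
  have hks : (k : ℤ) ∣ p * s - r := by
    refine dvd_trans ?_ hs2.1
    push_cast; exact Dvd.intro_left _ rfl
  refine tsum_congr fun n => ?_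
  have b1 := pha (p := p) (l := Nat.lcm t d') hk hc hks hl3 ((n : ℤ) + 1)
  have b2 := pha (p := p) (l := Nat.lcm t d') hk hc hks hl3 (-((n : ℤ) + 1))
  unfold ph
  push_cast at b1 b2 ⊢
  have c2 : e (-(((n : ℝ) + 1) * s / (k * (Nat.lcm t d' : ℕ)))) =
      e (-((n : ℝ) + 1) * s / (k * (Nat.lcm t d' : ℕ))) := by congr 1; ring
  have c3 : ((L : ℂ) * -((n : ℂ) + 1) / (k * (Nat.lcm t d' : ℕ))) ^ 2 =
      ((L : ℂ) * ((n : ℂ) + 1) / (k * (Nat.lcm t d' : ℕ))) ^ 2 := by ring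
  rw [c2, c3, b1, b2]
  ring

theorem tqq_ph (L : ℝ) (l q : ℕ) (r h : ℤ) (k : ℕ) (hL : 0 < L) :
    ‖ph L l q r h k‖ = L / (k * l) * Real.exp (-Real.pi * (L * h / (k * l)) ^ 2) := by
  unfold ph
  rw [norm_mul, Pool.Agent.Var35.norm_e, mul_one, Complex.norm_real, Real.norm_eq_abs,
    abs_of_nonneg (by positivity)]

theorem tqq_summ (L : ℝ) (hL : 0 < L) {l q : ℕ} (hl : 1 ≤ l) (r : ℤ) {k : ℕ} (hk : 1 ≤ k)
    (z w : ℕ → ℂ) (hz : ∀ n, ‖z n‖ ≤ 1) (hw : ∀ n, ‖w n‖ ≤ 1) :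
    Summable (fun n : ℕ => ph L l q r ((n : ℤ) + 1) k * z n + ph L l q r (-((n : ℤ) + 1)) k * w n) := by
  have hkr : (1 : ℝ) ≤ k := by exact_mod_cast hk
  have hlr : (1 : ℝ) ≤ l := by exact_mod_cast hl
  set c : ℝ := Real.pi * (L / (k * l)) ^ 2 with hc
  have hc0 : 0 < c := by have := Real.pi_pos; positivity
  have hs : Summable (fun n : ℕ => 2 * (L / (k * l)) * Real.exp (-c) ^ n) :=
    (summable_geometric_of_lt_one (Real.exp_pos _).le (by rw [Real.exp_lt_one_iff]; linarith)).mul_left _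
  refine Summable.of_norm_bounded hs fun n => ?_
  have h1 : ∀ x : ℝ, (x = (n : ℝ) + 1 ∨ x = -((n : ℝ) + 1)) →
      L / (k * l) * Real.exp (-Real.pi * (L * x / (k * l)) ^ 2) ≤ L / (k * l) * Real.exp (-c) ^ n := by
    intro x hx
    have hx2 : x ^ 2 = ((n : ℝ) + 1) ^ 2 := by rcases hx with rfl | rfl <;> ring
    have e1 : -Real.pi * (L * x / (k * l)) ^ 2 = -(c * ((n : ℝ) + 1) ^ 2) := by
      rw [← hx2, hc]; ring
    rw [e1, ← Real.exp_nat_mul]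
    gcongr
    have hn : (0 : ℝ) ≤ n := Nat.cast_nonneg n
    nlinarith [mul_nonneg hc0.le hn, mul_nonneg hc0.le (mul_nonneg hn hn)]
  calc ‖ph L l q r ((n : ℤ) + 1) k * z n + ph L l q r (-((n : ℤ) + 1)) k * w n‖ ≤
      ‖ph L l q r ((n : ℤ) + 1) k‖ * ‖z n‖ + ‖ph L l q r (-((n : ℤ) + 1)) k‖ * ‖w n‖ := by
        rw [← norm_mul, ← norm_mul]; exact norm_add_le _ _
    _ ≤ ‖ph L l q r ((n : ℤ) + 1) k‖ * 1 + ‖ph L l q r (-((n : ℤ) + 1)) k‖ * 1 := by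
        gcongr
        · exact hz n
        · exact hw n
    _ ≤ L / (k * l) * Real.exp (-c) ^ n + L / (k * l) * Real.exp (-c) ^ n := by
        rw [mul_one, mul_one, tqq_ph _ _ _ _ _ _ hL, tqq_ph _ _ _ _ _ _ hL]
        refine add_le_add ?_ ?_
        · have := h1 (((((n : ℤ) + 1) : ℤ)) : ℝ) (Or.inl (by push_cast; rfl))
          exact this
        · have := h1 (((-((n : ℤ) + 1) : ℤ)) : ℝ) (Or.inr (by push_cast; rfl))
          exact this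
    _ = _ := by ring

/-- the phases -/
def tqq_z (q : ℕ) [NeZero q] (A h : ℤ) (k : ℕ) : ℂ :=
  if Nat.Coprime k q then ZMod.stdAddChar (((h * A : ℤ) : ZMod q) * (k : ZMod q)⁻¹) else 0

theorem tqq_z_norm (q : ℕ) [NeZero q] (A h : ℤ) (k : ℕ) : ‖tqq_z q A h k‖ ≤ 1 := by
  unfold tqq_z
  split_ifs
  · rw [AddChar.norm_apply]
  · simp

theorem tqq_z_sum (q : ℕ) [NeZero q] (A h : ℤ) (K : ℕ) :
    ∑ k ∈ Icc 1 K, tqq_z q A h k = IK q ((h * A : ℤ) : ZMod q) K := by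
  unfold tqq_z IK
  rw [Finset.sum_filter]

theorem tqq_expand {L : ℝ} (hL : 0 < L) {p p' : ℕ} {r : ℤ} (h : PP p p' r) {D t d' : ℕ}
    (ht : 1 ≤ t) (hd' : 1 ≤ d') (h1 : t.primeFactors ⊆ d'.primeFactors)
    (hr : rh p p' r t d' = 1) {s₂ : ℤ}
    (hs : (t : ℤ) ∣ p * s₂ - r ∧ (d' : ℤ) ∣ p' * s₂ - r) [NeZero (p * Nat.lcm t d')] :
    ((∑ k ∈ (Icc 1 (D / t)).filter (fun k => Nat.Coprime k d'), EE L p p' r (t * k) d' : ℝ) : ℂ) =
      ∑' n : ℕ, (∑ k ∈ Icc 1 (D / t), ph L (Nat.lcm t d') (p * Nat.lcm t d') r ((n : ℤ) + 1) k *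
          tqq_z (p * Nat.lcm t d') (p * s₂ - r) ((n : ℤ) + 1) k +
        ∑ k ∈ Icc 1 (D / t), ph L (Nat.lcm t d') (p * Nat.lcm t d') r (-((n : ℤ) + 1)) k *
          tqq_z (p * Nat.lcm t d') (p * s₂ - r) (-((n : ℤ) + 1)) k) := by
  have hl : 1 ≤ Nat.lcm t d' := Nat.lcm_pos ht hd'
  have h2 : ∀ n : ℕ, (∑ k ∈ Icc 1 (D / t), ph L (Nat.lcm t d') (p * Nat.lcm t d') r ((n : ℤ) + 1) k *
          tqq_z (p * Nat.lcm t d') (p * s₂ - r) ((n : ℤ) + 1) k +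
        ∑ k ∈ Icc 1 (D / t), ph L (Nat.lcm t d') (p * Nat.lcm t d') r (-((n : ℤ) + 1)) k *
          tqq_z (p * Nat.lcm t d') (p * s₂ - r) (-((n : ℤ) + 1)) k) =
      ∑ k ∈ Icc 1 (D / t), (ph L (Nat.lcm t d') (p * Nat.lcm t d') r ((n : ℤ) + 1) k *
          tqq_z (p * Nat.lcm t d') (p * s₂ - r) ((n : ℤ) + 1) k +
        ph L (Nat.lcm t d') (p * Nat.lcm t d') r (-((n : ℤ) + 1)) k *
          tqq_z (p * Nat.lcm t d') (p * s₂ - r) (-((n : ℤ) + 1)) k) := by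
    intro n
    rw [Finset.sum_add_distrib]
  rw [tsum_congr h2, Summable.tsum_finsetSum, Finset.sum_filter]
  · push_cast
    refine Finset.sum_congr rfl fun k hk => ?_
    have hk1 : 1 ≤ k := (Finset.mem_Icc.1 hk).1
    by_cases hc : Nat.Coprime k (p * Nat.lcm t d')
    · have h3 : Nat.Coprime k d' :=
        Nat.Coprime.coprime_dvd_right ((Nat.dvd_lcm_right t d').trans (Dvd.intro_left p rfl)) hc
      rw [if_pos h3, tqq_four hL h ht hk1 hd' h1 hc hr hs]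
      refine tsum_congr fun n => ?_
      unfold tqq_z
      rw [if_pos hc, if_pos hc]
    · have h4 : ∀ n : ℕ, (ph L (Nat.lcm t d') (p * Nat.lcm t d') r ((n : ℤ) + 1) k *
          tqq_z (p * Nat.lcm t d') (p * s₂ - r) ((n : ℤ) + 1) k +
        ph L (Nat.lcm t d') (p * Nat.lcm t d') r (-((n : ℤ) + 1)) k *
          tqq_z (p * Nat.lcm t d') (p * s₂ - r) (-((n : ℤ) + 1)) k) = 0 := by
        intro n
        unfold tqq_z
        rw [if_neg hc, if_neg hc, mul_zero, mul_zero, add_zero]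
      rw [tsum_congr h4, tsum_zero]
      split_ifs with h5
      · obtain ⟨a1, _, _, a4⟩ := rh_t h ht hk1 hd' h1 h5
        have h6 : rh p p' r (t * k) d' ≠ 1 := by
          intro h7
          exact hc (a4.2 (a1.1 h7).2)
        have h8 : rh p p' r (t * k) d' = 0 := (tqq_rh p p' r (t * k) d').resolve_left h6
        rw [tqq_zero h (Nat.mul_pos ht hk1) hd' h8]
        simp
      · rfl
  · intro k hk
    have hk1 : 1 ≤ k := (Finset.mem_Icc.1 hk).1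
    exact tqq_summ L hL hl r hk1 (fun n => tqq_z (p * Nat.lcm t d') (p * s₂ - r) ((n : ℤ) + 1) k)
      (fun n => tqq_z (p * Nat.lcm t d') (p * s₂ - r) (-((n : ℤ) + 1)) k)
      (fun n => tqq_z_norm _ _ _ _) (fun n => tqq_z_norm _ _ _ _)

theorem tqq_one {L : ℝ} (hL : 0 < L) {p p' : ℕ} {r : ℤ} (h : PP p p' r) {K₀ t d' : ℕ}
    (hK : 1 ≤ K₀) (ht : 1 ≤ t) (hd' : 1 ≤ d') {s₂ : ℤ}
    (hs : (t : ℤ) ∣ p * s₂ - r ∧ (d' : ℤ) ∣ p' * s₂ - r) [NeZero (p * Nat.lcm t d')]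
    (n : ℕ) (a : ℤ) (ha : a = (n : ℤ) + 1 ∨ a = -((n : ℤ) + 1)) :
    ‖∑ k ∈ Icc 1 K₀, ph L (Nat.lcm t d') (p * Nat.lcm t d') r a k *
          tqq_z (p * Nat.lcm t d') (p * s₂ - r) a k‖ ≤
      ((K₀ : ℝ) / ((p * Nat.lcm t d' : ℕ) : ℝ) * t * (Nat.gcd (n0 p p' r) d' : ℕ) +
        2 * (((p * Nat.lcm t d' : ℕ) : ℝ)) ^ (3 / 4 : ℝ) * tau (p * Nat.lcm t d') ^ 2 *
          (1 + Real.log ((p * Nat.lcm t d' : ℕ) : ℝ))) * (10 * (1 + |(r : ℝ)| / (p * L)) *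
      (1 + Real.log K₀)) * (1 / ((n : ℝ) + 1) *
        Real.exp (-(((n : ℝ) + 1) * (L / (K₀ * (Nat.lcm t d' : ℕ)))) ^ 2) *
        (Nat.gcd (n + 1) (p * Nat.lcm t d') : ℕ)) := by
  have hp : 1 ≤ p := h.pr.one_lt.le
  have hl : 1 ≤ Nat.lcm t d' := Nat.lcm_pos ht hd'
  have hq : 1 ≤ p * Nat.lcm t d' := Nat.mul_pos hp hl
  have hqr : (1 : ℝ) ≤ ((p * Nat.lcm t d' : ℕ) : ℝ) := by exact_mod_cast hq
  have hK1 : (1 : ℝ) ≤ K₀ := by exact_mod_cast hK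
  have ha0 : a ≠ 0 := by rcases ha with rfl | rfl <;> omega
  have haabs : |(a : ℝ)| = (n : ℝ) + 1 := by
    have hn : (0 : ℝ) ≤ n := Nat.cast_nonneg n
    rcases ha with rfl | rfl
    · push_cast; rw [abs_of_pos (by linarith)]
    · push_cast; rw [abs_neg, abs_of_pos (by linarith)]
  have hasq : (a : ℝ) ^ 2 = ((n : ℝ) + 1) ^ 2 := by rw [← sq_abs, haabs]
  have hgcd : Int.gcd a ((p * Nat.lcm t d' : ℕ) : ℤ) = Nat.gcd (n + 1) (p * Nat.lcm t d') := by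
    rcases ha with rfl | rfl
    · have : ((n : ℤ) + 1) = ((n + 1 : ℕ) : ℤ) := by push_cast; rfl
      rw [this, Int.gcd_natCast_natCast]
    · rw [Int.neg_gcd]
      have : ((n : ℤ) + 1) = ((n + 1 : ℕ) : ℤ) := by push_cast; rfl
      rw [this, Int.gcd_natCast_natCast]
  set E : ℝ := 2 * (((p * Nat.lcm t d' : ℕ) : ℝ)) ^ (3 / 4 : ℝ) * tau (p * Nat.lcm t d') ^ 2 *
          (1 + Real.log ((p * Nat.lcm t d' : ℕ) : ℝ)) with hE
  have hlog : 0 ≤ Real.log ((p * Nat.lcm t d' : ℕ) : ℝ) := Real.log_nonneg hqr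
  have hE0 : 0 ≤ E := by rw [hE]; positivity
  set G : ℝ := ((Nat.gcd (n + 1) (p * Nat.lcm t d') : ℕ) : ℝ) with hG
  have hG1 : 1 ≤ G := by
    rw [hG]
    exact_mod_cast Nat.gcd_pos_of_pos_left _ (Nat.succ_pos n)
  have hWle : ∀ K ≤ K₀, ‖∑ k ∈ Icc 1 K, tqq_z (p * Nat.lcm t d') (p * s₂ - r) a k‖ ≤
      ((K₀ : ℝ) / ((p * Nat.lcm t d' : ℕ) : ℝ) * t * (Nat.gcd (n0 p p' r) d' : ℕ) + E) * G := by
    intro K hKK
    rw [tqq_z_sum]
    refine (ik_bound (p * Nat.lcm t d') (a * (p * s₂ - r)) K).trans ?_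
    have hg := gcd_b h ht hd' hs.2 a
    rw [hgcd] at hg
    have hKr : (K : ℝ) ≤ K₀ := by exact_mod_cast hKK
    rw [← hE, add_mul]
    refine add_le_add ?_ ?_
    · calc (K : ℝ) / ((p * Nat.lcm t d' : ℕ) : ℝ) * (Int.gcd (a * (p * s₂ - r)) ((p * Nat.lcm t d' : ℕ) : ℤ) : ℕ) ≤
          (K₀ : ℝ) / ((p * Nat.lcm t d' : ℕ) : ℝ) * (G * t * (Nat.gcd (n0 p p' r) d' : ℕ)) := by
            gcongr
        _ = _ := by ring
    · exact le_mul_of_one_le_right hE0 hG1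
  have hab := abl hL hp hl (r := r) ha0 hK hWle
  refine hab.trans (le_of_eq ?_)
  rw [haabs]
  have hexp : (L * (a : ℝ) / (K₀ * (Nat.lcm t d' : ℕ))) ^ 2 =
      (((n : ℝ) + 1) * (L / (K₀ * (Nat.lcm t d' : ℕ)))) ^ 2 := by
    rw [mul_pow, ← hasq]; ring
  rw [hexp]
  ring

theorem tqq_main {L : ℝ} (hL : 0 < L) {p p' : ℕ} {r : ℤ} (h : PP p p' r) {D t d' : ℕ}
    (ht : 1 ≤ t) (htD : t ≤ D) (hd' : 1 ≤ d') (h1 : t.primeFactors ⊆ d'.primeFactors)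
    (hr : rh p p' r t d' = 1) :
    |∑ k ∈ (Icc 1 (D / t)).filter (fun k => Nat.Coprime k d'), EE L p p' r (t * k) d'| ≤
      2 * ((((D / t : ℕ) : ℝ) / ((p * Nat.lcm t d' : ℕ) : ℝ) * t * (Nat.gcd (n0 p p' r) d' : ℕ) +
        2 * (((p * Nat.lcm t d' : ℕ) : ℝ)) ^ (3 / 4 : ℝ) * tau (p * Nat.lcm t d') ^ 2 *
          (1 + Real.log ((p * Nat.lcm t d' : ℕ) : ℝ))) * (10 * (1 + |(r : ℝ)| / (p * L)) *
      (1 + Real.log ((D / t : ℕ) : ℝ))) * (2 * tau (p * Nat.lcm t d') *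
        (2 + Real.log (1 + 1 / (L / (((D / t : ℕ) : ℝ) * (Nat.lcm t d' : ℕ))))))) := by
  have hp : 1 ≤ p := h.pr.one_lt.le
  have hl : 1 ≤ Nat.lcm t d' := Nat.lcm_pos ht hd'
  have hlr : (1 : ℝ) ≤ ((Nat.lcm t d' : ℕ) : ℝ) := by exact_mod_cast hl
  have hq : 1 ≤ p * Nat.lcm t d' := Nat.mul_pos hp hl
  have hqr : (1 : ℝ) ≤ ((p * Nat.lcm t d' : ℕ) : ℝ) := by exact_mod_cast hq
  have : NeZero (p * Nat.lcm t d') := ⟨by omega⟩
  have hK : 1 ≤ D / t := (Nat.one_le_div_iff ht).2 htD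
  have hK1 : (1 : ℝ) ≤ ((D / t : ℕ) : ℝ) := by exact_mod_cast hK
  obtain ⟨s₂, hs2⟩ := (cls h ht hd').1 hr
  have hs := (hs2 s₂).2 (by simp)
  set B : ℝ := (((D / t : ℕ) : ℝ) / ((p * Nat.lcm t d' : ℕ) : ℝ) * t * (Nat.gcd (n0 p p' r) d' : ℕ) +
        2 * (((p * Nat.lcm t d' : ℕ) : ℝ)) ^ (3 / 4 : ℝ) * tau (p * Nat.lcm t d') ^ 2 *
          (1 + Real.log ((p * Nat.lcm t d' : ℕ) : ℝ))) * (10 * (1 + |(r : ℝ)| / (p * L)) *
      (1 + Real.log ((D / t : ℕ) : ℝ))) with hB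
  have hB0 : 0 ≤ B := by
    have l1 : 0 ≤ Real.log ((p * Nat.lcm t d' : ℕ) : ℝ) := Real.log_nonneg hqr
    have l2 : 0 ≤ Real.log ((D / t : ℕ) : ℝ) := Real.log_nonneg hK1
    rw [hB]; positivity
  set y : ℝ := L / (((D / t : ℕ) : ℝ) * ((Nat.lcm t d' : ℕ) : ℝ)) with hy
  have hy0 : 0 < y := by rw [hy]; positivity
  obtain ⟨hsum, hle⟩ := smh hy0 hq
  have hsum2 := hsum.hasSum.mul_left (2 * B)
  have hb : ∀ n : ℕ, ‖(∑ k ∈ Icc 1 (D / t), ph L (Nat.lcm t d') (p * Nat.lcm t d') r ((n : ℤ) + 1) k *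
          tqq_z (p * Nat.lcm t d') (p * s₂ - r) ((n : ℤ) + 1) k +
        ∑ k ∈ Icc 1 (D / t), ph L (Nat.lcm t d') (p * Nat.lcm t d') r (-((n : ℤ) + 1)) k *
          tqq_z (p * Nat.lcm t d') (p * s₂ - r) (-((n : ℤ) + 1)) k)‖ ≤
      2 * B * (1 / ((n : ℝ) + 1) * Real.exp (-(((n : ℝ) + 1) * y) ^ 2) *
        (Nat.gcd (n + 1) (p * Nat.lcm t d') : ℕ)) := by
    intro n
    refine (norm_add_le _ _).trans ?_
    have b1 := tqq_one hL h hK ht hd' hs n ((n : ℤ) + 1) (Or.inl rfl)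
    have b2 := tqq_one hL h hK ht hd' hs n (-((n : ℤ) + 1)) (Or.inr rfl)
    rw [← hB, ← hy] at b1 b2
    linarith
  have hfin := tsum_of_norm_bounded hsum2 hb
  have hex := tqq_expand (D := D) hL h ht hd' h1 hr hs
  rw [← Real.norm_eq_abs, ← Complex.norm_real, hex]
  refine hfin.trans ?_
  calc 2 * B * ∑' n : ℕ, (1 / ((n : ℝ) + 1) * Real.exp (-(((n : ℝ) + 1) * y) ^ 2) *
        (Nat.gcd (n + 1) (p * Nat.lcm t d') : ℕ)) ≤
      2 * B * (2 * tau (p * Nat.lcm t d') * (2 + Real.log (1 + 1 / y))) := by gcongr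
    _ = _ := by ring

theorem tqq_log {δ Y x : ℝ} (hδ : 0 < δ) (hY : 1 ≤ Y) (hx : x ≤ 3 + 2 * Real.log Y) :
    x ≤ (3 + 2 / δ) * Y ^ δ := by
  have h1 := Real.log_le_rpow_div (by linarith : (0 : ℝ) ≤ Y) hδ
  have h2 : 1 ≤ Y ^ δ := Real.one_le_rpow hY hδ.le
  calc x ≤ 3 + 2 * Real.log Y := hx
    _ ≤ 3 * Y ^ δ + 2 * (Y ^ δ / δ) := by linarith
    _ = _ := by ring

theorem tqq_pr {ε : ℝ} (hε : 0 < ε) : ∃ C : ℝ, 1 ≤ C ∧ ∀ {L : ℝ}, 1 ≤ L → ∀ {p p' : ℕ} {r : ℤ},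
    PP p p' r → ∀ {D t d' : ℕ}, 1 ≤ t → t ≤ D → 1 ≤ d' → d' ≤ D →
    t.primeFactors ⊆ d'.primeFactors →
    |∑ k ∈ (Icc 1 (D / t)).filter (fun k => Nat.Coprime k d'), EE L p p' r (t * k) d'| ≤
      C * Yy L p p' D r ^ ε * (1 + |(r : ℝ)| / (p * L)) *
        ((D : ℝ) * (Nat.gcd (n0 p p' r) d' : ℕ) / (p * d') +
          ((p : ℝ) * t * d') ^ (3 / 4 : ℝ)) := by
  set δ : ℝ := ε / 9 with hδd
  have hδ : 0 < δ := by positivity
  obtain ⟨C₀, hC₀, hdiv⟩ := Pool.Agent.FG61.divisor_bound hδ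
  set F : ℝ := 3 + 2 / δ with hF
  have hF1 : 1 ≤ F := by
    have : 0 < 2 / δ := by positivity
    linarith
  refine ⟨max 1 (80 * F ^ 3 * C₀ ^ 3), le_max_left _ _, ?_⟩
  intro L hL1 p p' r h D t d' ht htD hd' hd'D h1
  have hL : 0 < L := by linarith
  have hp : 1 ≤ p := h.pr.one_lt.le
  have hp2 : 2 ≤ p := h.pr.two_le
  have hp'2 : 2 ≤ p' := h.pr'.two_le
  have hr0 : r ≠ 0 := by rintro rfl; exact h.dv (dvd_zero _)
  have hr1 : (1 : ℝ) ≤ |(r : ℝ)| := by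
    have : (1 : ℤ) ≤ |r| := Int.one_le_abs hr0
    exact_mod_cast this
  have hD1 : 1 ≤ D := ht.trans htD
  have hDr : (1 : ℝ) ≤ D := by exact_mod_cast hD1
  have hpr : (1 : ℝ) ≤ p := by exact_mod_cast hp
  have hpr2 : (2 : ℝ) ≤ p := by exact_mod_cast hp2
  have hpr' : (1 : ℝ) ≤ p' := by exact_mod_cast hp'2.trans' (by norm_num)
  have htr : (1 : ℝ) ≤ t := by exact_mod_cast ht
  have hdr : (1 : ℝ) ≤ d' := by exact_mod_cast hd'
  set Y : ℝ := Yy L p p' D r with hYd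
  have hYpD : (p : ℝ) * D ≤ Y := by
    rw [hYd]; unfold Yy
    calc (p : ℝ) * D = p * 1 * D * 1 * 1 := by ring
      _ ≤ p * p' * D * |(r : ℝ)| * (1 + L) := by gcongr; linarith
  have hY1 : 1 ≤ Y := by nlinarith
  have hY2 : 2 ≤ Y := by nlinarith
  have hρ : 0 ≤ |(r : ℝ)| / (p * L) := by positivity
  have hR0 : 0 ≤ (D : ℝ) * (Nat.gcd (n0 p p' r) d' : ℕ) / (p * d') +
          ((p : ℝ) * t * d') ^ (3 / 4 : ℝ) := by positivity
  have hYε : 0 ≤ Y ^ ε := by positivity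
  rcases tqq_rh p p' r t d' with hr | hr
  · refine (tqq_main hL h ht htD hd' h1 hr).trans ?_
    have hl : 1 ≤ Nat.lcm t d' := Nat.lcm_pos ht hd'
    have hlr : (1 : ℝ) ≤ ((Nat.lcm t d' : ℕ) : ℝ) := by exact_mod_cast hl
    have hq : 1 ≤ p * Nat.lcm t d' := Nat.mul_pos hp hl
    have hqr : (1 : ℝ) ≤ ((p * Nat.lcm t d' : ℕ) : ℝ) := by exact_mod_cast hq
    have hK : 1 ≤ D / t := (Nat.one_le_div_iff ht).2 htD
    have hK1 : (1 : ℝ) ≤ ((D / t : ℕ) : ℝ) := by exact_mod_cast hK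
    have hltd : ((Nat.lcm t d' : ℕ) : ℝ) ≤ t * d' := by
      have : Nat.lcm t d' ≤ t * d' := Nat.le_of_dvd (Nat.mul_pos ht hd') (Nat.lcm_dvd_mul t d')
      exact_mod_cast this
    have hdl : (d' : ℝ) ≤ ((Nat.lcm t d' : ℕ) : ℝ) := by
      have : d' ≤ Nat.lcm t d' := Nat.le_of_dvd hl (Nat.dvd_lcm_right t d')
      exact_mod_cast this
    have hKt : ((D / t : ℕ) : ℝ) * t ≤ D := by
      have : D / t * t ≤ D := Nat.div_mul_le_self D t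
      exact_mod_cast this
    have hd'Dr : (d' : ℝ) ≤ D := by exact_mod_cast hd'D
    have htDr : (t : ℝ) ≤ D := by exact_mod_cast htD
    have hqY : ((p * Nat.lcm t d' : ℕ) : ℝ) ≤ Y ^ 2 := by
      push_cast
      calc (p : ℝ) * ((Nat.lcm t d' : ℕ) : ℝ) ≤ p * (t * d') := by gcongr
        _ ≤ p * (D * D) := by gcongr
        _ ≤ (p * D) * (p * D) := by nlinarith
        _ ≤ Y * Y := by gcongr
        _ = Y ^ 2 := by ring
    have hKY : ((D / t : ℕ) : ℝ) ≤ Y := by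
      calc ((D / t : ℕ) : ℝ) ≤ ((D / t : ℕ) : ℝ) * t := le_mul_of_one_le_right (by positivity) htr
        _ ≤ D := hKt
        _ ≤ Y := by nlinarith
    have hYy : 1 / (L / (((D / t : ℕ) : ℝ) * (Nat.lcm t d' : ℕ))) ≤ Y ^ 2 := by
      rw [one_div, inv_div]
      calc ((D / t : ℕ) : ℝ) * ((Nat.lcm t d' : ℕ) : ℝ) / L ≤ ((D / t : ℕ) : ℝ) * ((Nat.lcm t d' : ℕ) : ℝ) / 1 := by
            gcongr
        _ ≤ ((D / t : ℕ) : ℝ) * (t * d') := by rw [div_one]; gcongr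
        _ = (((D / t : ℕ) : ℝ) * t) * d' := by ring
        _ ≤ D * D := by gcongr
        _ ≤ Y * Y := by
            have : (D : ℝ) ≤ Y := by nlinarith
            gcongr
        _ = Y ^ 2 := by ring
    have hlogY : 0 ≤ Real.log Y := Real.log_nonneg hY1
    have l1 : 1 + Real.log ((D / t : ℕ) : ℝ) ≤ F * Y ^ δ := by
      apply tqq_log hδ hY1
      have := Real.log_le_log (by linarith) hKY
      linarith
    have l2 : 1 + Real.log ((p * Nat.lcm t d' : ℕ) : ℝ) ≤ F * Y ^ δ := by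
      apply tqq_log hδ hY1
      have h2 := Real.log_le_log (by linarith) hqY
      rw [Real.log_pow] at h2
      push_cast at h2 ⊢
      linarith
    have l3 : 2 + Real.log (1 + 1 / (L / (((D / t : ℕ) : ℝ) * (Nat.lcm t d' : ℕ)))) ≤ F * Y ^ δ := by
      apply tqq_log hδ hY1
      have h0 : 0 < 1 / (L / (((D / t : ℕ) : ℝ) * (Nat.lcm t d' : ℕ))) := by positivity
      have h2 : Real.log (1 + 1 / (L / (((D / t : ℕ) : ℝ) * (Nat.lcm t d' : ℕ)))) ≤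
          Real.log (2 * Y ^ 2) := by
        apply Real.log_le_log (by linarith)
        have : 1 ≤ Y ^ 2 := one_le_pow₀ hY1
        linarith
      rw [Real.log_mul (by norm_num) (by positivity), Real.log_pow] at h2
      have h3 : Real.log 2 ≤ 1 := by
        have := Real.log_two_lt_d9; linarith
      push_cast at h2
      linarith
    have l4 : tau (p * Nat.lcm t d') ≤ C₀ * Y ^ (2 * δ) := by
      unfold tau
      refine (hdiv _ hq).trans ?_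
      rw [mul_comm 2 δ, mul_comm δ 2, Real.rpow_mul (by linarith)]
      gcongr
      have : Y ^ (2 : ℝ) = Y ^ 2 := by norm_cast
      rw [this]
      exact hqY
    have hτ1 : 1 ≤ tau (p * Nat.lcm t d') := by
      unfold tau
      have : 1 ≤ (p * Nat.lcm t d').divisors.card :=
        Finset.card_pos.2 ⟨1, Nat.one_mem_divisors.2 (by omega)⟩
      exact_mod_cast this
    have hlq : 0 ≤ Real.log ((p * Nat.lcm t d' : ℕ) : ℝ) := Real.log_nonneg hqr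
    have hlK : 0 ≤ Real.log ((D / t : ℕ) : ℝ) := Real.log_nonneg hK1
    set T : ℝ := tau (p * Nat.lcm t d') with hT
    set A₁ : ℝ := (D : ℝ) * (Nat.gcd (n0 p p' r) d' : ℕ) / (p * d') with hA₁
    set A₂ : ℝ := ((p : ℝ) * t * d') ^ (3 / 4 : ℝ) with hA₂
    have hA₁0 : 0 ≤ A₁ := by positivity
    have hA₂0 : 0 ≤ A₂ := by positivity
    have m1 : ((D / t : ℕ) : ℝ) / ((p * Nat.lcm t d' : ℕ) : ℝ) * t * (Nat.gcd (n0 p p' r) d' : ℕ) ≤ A₁ := by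
      rw [hA₁]
      push_cast
      calc ((D / t : ℕ) : ℝ) / ((p : ℝ) * ((Nat.lcm t d' : ℕ) : ℝ)) * t * (Nat.gcd (n0 p p' r) d' : ℕ) =
          (((D / t : ℕ) : ℝ) * t) * (Nat.gcd (n0 p p' r) d' : ℕ) / ((p : ℝ) * ((Nat.lcm t d' : ℕ) : ℝ)) := by ring
        _ ≤ (D : ℝ) * (Nat.gcd (n0 p p' r) d' : ℕ) / (p * d') := by gcongr
    have m2 : (((p * Nat.lcm t d' : ℕ) : ℝ)) ^ (3 / 4 : ℝ) ≤ A₂ := by
      rw [hA₂]
      push_cast
      apply Real.rpow_le_rpow (by positivity) _ (by norm_num)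
      calc (p : ℝ) * ((Nat.lcm t d' : ℕ) : ℝ) ≤ p * (t * d') := by gcongr
        _ = _ := by ring
    have m3 : (((D / t : ℕ) : ℝ) / ((p * Nat.lcm t d' : ℕ) : ℝ) * t * (Nat.gcd (n0 p p' r) d' : ℕ) +
        2 * (((p * Nat.lcm t d' : ℕ) : ℝ)) ^ (3 / 4 : ℝ) * T ^ 2 *
          (1 + Real.log ((p * Nat.lcm t d' : ℕ) : ℝ))) ≤
        2 * T ^ 2 * (F * Y ^ δ) * (A₁ + A₂) := by
      have hT2 : 1 ≤ T ^ 2 := one_le_pow₀ hτ1
      have hFY : 1 ≤ F * Y ^ δ := by linarith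
      have n1 : A₁ ≤ 2 * T ^ 2 * (F * Y ^ δ) * A₁ := by
        apply le_mul_of_one_le_left hA₁0
        nlinarith
      have n2 : 2 * (((p * Nat.lcm t d' : ℕ) : ℝ)) ^ (3 / 4 : ℝ) * T ^ 2 *
          (1 + Real.log ((p * Nat.lcm t d' : ℕ) : ℝ)) ≤ 2 * A₂ * T ^ 2 * (F * Y ^ δ) := by
        gcongr
      calc _ ≤ 2 * T ^ 2 * (F * Y ^ δ) * A₁ + 2 * A₂ * T ^ 2 * (F * Y ^ δ) :=
            add_le_add (m1.trans n1) n2
        _ = _ := by ring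
    have hT0 : 0 ≤ T := by linarith
    have hFY0 : 0 ≤ F * Y ^ δ := by positivity
    have hlog3 : 0 ≤ 2 + Real.log (1 + 1 / (L / (((D / t : ℕ) : ℝ) * (Nat.lcm t d' : ℕ)))) := by
      have h0 : 0 < 1 / (L / (((D / t : ℕ) : ℝ) * (Nat.lcm t d' : ℕ))) := by positivity
      have := Real.log_nonneg (by linarith : 1 ≤ 1 + 1 / (L / (((D / t : ℕ) : ℝ) * (Nat.lcm t d' : ℕ))))
      linarith
    have hYpow : (Y ^ δ) ^ 3 * (Y ^ (2 * δ)) ^ 3 = Y ^ ε := by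
      have hY0 : 0 < Y := by linarith
      rw [← Real.rpow_natCast, ← Real.rpow_natCast, ← Real.rpow_mul hY0.le, ← Real.rpow_mul hY0.le,
        ← Real.rpow_add hY0]
      congr 1
      rw [hδd]; push_cast; ring
    calc _ ≤ 2 * ((2 * T ^ 2 * (F * Y ^ δ) * (A₁ + A₂)) * (10 * (1 + |(r : ℝ)| / (p * L)) *
          (F * Y ^ δ)) * (2 * T * (F * Y ^ δ))) := by gcongr
      _ = 80 * (F ^ 3 * (Y ^ δ) ^ 3) * T ^ 3 * (1 + |(r : ℝ)| / (p * L)) * (A₁ + A₂) := by ring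
      _ ≤ 80 * (F ^ 3 * (Y ^ δ) ^ 3) * (C₀ * Y ^ (2 * δ)) ^ 3 * (1 + |(r : ℝ)| / (p * L)) * (A₁ + A₂) := by
          gcongr
      _ = (80 * F ^ 3 * C₀ ^ 3) * ((Y ^ δ) ^ 3 * (Y ^ (2 * δ)) ^ 3) * (1 + |(r : ℝ)| / (p * L)) * (A₁ + A₂) := by ring
      _ = (80 * F ^ 3 * C₀ ^ 3) * Y ^ ε * (1 + |(r : ℝ)| / (p * L)) * (A₁ + A₂) := by rw [hYpow]
      _ ≤ _ := by
          gcongr
          exact le_max_right _ _
  · have hz : ∑ k ∈ (Icc 1 (D / t)).filter (fun k => Nat.Coprime k d'), EE L p p' r (t * k) d' = 0 := by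
      refine Finset.sum_eq_zero fun k hk => ?_
      rw [Finset.mem_filter, Finset.mem_Icc] at hk
      obtain ⟨a1, _, _, _⟩ := rh_t h ht hk.1.1 hd' h1 hk.2
      have h6 : rh p p' r (t * k) d' ≠ 1 := by
        intro h7
        have := (a1.1 h7).1
        rw [hr] at this
        exact zero_ne_one this
      exact tqq_zero h (Nat.mul_pos ht hk.1.1) hd' ((tqq_rh p p' r (t * k) d').resolve_left h6)
    rw [hz, abs_zero]
    positivity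

end

end Pool.Agent.LSPD

namespace Pool.Agent.LSPD

alias tqq := tqq_pr

end Pool.Agent.LSPD
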