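import Pool.Agent.Lib_helper19.LSPD.Defs

/-!
# LSPD block CNT: Rankin's bound for the numbers composed of the primes of `n`
-/

set_option autoImplicit false

namespace Pool.Agent.LSPD

open Pool.Agent.FG61 (mu cc)
open Pool.Agent.Var35 (e)
open Finset

/-- `n ↦ n ^ (-s)` as a monoid homomorphism -/
noncomputable def cnt_hom (s : ℝ) : ℕ →* ℝ where
  toFun n := (n : ℝ) ^ (-s)
  map_one' := by simp
  map_mul' m n := by
    push_cast
    exact Real.mul_rpow (Nat.cast_nonneg m) (Nat.cast_nonneg n)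

theorem cnt_prime_lt {s : ℝ} (hs : 0 < s) {p : ℕ} (hp : 2 ≤ p) :
    (p : ℝ) ^ (-s) ≤ (2 : ℝ) ^ (-s) := by
  have h2 : (2 : ℝ) ≤ p := by exact_mod_cast hp
  exact Real.rpow_le_rpow_of_nonpos (by norm_num) h2 (by linarith)

theorem cnt_two_lt {s : ℝ} (hs : 0 < s) : (2 : ℝ) ^ (-s) < 1 :=
  Real.rpow_lt_one_of_one_lt_of_neg (by norm_num) (by linarith)

/-- `∑_{t ∈ Ts n D} t ^ (-s) ≤ (1 - 2 ^ (-s)) ^ (-ω(n))` -/
theorem cnt_sum {s : ℝ} (hs : 0 < s) (n D : ℕ) :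
    ∑ t ∈ Ts n D, (t : ℝ) ^ (-s) ≤ ((1 - (2 : ℝ) ^ (-s))⁻¹) ^ n.primeFactors.card := by
  have h1 : ∀ {p : ℕ}, p.Prime → ‖cnt_hom s p‖ < 1 := by
    intro p hp
    have h3 : (0 : ℝ) ≤ (p : ℝ) ^ (-s) := Real.rpow_nonneg (Nat.cast_nonneg p) _
    change ‖(p : ℝ) ^ (-s)‖ < 1
    rw [Real.norm_of_nonneg h3]
    exact (cnt_prime_lt hs hp.two_le).trans_lt (cnt_two_lt hs)
  obtain ⟨hS, hH⟩ :=
    EulerProduct.summable_and_hasSum_factoredNumbers_prod_filter_prime_geometric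
      (f := cnt_hom s) h1 n.primeFactors
  have hmem : ∀ t ∈ Ts n D, t ∈ Nat.factoredNumbers n.primeFactors := by
    intro t ht
    rw [Ts, mem_filter, mem_Icc] at ht
    rw [Nat.mem_factoredNumbers]
    refine ⟨by omega, fun p hp => ht.2 ?_⟩
    exact Nat.mem_primeFactors_iff_mem_primeFactorsList.mpr hp
  -- the finite sum is at most the infinite one
  have h2 : ∑ t ∈ Ts n D, (t : ℝ) ^ (-s) ≤
      ∏ p ∈ n.primeFactors with p.Prime, (1 - cnt_hom s p)⁻¹ := by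
    rw [← hH.tsum_eq]
    have h3 : ∑ t ∈ Ts n D, (t : ℝ) ^ (-s) =
        ∑ t ∈ (Ts n D).attach.image (fun t => (⟨t.1, hmem t.1 t.2⟩ :
          Nat.factoredNumbers n.primeFactors)), cnt_hom s t := by
      rw [Finset.sum_image]
      · rw [← Finset.sum_attach]
        rfl
      · intro a _ b _ hab
        have hab' : (⟨a.1, hmem a.1 a.2⟩ : Nat.factoredNumbers n.primeFactors) =
          ⟨b.1, hmem b.1 b.2⟩ := hab
        exact Subtype.ext (congrArg (fun x : Nat.factoredNumbers n.primeFactors => x.1) hab')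
    rw [h3]
    apply hH.summable.sum_le_tsum
    intro t _
    exact Real.rpow_nonneg (Nat.cast_nonneg _) _
  refine h2.trans ?_
  have h4 : (n.primeFactors.filter Nat.Prime) = n.primeFactors := by
    apply Finset.filter_true_of_mem
    intro p hp
    exact Nat.prime_of_mem_primeFactors hp
  rw [h4, ← Finset.prod_const]
  apply Finset.prod_le_prod
  · intro p hp
    have hpp := Nat.prime_of_mem_primeFactors hp
    have h5 : (p : ℝ) ^ (-s) < 1 := (cnt_prime_lt hs hpp.two_le).trans_lt (cnt_two_lt hs)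
    change 0 ≤ (1 - (p : ℝ) ^ (-s))⁻¹
    exact inv_nonneg.mpr (by linarith)
  · intro p hp
    have hpp := Nat.prime_of_mem_primeFactors hp
    have h5 := cnt_prime_lt hs hpp.two_le
    have h6 := cnt_two_lt hs
    change (1 - (p : ℝ) ^ (-s))⁻¹ ≤ (1 - (2 : ℝ) ^ (-s))⁻¹
    exact inv_anti₀ (by linarith) (by linarith)

/-- `A ^ ω(n) ≤ C n ^ ε` -/
theorem cnt_omega {A ε : ℝ} (hA : 1 ≤ A) (hε : 0 < ε) : ∃ C : ℝ, 1 ≤ C ∧ ∀ n : ℕ, 1 ≤ n →
    A ^ n.primeFactors.card ≤ C * (n : ℝ) ^ ε := by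
  obtain ⟨N, hN⟩ : ∃ N : ℕ, ∀ p : ℕ, N ≤ p → A ≤ (p : ℝ) ^ ε := by
    have h1 : Filter.Tendsto (fun p : ℕ => (p : ℝ) ^ ε) Filter.atTop Filter.atTop :=
      (tendsto_rpow_atTop hε).comp tendsto_natCast_atTop_atTop
    obtain ⟨N, hN⟩ := Filter.eventually_atTop.mp (h1.eventually_ge_atTop A)
    exact ⟨N, hN⟩
  refine ⟨A ^ N, one_le_pow₀ hA, fun n hn => ?_⟩
  have hA0 : 0 < A := by linarith
  rw [← Finset.prod_const]
  have h1 : ∏ _p ∈ n.primeFactors, A ≤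
      (∏ p ∈ n.primeFactors, if p < N then A else 1) * ∏ p ∈ n.primeFactors, (p : ℝ) ^ ε := by
    rw [← Finset.prod_mul_distrib]
    apply Finset.prod_le_prod
    · intro p _; exact hA0.le
    · intro p hp
      have hpp := Nat.prime_of_mem_primeFactors hp
      have h2 : (1 : ℝ) ≤ (p : ℝ) ^ ε :=
        Real.one_le_rpow (by exact_mod_cast hpp.one_lt.le) hε.le
      split_ifs with h
      · nlinarith
      · rw [one_mul]; exact hN p (by omega)
  have h2 : ∏ p ∈ n.primeFactors, (if p < N then A else 1) ≤ A ^ N := by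
    rw [← Finset.prod_filter, Finset.prod_const]
    apply pow_le_pow_right₀ hA
    refine (Finset.card_le_card (t := Finset.range N) ?_).trans (Finset.card_range N).le
    intro p hp
    exact Finset.mem_range.mpr (Finset.mem_filter.mp hp).2
  have h3 : ∏ p ∈ n.primeFactors, (p : ℝ) ^ ε ≤ (n : ℝ) ^ ε := by
    rw [Real.finsetProd_rpow _ _ (fun p _ => Nat.cast_nonneg p), ← Nat.cast_prod]
    apply Real.rpow_le_rpow (Nat.cast_nonneg _) _ hε.le
    exact Nat.cast_le.mpr (Nat.le_of_dvd (by omega) (Nat.prod_primeFactors_dvd n))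
  have h4 : 0 ≤ ∏ p ∈ n.primeFactors, (p : ℝ) ^ ε :=
    Finset.prod_nonneg fun p _ => Real.rpow_nonneg (Nat.cast_nonneg p) _
  calc ∏ _p ∈ n.primeFactors, A ≤ _ := h1
    _ ≤ A ^ N * ∏ p ∈ n.primeFactors, (p : ℝ) ^ ε := mul_le_mul_of_nonneg_right h2 h4
    _ ≤ A ^ N * (n : ℝ) ^ ε := mul_le_mul_of_nonneg_left h3 (by positivity)

/-- block CNT -/
theorem ts_card_pr {ε : ℝ} (hε : 0 < ε) : ∃ C : ℝ, 1 ≤ C ∧ ∀ n D : ℕ, 1 ≤ n → 1 ≤ D →
    ((Ts n D).card : ℝ) ≤ C * ((n : ℝ) * D) ^ ε := by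
  have h2 := cnt_two_lt hε
  have h20 : 0 < (2 : ℝ) ^ (-ε) := by positivity
  have hA : 1 ≤ (1 - (2 : ℝ) ^ (-ε))⁻¹ := by
    rw [one_le_inv₀ (by linarith)]
    linarith
  obtain ⟨C, hC1, hC⟩ := cnt_omega hA hε
  refine ⟨C, hC1, fun n D hn hD => ?_⟩
  have hD0 : (0 : ℝ) < D := by exact_mod_cast hD
  have h3 : ((Ts n D).card : ℝ) ≤ (D : ℝ) ^ ε * ∑ t ∈ Ts n D, (t : ℝ) ^ (-ε) := by
    rw [Finset.mul_sum, Finset.card_eq_sum_ones]
    push_cast
    apply Finset.sum_le_sum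
    intro t ht
    rw [Ts, mem_filter, mem_Icc] at ht
    have ht0 : (0 : ℝ) < t := by exact_mod_cast ht.1.1
    have htD : (t : ℝ) ≤ D := by exact_mod_cast ht.1.2
    rw [Real.rpow_neg ht0.le, ← div_eq_mul_inv, ← Real.div_rpow hD0.le ht0.le]
    apply Real.one_le_rpow _ hε.le
    rwa [one_le_div ht0]
  have h4 := (cnt_sum hε n D).trans (hC n hn)
  calc ((Ts n D).card : ℝ) ≤ _ := h3
    _ ≤ (D : ℝ) ^ ε * (C * (n : ℝ) ^ ε) := mul_le_mul_of_nonneg_left h4 (by positivity)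
    _ = C * ((n : ℝ) * D) ^ ε := by
      rw [Real.mul_rpow (Nat.cast_nonneg n) hD0.le]; ring

end Pool.Agent.LSPD

namespace Pool.Agent.LSPD

alias ts_card := ts_card_pr

end Pool.Agent.LSPD
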