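import Pool.Agent.Lib_helper19.LSPD.Defs
import Pool.Agent.Lib_helper19.LSPD.CNT

/-! LSP, part D, block BIG (helper92). -/

set_option autoImplicit false

namespace Pool.Agent.LSPD

open Pool.Agent.FG61 (mu cc)
open Pool.Agent.Var35 (e)
open Finset

noncomputable section

theorem big_gauss (u : ℝ) :
    Real.exp (-Real.pi * u ^ 2) * (1 + |u|) ^ 2 ≤ 3 * Real.exp (-|u|) := by
  have h1 : (1 + |u|) ^ 2 ≤ Real.exp (2 * |u|) := by
    have h2 : 1 + |u| ≤ Real.exp |u| := by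
      have := Real.add_one_le_exp |u|
      linarith
    calc (1 + |u|) ^ 2 ≤ (Real.exp |u|) ^ 2 := pow_le_pow_left₀ (by positivity) h2 2
      _ = Real.exp (2 * |u|) := by rw [← Real.exp_nat_mul]; norm_num
  have h3 : -Real.pi * u ^ 2 + 2 * |u| ≤ 3 / 4 + -|u| := by
    have h4 : (3 : ℝ) ≤ Real.pi := Real.pi_gt_three.le
    have h5 : u ^ 2 = |u| ^ 2 := (sq_abs u).symm
    rw [h5]
    nlinarith [sq_nonneg (|u| - 1 / 2), mul_nonneg (sub_nonneg.2 h4) (sq_nonneg |u|)]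
  have h6 : Real.exp (3 / 4) ≤ 3 := by
    have h7 : Real.exp (3 / 4) ≤ Real.exp 1 := Real.exp_le_exp.2 (by norm_num)
    have := Real.exp_one_lt_d9
    linarith
  calc Real.exp (-Real.pi * u ^ 2) * (1 + |u|) ^ 2
      ≤ Real.exp (-Real.pi * u ^ 2) * Real.exp (2 * |u|) :=
        mul_le_mul_of_nonneg_left h1 (Real.exp_pos _).le
    _ = Real.exp (-Real.pi * u ^ 2 + 2 * |u|) := (Real.exp_add _ _).symm
    _ ≤ Real.exp (3 / 4 + -|u|) := Real.exp_le_exp.2 h3
    _ = Real.exp (3 / 4) * Real.exp (-|u|) := Real.exp_add _ _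
    _ ≤ 3 * Real.exp (-|u|) := mul_le_mul_of_nonneg_right h6 (Real.exp_pos _).le

/-- the majorant along a class -/
def big_b (y : ℝ) (j : ℤ) : ℝ :=
  if 0 ≤ j then Real.exp (-(y * j)) else Real.exp (-(y * (-j - 1)))

theorem big_b_hasSum {y : ℝ} (hy : 0 < y) :
    HasSum (big_b y) ((1 - Real.exp (-y))⁻¹ + (1 - Real.exp (-y))⁻¹) := by
  have h1 : Real.exp (-y) < 1 := by
    rw [Real.exp_lt_one_iff]; linarith
  have h2 := hasSum_geometric_of_lt_one (Real.exp_pos (-y)).le h1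
  have h3 : ∀ n : ℕ, Real.exp (-y) ^ n = Real.exp (-(y * (n : ℝ))) := by
    intro n
    rw [← Real.exp_nat_mul]
    congr 1; ring
  refine HasSum.of_nat_of_neg_add_one ?_ ?_
  · convert h2 using 2 with n
    rw [h3 n, big_b, if_pos (by positivity)]
    simp
  · convert h2 using 2 with n
    rw [h3 n, big_b, if_neg (by omega)]
    congr 1
    push_cast
    ring

theorem big_inv {y : ℝ} (hy : 0 < y) : (1 - Real.exp (-y))⁻¹ ≤ 1 + 1 / y := by
  have h1 : Real.exp (-y) ≤ 1 / (1 + y) := by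
    rw [Real.exp_neg, ← one_div]
    apply one_div_le_one_div_of_le (by positivity)
    have := Real.add_one_le_exp y
    linarith
  have h2 : y / (1 + y) ≤ 1 - Real.exp (-y) := by
    have : y / (1 + y) = 1 - 1 / (1 + y) := by field_simp; ring
    rw [this]; linarith
  have h3 : 0 < y / (1 + y) := by positivity
  calc (1 - Real.exp (-y))⁻¹ ≤ (y / (1 + y))⁻¹ := inv_anti₀ h3 h2
    _ = 1 + 1 / y := by field_simp; ring

theorem big_le_b {L : ℝ} (hL : 0 < L) {t : ℕ} (ht : 1 ≤ t) {s : ℤ} (hs : 0 ≤ s) (hst : s < t)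
    (j : ℤ) : Real.exp (-|((s + t * j : ℤ) : ℝ) / L|) ≤ big_b (t / L) j := by
  have ht0 : (0 : ℝ) < t := by exact_mod_cast ht
  have hs0 : (0 : ℝ) ≤ s := by exact_mod_cast hs
  have hst0 : (s : ℝ) < t := by exact_mod_cast hst
  unfold big_b
  split_ifs with h
  · have hj : (0 : ℝ) ≤ j := by exact_mod_cast h
    apply Real.exp_le_exp.2
    rw [abs_of_nonneg (by push_cast; positivity)]
    push_cast
    rw [neg_le_neg_iff, div_mul_eq_mul_div]
    apply div_le_div_of_nonneg_right _ hL.le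
    linarith
  · have hj : (j : ℝ) ≤ -1 := by
      have : j ≤ -1 := by omega
      exact_mod_cast this
    apply Real.exp_le_exp.2
    have h1 : ((s + t * j : ℤ) : ℝ) ≤ 0 := by
      push_cast; nlinarith
    rw [abs_of_nonpos (div_nonpos_of_nonpos_of_nonneg h1 hL.le)]
    push_cast
    rw [neg_le_neg_iff, div_mul_eq_mul_div, ← neg_div]
    apply div_le_div_of_nonneg_right _ hL.le
    nlinarith

theorem big_summable {L : ℝ} (hL : 0 < L) : Summable (fun m : ℤ => Real.exp (-|(m : ℝ) / L|)) := by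
  have h1 := (big_b_hasSum (y := ((1 : ℕ) : ℝ) / L) (by positivity)).summable
  refine Summable.of_nonneg_of_le (fun m => (Real.exp_pos _).le) (fun m => ?_) h1
  have := big_le_b hL (t := 1) le_rfl (s := 0) le_rfl (by norm_num) m
  simpa using this

theorem big_class {L : ℝ} (hL : 0 < L) {t : ℕ} (ht : 1 ≤ t) (A : ℤ → Prop) [DecidablePred A]
    (hA : ∀ m m', A m → A m' → (t : ℤ) ∣ m - m') :
    ∑' m : ℤ, (if A m then Real.exp (-|(m : ℝ) / L|) else 0) ≤ 2 * (1 + L / t) := by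
  have ht0 : (0 : ℝ) < t := by exact_mod_cast ht
  have htz : (0 : ℤ) < t := by exact_mod_cast ht
  by_cases hex : ∃ m₀, A m₀
  · obtain ⟨m₀, hm₀⟩ := hex
    set s : ℤ := m₀ % t with hs
    have hs0 : 0 ≤ s := Int.emod_nonneg _ htz.ne'
    have hst : s < t := Int.emod_lt_of_pos _ htz
    set ι : ℤ → ℤ := fun j => s + t * j with hι
    have hinj : Function.Injective ι := by
      intro a b hab
      simp only [hι] at hab
      have h1 : (t : ℤ) * a = t * b := by linarith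
      exact mul_left_cancel₀ htz.ne' h1
    set g : ℤ → ℝ := fun m => if A m then Real.exp (-|(m : ℝ) / L|) else 0 with hg
    have hsupp : Function.support g ⊆ Set.range ι := by
      intro m hm
      have hAm : A m := by
        by_contra hcon
        apply hm
        simp [hg, hcon]
      refine ⟨m / t, ?_⟩
      have h1 : m % t = s := by
        rw [hs]
        have h0 : m₀ ≡ m [ZMOD t] := Int.modEq_iff_dvd.2 (hA m m₀ hAm hm₀)
        exact h0.symm
      simp only [hι]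
      rw [← h1]
      exact Int.emod_add_mul_ediv m t
    have h1 : ∑' m : ℤ, g m = ∑' j : ℤ, g (ι j) := (hinj.tsum_eq hsupp).symm
    have h2 : ∀ j, g (ι j) ≤ big_b (t / L) j := by
      intro j
      simp only [hg]
      split_ifs
      · exact big_le_b hL ht hs0 hst j
      · unfold big_b; split_ifs <;> positivity
    have h3 := big_b_hasSum (y := (t : ℝ) / L) (by positivity)
    have h4 : ∑' j : ℤ, g (ι j) ≤ ∑' j : ℤ, big_b (t / L) j := by
      refine Summable.tsum_le_tsum h2 ?_ h3.summable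
      refine Summable.of_nonneg_of_le (fun j => ?_) h2 h3.summable
      simp only [hg]; split_ifs <;> positivity
    rw [h3.tsum_eq] at h4
    have h5 := big_inv (y := (t : ℝ) / L) (by positivity)
    have h6 : 1 / ((t : ℝ) / L) = L / t := by rw [one_div_div]
    rw [h6] at h5
    change ∑' m : ℤ, g m ≤ _
    rw [h1]
    linarith
  · have h1 : (fun m : ℤ => if A m then Real.exp (-|(m : ℝ) / L|) else 0) = fun _ => 0 := by
      funext m
      rw [if_neg]
      exact fun h => hex ⟨m, h⟩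
    rw [h1, tsum_zero]
    positivity

theorem big_gs_summable {L : ℝ} (hL : 0 < L) : Summable (fun m : ℤ => gs L m) := by
  refine Summable.of_nonneg_of_le (fun m => (Real.exp_pos _).le) (fun m => ?_)
    ((big_summable hL).mul_left 3)
  have h1 := big_gauss ((m : ℝ) / L)
  have h2 : Real.exp (-Real.pi * ((m : ℝ) / L) ^ 2) ≤
      Real.exp (-Real.pi * ((m : ℝ) / L) ^ 2) * (1 + |(m : ℝ) / L|) ^ 2 := by
    apply le_mul_of_one_le_right (Real.exp_pos _).le
    have : (1 : ℝ) ≤ 1 + |(m : ℝ) / L| := by linarith [abs_nonneg ((m : ℝ) / L)]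
    exact one_le_pow₀ this
  exact h2.trans h1

theorem big_term_summable {L : ℝ} (hL : 0 < L) (B : ℤ → Prop) [DecidablePred B] :
    Summable (fun m : ℤ => if B m then gs L m else 0) := by
  refine Summable.of_nonneg_of_le (fun m => ?_) (fun m => ?_) (big_gs_summable hL)
  · split_ifs
    · exact (Real.exp_pos _).le
    · exact le_rfl
  · split_ifs
    · exact le_rfl
    · exact (Real.exp_pos _).le

theorem big_TT_nonneg (L : ℝ) (p p' : ℕ) (r : ℤ) (d d' : ℕ) : 0 ≤ TT L p p' r d d' := by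
  unfold TT
  refine tsum_nonneg fun m => ?_
  split_ifs
  · exact (Real.exp_pos _).le
  · exact le_rfl

theorem big_count {N : ℤ} (hN : N ≠ 0) {t : ℕ} (ht : 1 ≤ t) (K : ℕ) :
    ∑ k ∈ Icc 1 K, (if ((t * k : ℕ) : ℤ) ∣ N then (1 : ℝ) else 0) ≤
      if (t : ℤ) ∣ N then tau N.natAbs else 0 := by
  split_ifs with h
  · rw [← Finset.sum_filter, Finset.sum_const, nsmul_eq_mul, mul_one]
    unfold tau
    norm_cast
    refine Finset.card_le_card_of_injOn (fun k => t * k) ?_ ?_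
    · intro k hk
      rw [Finset.mem_coe, Finset.mem_filter] at hk
      rw [Finset.mem_coe, Nat.mem_divisors]
      refine ⟨?_, Int.natAbs_ne_zero.2 hN⟩
      exact Int.natCast_dvd.1 hk.2
    · intro a _ b _ hab
      exact Nat.eq_of_mul_eq_mul_left ht hab
  · apply le_of_eq
    apply Finset.sum_eq_zero
    intro k _
    rw [if_neg]
    intro h2
    exact h (dvd_trans (by push_cast; exact dvd_mul_right _ _) h2)

theorem big_ne {p : ℕ} {r : ℤ} (h : ¬ (p : ℤ) ∣ r) (m : ℤ) : (p : ℤ) * m - r ≠ 0 := by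
  intro h1
  apply h
  exact ⟨m, by linarith⟩

theorem big_tau {δ C₁ : ℝ} (hδ : 0 < δ) (hδ1 : δ ≤ 1) (hC : 0 < C₁)
    (hd : ∀ n : ℕ, 0 < n → (n.divisors.card : ℝ) ≤ C₁ * (n : ℝ) ^ δ) {L : ℝ} (hL : 1 ≤ L)
    {p : ℕ} (hp : 1 ≤ p) {r : ℤ} (hr : r ≠ 0) {m : ℤ} (hm : (p : ℤ) * m - r ≠ 0) {Y : ℝ}
    (hY : (p : ℝ) * |(r : ℝ)| * (1 + L) ≤ Y) :
    tau ((p : ℤ) * m - r).natAbs ≤ C₁ * Y ^ δ * (1 + |(m : ℝ) / L|) := by
  have hL0 : 0 < L := by linarith
  have h1 := hd ((p : ℤ) * m - r).natAbs (Int.natAbs_pos.2 hm)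
  have hp1 : (1 : ℝ) ≤ p := by exact_mod_cast hp
  have hr1 : (1 : ℝ) ≤ |(r : ℝ)| := by
    have : (1 : ℤ) ≤ |r| := Int.one_le_abs hr
    exact_mod_cast this
  have h2 : ((((p : ℤ) * m - r).natAbs : ℕ) : ℝ) = |(p : ℝ) * m - r| := by
    rw [Nat.cast_natAbs]; push_cast; rfl
  have h3 : |(p : ℝ) * m - r| ≤ Y * (1 + |(m : ℝ) / L|) := by
    have h4 : |(p : ℝ) * m - r| ≤ p * |(m : ℝ)| + |(r : ℝ)| := by
      calc |(p : ℝ) * m - r| ≤ |(p : ℝ) * m| + |(r : ℝ)| := abs_sub _ _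
        _ = p * |(m : ℝ)| + |(r : ℝ)| := by rw [abs_mul, abs_of_nonneg (by positivity : (0:ℝ) ≤ p)]
    have h5 : |(m : ℝ) / L| = |(m : ℝ)| / L := by rw [abs_div, abs_of_pos hL0]
    have h6 : |(m : ℝ)| = L * (|(m : ℝ)| / L) := by field_simp
    set v : ℝ := |(m : ℝ)| / L with hv
    have hv0 : 0 ≤ v := by positivity
    rw [h5]
    calc |(p : ℝ) * m - r| ≤ p * |(m : ℝ)| + |(r : ℝ)| := h4
      _ = p * (L * v) + |(r : ℝ)| := by rw [← h6]
      _ ≤ (p * |(r : ℝ)| * (1 + L)) * (1 + v) := by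
          have ha : (p : ℝ) * (L * v) ≤ p * |(r : ℝ)| * (L * v) := by
            have : (p : ℝ) * (L * v) * 1 ≤ p * (L * v) * |(r : ℝ)| :=
              mul_le_mul_of_nonneg_left hr1 (by positivity)
            linarith
          have hb : |(r : ℝ)| ≤ p * |(r : ℝ)| := by
            have : 1 * |(r : ℝ)| ≤ p * |(r : ℝ)| := mul_le_mul_of_nonneg_right hp1 (by positivity)
            linarith
          have hc : 0 ≤ (p : ℝ) * |(r : ℝ)| * v := by positivity
          have hd' : 0 ≤ (p : ℝ) * |(r : ℝ)| * L := by positivity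
          nlinarith
      _ ≤ Y * (1 + v) := mul_le_mul_of_nonneg_right hY (by positivity)
  have hY0 : 0 < Y := by
    have : 0 < (p : ℝ) * |(r : ℝ)| * (1 + L) := by positivity
    linarith
  unfold tau
  calc ((((p : ℤ) * m - r).natAbs.divisors.card : ℕ) : ℝ)
      ≤ C₁ * ((((p : ℤ) * m - r).natAbs : ℕ) : ℝ) ^ δ := h1
    _ ≤ C₁ * (Y * (1 + |(m : ℝ) / L|)) ^ δ := by
        refine mul_le_mul_of_nonneg_left ?_ hC.le
        rw [h2]
        exact Real.rpow_le_rpow (abs_nonneg _) h3 hδ.le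
    _ = C₁ * (Y ^ δ * (1 + |(m : ℝ) / L|) ^ δ) := by
        rw [Real.mul_rpow hY0.le (by positivity)]
    _ ≤ C₁ * (Y ^ δ * (1 + |(m : ℝ) / L|)) := by
        refine mul_le_mul_of_nonneg_left ?_ hC.le
        refine mul_le_mul_of_nonneg_left ?_ (Real.rpow_nonneg hY0.le _)
        have h7 : (1 : ℝ) ≤ 1 + |(m : ℝ) / L| := by linarith [abs_nonneg ((m : ℝ) / L)]
        calc (1 + |(m : ℝ) / L|) ^ δ ≤ (1 + |(m : ℝ) / L|) ^ (1 : ℝ) :=
              Real.rpow_le_rpow_of_exponent_le h7 hδ1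
          _ = 1 + |(m : ℝ) / L| := Real.rpow_one _
    _ = C₁ * Y ^ δ * (1 + |(m : ℝ) / L|) := by ring

theorem big_fix {δ C₁ : ℝ} (hδ : 0 < δ) (hδ1 : δ ≤ 1) (hC : 0 < C₁)
    (hd : ∀ n : ℕ, 0 < n → (n.divisors.card : ℝ) ≤ C₁ * (n : ℝ) ^ δ) {L : ℝ} (hL : 1 ≤ L)
    {p p' : ℕ} {r : ℤ} (h : PP p p' r) {D t : ℕ} (hD : 1 ≤ D) (ht : 1 ≤ t) :
    ∑ d' ∈ Icc 1 D, ∑ k ∈ Icc 1 (D / t), TT L p p' r (t * k) d' ≤
      6 * C₁ ^ 2 * Yy L p p' D r ^ (2 * δ) * (1 + L / t) := by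
  have hL0 : 0 < L := by linarith
  have hp1 : (1 : ℝ) ≤ p := by exact_mod_cast h.pr.one_lt.le
  have hp1' : (1 : ℝ) ≤ p' := by exact_mod_cast h.pr'.one_lt.le
  have hr0 : r ≠ 0 := by
    rintro rfl
    exact h.dv (dvd_zero _)
  have hr1 : (1 : ℝ) ≤ |(r : ℝ)| := by
    have : (1 : ℤ) ≤ |r| := Int.one_le_abs hr0
    exact_mod_cast this
  have hD1 : (1 : ℝ) ≤ D := by exact_mod_cast hD
  set Y : ℝ := Yy L p p' D r with hY
  have hY1 : (p : ℝ) * |(r : ℝ)| * (1 + L) ≤ Y := by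
    have h0 : Y = (p : ℝ) * |(r : ℝ)| * (1 + L) * (p' * D) := by rw [hY, Yy]; ring
    rw [h0]
    apply le_mul_of_one_le_right (by positivity)
    nlinarith
  have hY1' : (p' : ℝ) * |(r : ℝ)| * (1 + L) ≤ Y := by
    have h0 : Y = (p' : ℝ) * |(r : ℝ)| * (1 + L) * (p * D) := by rw [hY, Yy]; ring
    rw [h0]
    apply le_mul_of_one_le_right (by positivity)
    nlinarith
  have hY0 : 0 < Y := by
    have : 0 < (p : ℝ) * |(r : ℝ)| * (1 + L) := by positivity
    linarith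
  set A : ℤ → Prop := fun m => (t : ℤ) ∣ (p : ℤ) * m - r with hA
  -- the interchange
  have hsum : ∑ d' ∈ Icc 1 D, ∑ k ∈ Icc 1 (D / t), TT L p p' r (t * k) d' =
      ∑' m : ℤ, ∑ d' ∈ Icc 1 D, ∑ k ∈ Icc 1 (D / t),
        (if ((t * k : ℕ) : ℤ) ∣ (p : ℤ) * m - r ∧ (d' : ℤ) ∣ (p' : ℤ) * m - r then gs L m
          else 0) := by
    rw [Summable.tsum_finsetSum]
    · refine Finset.sum_congr rfl fun d' _ => ?_
      rw [Summable.tsum_finsetSum]
      · rfl
      · intro k _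
        exact big_term_summable hL0 _
    · intro d' _
      refine summable_sum fun k _ => ?_
      exact big_term_summable hL0 _
  have hpt : ∀ m : ℤ, ∑ d' ∈ Icc 1 D, ∑ k ∈ Icc 1 (D / t),
        (if ((t * k : ℕ) : ℤ) ∣ (p : ℤ) * m - r ∧ (d' : ℤ) ∣ (p' : ℤ) * m - r then gs L m
          else 0) ≤ (3 * C₁ ^ 2 * Y ^ (2 * δ)) *
            (if A m then Real.exp (-|(m : ℝ) / L|) else 0) := by
    intro m
    have hgs : 0 ≤ gs L m := (Real.exp_pos _).le
    have h1 : ∑ d' ∈ Icc 1 D, ∑ k ∈ Icc 1 (D / t),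
        (if ((t * k : ℕ) : ℤ) ∣ (p : ℤ) * m - r ∧ (d' : ℤ) ∣ (p' : ℤ) * m - r then gs L m
          else 0) = gs L m * ((∑ k ∈ Icc 1 (D / t),
            (if ((t * k : ℕ) : ℤ) ∣ (p : ℤ) * m - r then (1 : ℝ) else 0)) *
          (∑ d' ∈ Icc 1 D, (if ((1 * d' : ℕ) : ℤ) ∣ (p' : ℤ) * m - r then (1 : ℝ) else 0))) := by
      rw [Finset.sum_comm, Finset.sum_mul_sum, Finset.mul_sum]
      refine Finset.sum_congr rfl fun k _ => ?_
      rw [Finset.mul_sum]
      refine Finset.sum_congr rfl fun d' _ => ?_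
      rw [one_mul]
      by_cases ha : ((t * k : ℕ) : ℤ) ∣ (p : ℤ) * m - r <;>
        by_cases hb : (d' : ℤ) ∣ (p' : ℤ) * m - r <;> simp [hb]
    rw [h1]
    have hne := big_ne h.dv m
    have hne' := big_ne h.dv' m
    have h2 := big_count hne ht (D / t)
    have h3 := big_count hne' (le_refl 1) D
    rw [if_pos (by simp)] at h3
    have h4 := big_tau hδ hδ1 hC hd hL h.pr.one_lt.le hr0 hne hY1
    have h5 := big_tau hδ hδ1 hC hd hL h.pr'.one_lt.le hr0 hne' hY1'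
    have h3n : 0 ≤ ∑ d' ∈ Icc 1 D, (if ((1 * d' : ℕ) : ℤ) ∣ (p' : ℤ) * m - r then (1 : ℝ) else 0) :=
      Finset.sum_nonneg fun _ _ => by split_ifs <;> norm_num
    by_cases hAm : A m
    · rw [if_pos hAm]
      have hAm' : (t : ℤ) ∣ (p : ℤ) * m - r := hAm
      rw [if_pos hAm'] at h2
      have h6 : (∑ k ∈ Icc 1 (D / t),
            (if ((t * k : ℕ) : ℤ) ∣ (p : ℤ) * m - r then (1 : ℝ) else 0)) *
          (∑ d' ∈ Icc 1 D, (if ((1 * d' : ℕ) : ℤ) ∣ (p' : ℤ) * m - r then (1 : ℝ) else 0)) ≤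
          (C₁ * Y ^ δ * (1 + |(m : ℝ) / L|)) * (C₁ * Y ^ δ * (1 + |(m : ℝ) / L|)) :=
        mul_le_mul (h2.trans h4) (h3.trans h5) h3n (by positivity)
      have h7 : Y ^ δ * Y ^ δ = Y ^ (2 * δ) := by
        rw [← Real.rpow_add hY0]; congr 1; ring
      calc gs L m * _ ≤ gs L m *
            ((C₁ * Y ^ δ * (1 + |(m : ℝ) / L|)) * (C₁ * Y ^ δ * (1 + |(m : ℝ) / L|))) :=
            mul_le_mul_of_nonneg_left h6 hgs
        _ = C₁ ^ 2 * Y ^ (2 * δ) * (gs L m * (1 + |(m : ℝ) / L|) ^ 2) := by rw [← h7]; ring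
        _ ≤ C₁ ^ 2 * Y ^ (2 * δ) * (3 * Real.exp (-|(m : ℝ) / L|)) :=
            mul_le_mul_of_nonneg_left (big_gauss _) (by positivity)
        _ = _ := by ring
    · rw [if_neg hAm]
      have hAm' : ¬ (t : ℤ) ∣ (p : ℤ) * m - r := hAm
      rw [if_neg hAm'] at h2
      have h2n : 0 ≤ ∑ k ∈ Icc 1 (D / t),
            (if ((t * k : ℕ) : ℤ) ∣ (p : ℤ) * m - r then (1 : ℝ) else 0) :=
        Finset.sum_nonneg fun _ _ => by split_ifs <;> norm_num
      have h8 := le_antisymm h2 h2n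
      rw [h8]
      simp
  have hcl := big_class hL0 ht A (by
    intro m m' hm hm'
    have h1 : (t : ℤ) ∣ (p : ℤ) * (m - m') := by
      have := dvd_sub hm hm'
      have h2 : (p : ℤ) * m - r - ((p : ℤ) * m' - r) = (p : ℤ) * (m - m') := by ring
      rwa [h2] at this
    have h3 : IsCoprime (t : ℤ) (p : ℤ) := by
      rw [Nat.isCoprime_iff_coprime, Nat.coprime_comm, Nat.Prime.coprime_iff_not_dvd h.pr]
      intro h4
      apply h.dv
      have h5 : (p : ℤ) ∣ (p : ℤ) * m - r := dvd_trans (by exact_mod_cast h4) hm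
      exact (dvd_sub_right (dvd_mul_right (p : ℤ) m)).1 h5
    exact h3.dvd_of_dvd_mul_left h1)
  have hAs : Summable (fun m : ℤ => if A m then Real.exp (-|(m : ℝ) / L|) else 0) := by
    refine Summable.of_nonneg_of_le (fun m => ?_) (fun m => ?_) (big_summable hL0)
    · split_ifs <;> positivity
    · split_ifs
      · exact le_rfl
      · positivity
  rw [hsum]
  calc _ ≤ ∑' m : ℤ, (3 * C₁ ^ 2 * Y ^ (2 * δ)) *
            (if A m then Real.exp (-|(m : ℝ) / L|) else 0) := by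
        refine Summable.tsum_le_tsum hpt ?_ (hAs.mul_left _)
        refine summable_sum fun d' _ => summable_sum fun k _ => ?_
        exact big_term_summable hL0 _
    _ = (3 * C₁ ^ 2 * Y ^ (2 * δ)) *
          ∑' m : ℤ, (if A m then Real.exp (-|(m : ℝ) / L|) else 0) := tsum_mul_left
    _ ≤ (3 * C₁ ^ 2 * Y ^ (2 * δ)) * (2 * (1 + L / t)) :=
        mul_le_mul_of_nonneg_left hcl (by positivity)
    _ = _ := by ring

theorem big_zero {L : ℝ} {p p' : ℕ} {r : ℤ} (h : PP p p' r) {t k d' : ℕ}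
    (h1 : t.primeFactors ⊆ d'.primeFactors) (h2 : ¬ t.primeFactors ⊆ (n0 p p' r).primeFactors) :
    TT L p p' r (t * k) d' = 0 := by
  unfold TT
  have h3 : (fun m : ℤ => if ((t * k : ℕ) : ℤ) ∣ (p : ℤ) * m - r ∧ (d' : ℤ) ∣ (p' : ℤ) * m - r
      then gs L m else 0) = fun _ => 0 := by
    funext m
    rw [if_neg]
    rintro ⟨ha, hb⟩
    apply h2
    intro q hq
    have hqp := Nat.prime_of_mem_primeFactors hq
    have hqt := Nat.dvd_of_mem_primeFactors hq
    have hqd := Nat.dvd_of_mem_primeFactors (h1 hq)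
    have hqa : (q : ℤ) ∣ (p : ℤ) * m - r := by
      have h0 : q ∣ t * k := dvd_mul_of_dvd_left hqt k
      exact dvd_trans (by exact_mod_cast h0) ha
    have hqb : (q : ℤ) ∣ (p' : ℤ) * m - r := dvd_trans (by exact_mod_cast hqd) hb
    have hqc : (q : ℤ) ∣ r * ((p : ℤ) - p') := by
      have h4 := dvd_sub (dvd_mul_of_dvd_right hqa (p' : ℤ)) (dvd_mul_of_dvd_right hqb (p : ℤ))
      have h5 : (p' : ℤ) * ((p : ℤ) * m - r) - (p : ℤ) * ((p' : ℤ) * m - r) =
        r * ((p : ℤ) - p') := by ring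
      rwa [h5] at h4
    rw [Nat.mem_primeFactors]
    refine ⟨hqp, ?_, ?_⟩
    · unfold n0
      exact Int.natCast_dvd.1 hqc
    · unfold n0
      rw [Int.natAbs_ne_zero]
      refine mul_ne_zero ?_ ?_
      · rintro rfl
        exact h.dv (dvd_zero _)
      · rw [sub_ne_zero]
        exact_mod_cast h.ne
  rw [h3, tsum_zero]

theorem big_t_pr {ε : ℝ} (hε : 0 < ε) : ∃ C : ℝ, 1 ≤ C ∧ ∀ {L : ℝ}, 1 ≤ L → ∀ {p p' : ℕ} {r : ℤ},
    PP p p' r → ∀ {D T₀ : ℕ}, 1 ≤ D → 1 ≤ T₀ →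
    ∑ d' ∈ Icc 1 D, ∑ t ∈ (Icc 1 D).filter (fun t => t.primeFactors ⊆ d'.primeFactors ∧ T₀ < t),
      ∑ k ∈ (Icc 1 (D / t)).filter (fun k => Nat.Coprime k d'), TT L p p' r (t * k) d' ≤
      C * Yy L p p' D r ^ ε * (L / T₀ + 1) := by
  set δ : ℝ := min (ε / 4) 1 with hδd
  have hδ : 0 < δ := lt_min (by positivity) one_pos
  have hδ1 : δ ≤ 1 := min_le_right _ _
  have hδε : 2 * δ ≤ ε / 2 := by
    have : δ ≤ ε / 4 := min_le_left _ _
    linarith
  obtain ⟨C₁, hC₁, hdiv⟩ := Pool.Agent.FG61.divisor_bound hδ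
  obtain ⟨C₂, hC₂, hts⟩ := ts_card (ε := ε / 2) (by positivity)
  refine ⟨max 1 (C₂ * (6 * C₁ ^ 2)), le_max_left _ _, ?_⟩
  intro L hL p p' r h D T₀ hD hT
  have hL0 : 0 < L := by linarith
  have hp1 : (1 : ℝ) ≤ p := by exact_mod_cast h.pr.one_lt.le
  have hp1' : (1 : ℝ) ≤ p' := by exact_mod_cast h.pr'.one_lt.le
  have hr0 : r ≠ 0 := by
    rintro rfl
    exact h.dv (dvd_zero _)
  have hr1 : (1 : ℝ) ≤ |(r : ℝ)| := by
    have : (1 : ℤ) ≤ |r| := Int.one_le_abs hr0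
    exact_mod_cast this
  have hD1 : (1 : ℝ) ≤ D := by exact_mod_cast hD
  have hT1 : (1 : ℝ) ≤ T₀ := by exact_mod_cast hT
  set Y : ℝ := Yy L p p' D r with hY
  have hn0 : (n0 p p' r : ℝ) * D ≤ Y := by
    have h1 : (n0 p p' r : ℝ) = |(r : ℝ)| * |(p : ℝ) - p'| := by
      unfold n0
      rw [Nat.cast_natAbs, ← abs_mul]
      push_cast
      rfl
    have h2 : |(p : ℝ) - p'| ≤ p * p' := by
      rw [abs_le]
      constructor <;> nlinarith
    have h3 : Y = |(r : ℝ)| * (p * p') * D * (1 + L) := by rw [hY, Yy]; ring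
    rw [h1, h3]
    calc |(r : ℝ)| * |(p : ℝ) - p'| * D ≤ |(r : ℝ)| * (p * p') * D := by gcongr
      _ ≤ |(r : ℝ)| * (p * p') * D * (1 + L) := by
          apply le_mul_of_one_le_right (by positivity)
          linarith
  have hn01 : 1 ≤ n0 p p' r := by
    unfold n0
    rw [Nat.one_le_iff_ne_zero, Int.natAbs_ne_zero]
    refine mul_ne_zero hr0 ?_
    rw [sub_ne_zero]
    exact_mod_cast h.ne
  have hY1 : 1 ≤ Y := by
    have h1 : (1 : ℝ) ≤ (n0 p p' r : ℝ) * D := by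
      have : (1 : ℝ) ≤ (n0 p p' r : ℝ) := by exact_mod_cast hn01
      nlinarith
    linarith
  have hY0 : 0 < Y := by linarith
  set S : Finset ℕ := (Ts (n0 p p' r) D).filter (fun t => T₀ < t) with hS
  have hstep1 : ∑ d' ∈ Icc 1 D,
      ∑ t ∈ (Icc 1 D).filter (fun t => t.primeFactors ⊆ d'.primeFactors ∧ T₀ < t),
      ∑ k ∈ (Icc 1 (D / t)).filter (fun k => Nat.Coprime k d'), TT L p p' r (t * k) d' ≤
      ∑ d' ∈ Icc 1 D, ∑ t ∈ S, ∑ k ∈ Icc 1 (D / t), TT L p p' r (t * k) d' := by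
    refine Finset.sum_le_sum fun d' _ => ?_
    rw [← Finset.sum_filter_add_sum_filter_not ((Icc 1 D).filter
      (fun t => t.primeFactors ⊆ d'.primeFactors ∧ T₀ < t))
      (fun t => t.primeFactors ⊆ (n0 p p' r).primeFactors)]
    have hz : ∑ t ∈ (((Icc 1 D).filter
      (fun t => t.primeFactors ⊆ d'.primeFactors ∧ T₀ < t))).filter
      (fun t => ¬ t.primeFactors ⊆ (n0 p p' r).primeFactors),
        ∑ k ∈ (Icc 1 (D / t)).filter (fun k => Nat.Coprime k d'), TT L p p' r (t * k) d' = 0 := by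
      refine Finset.sum_eq_zero fun t ht => Finset.sum_eq_zero fun k _ => ?_
      rw [Finset.mem_filter, Finset.mem_filter] at ht
      exact big_zero h ht.1.2.1 ht.2
    rw [hz, add_zero]
    refine le_trans (Finset.sum_le_sum (g := fun t => ∑ k ∈ Icc 1 (D / t), TT L p p' r (t * k) d')
      fun t _ => ?_) ?_
    · refine Finset.sum_le_sum_of_subset_of_nonneg (Finset.filter_subset _ _) ?_
      intro k _ _
      exact big_TT_nonneg _ _ _ _ _ _
    · refine Finset.sum_le_sum_of_subset_of_nonneg ?_ ?_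
      · intro t ht
        rw [Finset.mem_filter, Finset.mem_filter] at ht
        rw [hS, Finset.mem_filter, Ts, Finset.mem_filter]
        exact ⟨⟨ht.1.1, ht.2⟩, ht.1.2.2⟩
      · intro t _ _
        exact Finset.sum_nonneg fun k _ => big_TT_nonneg _ _ _ _ _ _
  have hstep2 : ∑ d' ∈ Icc 1 D, ∑ t ∈ S, ∑ k ∈ Icc 1 (D / t), TT L p p' r (t * k) d' ≤
      ∑ _t ∈ S, (6 * C₁ ^ 2 * Y ^ (2 * δ) * (L / T₀ + 1)) := by
    rw [Finset.sum_comm]
    refine Finset.sum_le_sum fun t ht => ?_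
    rw [hS, Finset.mem_filter, Ts, Finset.mem_filter, Finset.mem_Icc] at ht
    have h1 := big_fix hδ hδ1 hC₁ hdiv hL h hD ht.1.1.1 (t := t)
    refine h1.trans ?_
    refine mul_le_mul_of_nonneg_left ?_ (by positivity)
    have h2 : (T₀ : ℝ) ≤ t := by exact_mod_cast ht.2.le
    have h3 : L / t ≤ L / T₀ := div_le_div_of_nonneg_left hL0.le (by linarith) h2
    linarith
  have hcard : (S.card : ℝ) ≤ C₂ * Y ^ (ε / 2) := by
    have h1 : (S.card : ℝ) ≤ ((Ts (n0 p p' r) D).card : ℝ) := by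
      exact_mod_cast Finset.card_le_card (Finset.filter_subset _ _)
    have h2 := hts (n0 p p' r) D hn01 hD
    refine h1.trans (h2.trans ?_)
    refine mul_le_mul_of_nonneg_left ?_ (by linarith)
    exact Real.rpow_le_rpow (by positivity) hn0 (by positivity)
  have hfin : ∑ _t ∈ S, (6 * C₁ ^ 2 * Y ^ (2 * δ) * (L / T₀ + 1)) ≤
      C₂ * (6 * C₁ ^ 2) * Y ^ ε * (L / T₀ + 1) := by
    rw [Finset.sum_const, nsmul_eq_mul]
    have h1 : Y ^ (2 * δ) ≤ Y ^ (ε / 2) := Real.rpow_le_rpow_of_exponent_le hY1 hδε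
    have h2 : Y ^ (ε / 2) * Y ^ (ε / 2) = Y ^ ε := by
      rw [← Real.rpow_add hY0]; congr 1; ring
    calc (S.card : ℝ) * (6 * C₁ ^ 2 * Y ^ (2 * δ) * (L / T₀ + 1))
        ≤ (C₂ * Y ^ (ε / 2)) * (6 * C₁ ^ 2 * Y ^ (ε / 2) * (L / T₀ + 1)) := by
          refine mul_le_mul hcard ?_ (by positivity) (by positivity)
          refine mul_le_mul_of_nonneg_right ?_ (by positivity)
          exact mul_le_mul_of_nonneg_left h1 (by positivity)
      _ = C₂ * (6 * C₁ ^ 2) * (Y ^ (ε / 2) * Y ^ (ε / 2)) * (L / T₀ + 1) := by ring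
      _ = _ := by rw [h2]
  refine (hstep1.trans (hstep2.trans hfin)).trans ?_
  refine mul_le_mul_of_nonneg_right ?_ (by positivity)
  exact mul_le_mul_of_nonneg_right (le_max_right _ _) (Real.rpow_nonneg hY0.le _)

end

end Pool.Agent.LSPD

namespace Pool.Agent.LSPD

alias big_t := big_t_pr

end Pool.Agent.LSPD
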