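import Pool.Agent.Lib_helper19.LSPD.Defs

set_option autoImplicit false

namespace Pool.Agent.LSPD

open Finset

theorem fac_cop {t k d' : ℕ} (ht : 1 ≤ t) (_hk : 1 ≤ k) (h1 : t.primeFactors ⊆ d'.primeFactors)
    (h2 : Nat.Coprime k d') : Nat.Coprime t k := by
  refine Nat.Coprime.symm (Nat.coprime_of_dvd ?_)
  intro q hq hqk hqt
  have hq' : q ∈ d'.primeFactors := h1 (Nat.mem_primeFactors.2 ⟨hq, hqt, by omega⟩)
  have hqd : q ∣ d' := Nat.dvd_of_mem_primeFactors hq'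
  have : q ∣ Nat.gcd k d' := Nat.dvd_gcd hqk hqd
  rw [Nat.Coprime] at h2
  rw [h2] at this
  exact hq.one_lt.ne' (Nat.dvd_one.1 this)

theorem fac_inj {t k t' k' d' : ℕ} (ht : 1 ≤ t) (hk : 1 ≤ k) (ht' : 1 ≤ t') (hk' : 1 ≤ k')
    (h1 : t.primeFactors ⊆ d'.primeFactors) (h2 : Nat.Coprime k d')
    (h1' : t'.primeFactors ⊆ d'.primeFactors) (h2' : Nat.Coprime k' d')
    (he : t * k = t' * k') : t = t' := by
  apply Nat.dvd_antisymm
  · exact (fac_cop ht hk' h1 h2').dvd_of_dvd_mul_right (he ▸ Dvd.intro k rfl)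
  · exact (fac_cop ht' hk h1' h2).dvd_of_dvd_mul_right (he.symm ▸ Dvd.intro k' rfl)

theorem fac_ex {d d' : ℕ} (hd : 1 ≤ d) (hd' : 1 ≤ d') :
    ∃ t k : ℕ, 1 ≤ t ∧ 1 ≤ k ∧ t.primeFactors ⊆ d'.primeFactors ∧ Nat.Coprime k d' ∧ t * k = d := by
  classical
  have hprod : (∏ p ∈ d.primeFactors, p ^ d.factorization p) = d := by
    have := Nat.prod_factorization_pow_eq_self (n := d) (by omega)
    rw [Finsupp.prod, Nat.support_factorization] at this
    exact this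
  have hsplit := Finset.prod_filter_mul_prod_filter_not d.primeFactors (fun p => p ∣ d')
    (fun p => p ^ d.factorization p)
  rw [hprod] at hsplit
  set t := ∏ p ∈ d.primeFactors.filter (fun p => p ∣ d'), p ^ d.factorization p with ht
  set k := ∏ p ∈ d.primeFactors.filter (fun p => ¬ p ∣ d'), p ^ d.factorization p with hk
  have ht0 : t ≠ 0 := by
    intro h0
    rw [h0, zero_mul] at hsplit
    omega
  have hk0 : k ≠ 0 := by
    intro h0
    rw [h0, mul_zero] at hsplit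
    omega
  refine ⟨t, k, by omega, by omega, ?_, ?_, hsplit⟩
  · intro q hq
    have hqp := Nat.prime_of_mem_primeFactors hq
    have hqt := Nat.dvd_of_mem_primeFactors hq
    rw [ht] at hqt
    obtain ⟨p, hp, hqp'⟩ := (Prime.dvd_finsetProd_iff hqp.prime _).1 hqt
    have hpp := Nat.prime_of_mem_primeFactors (Finset.mem_filter.1 hp).1
    have : q ∣ p := hqp.dvd_of_dvd_pow hqp'
    have hqe : q = p := (Nat.prime_dvd_prime_iff_eq hqp hpp).1 this
    rw [Nat.mem_primeFactors]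
    exact ⟨hqp, hqe ▸ (Finset.mem_filter.1 hp).2, by omega⟩
  · rw [hk]
    refine Nat.Coprime.prod_left ?_
    intro p hp
    have hpp := Nat.prime_of_mem_primeFactors (Finset.mem_filter.1 hp).1
    exact Nat.Coprime.pow_left _ ((Nat.Prime.coprime_iff_not_dvd hpp).2 (Finset.mem_filter.1 hp).2)

theorem fac_pr {d' : ℕ} (hd' : 1 ≤ d') (D : ℕ) (F : ℕ → ℝ) :
    ∑ d ∈ Icc 1 D, F d = ∑ t ∈ (Icc 1 D).filter (fun t => t.primeFactors ⊆ d'.primeFactors),
      ∑ k ∈ (Icc 1 (D / t)).filter (fun k => Nat.Coprime k d'), F (t * k) := by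
  classical
  rw [Finset.sum_sigma']
  symm
  refine Finset.sum_bij (fun (x : (_ : ℕ) × ℕ) _ => x.1 * x.2) ?_ ?_ ?_ ?_
  · rintro ⟨t, k⟩ hx
    simp only [Finset.mem_sigma, Finset.mem_filter, Finset.mem_Icc] at hx
    obtain ⟨⟨⟨ht1, ht2⟩, ht3⟩, ⟨hk1, hk2⟩, hk3⟩ := hx
    rw [Finset.mem_Icc]
    refine ⟨Nat.succ_le_of_lt (Nat.mul_pos ht1 hk1), ?_⟩
    calc t * k ≤ t * (D / t) := Nat.mul_le_mul_left _ hk2
      _ ≤ D := Nat.mul_div_le D t
  · rintro ⟨t, k⟩ hx ⟨t', k'⟩ hx' he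
    simp only [Finset.mem_sigma, Finset.mem_filter, Finset.mem_Icc] at hx hx'
    obtain ⟨⟨⟨ht1, ht2⟩, ht3⟩, ⟨hk1, hk2⟩, hk3⟩ := hx
    obtain ⟨⟨⟨ht1', ht2'⟩, ht3'⟩, ⟨hk1', hk2'⟩, hk3'⟩ := hx'
    simp only at he
    have h1 : t = t' := fac_inj ht1 hk1 ht1' hk1' ht3 hk3 ht3' hk3' he
    subst h1
    have h2 : k = k' := Nat.eq_of_mul_eq_mul_left (by omega) he
    subst h2
    rfl
  · intro d hd
    rw [Finset.mem_Icc] at hd
    obtain ⟨t, k, ht, hk, h1, h2, he⟩ := fac_ex (d := d) (d' := d') hd.1 hd'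
    refine ⟨⟨t, k⟩, ?_, he⟩
    simp only [Finset.mem_sigma, Finset.mem_filter, Finset.mem_Icc]
    have htd : t ≤ d := by
      rw [← he]
      exact Nat.le_mul_of_pos_right t (by omega)
    refine ⟨⟨⟨ht, htd.trans hd.2⟩, h1⟩, ⟨hk, ?_⟩, h2⟩
    rw [Nat.le_div_iff_mul_le (by omega)]
    calc k * t = d := by rw [mul_comm]; exact he
      _ ≤ D := hd.2
  · rintro ⟨t, k⟩ _
    rfl

end Pool.Agent.LSPD

namespace Pool.Agent.LSPD

alias fac := fac_pr

end Pool.Agent.LSPD
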