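import Pool.Agent.Lib_helper61.FG.Defs
import Pool.Agent.Lib_helper61.FG.DivB

/-!
# LSP, part D: divisors of `p m - r` for a prime `p` of a band and arbitrary `m`. Definitions.
-/

set_option autoImplicit false

namespace Pool.Agent.LSPD

open Pool.Agent.FG61 (mu cc)
open Pool.Agent.Var35 (e)
open Finset

noncomputable section

/-- the number of divisors -/
def tau (n : ℕ) : ℝ := (n.divisors.card : ℝ)

/-- `1 + 1/2 + ... + 1/n` -/
def Hn (n : ℕ) : ℝ := ∑ l ∈ Icc 1 n, 1 / (l : ℝ)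

/-- `w(c) = (1/c) ∑_{l ≤ D/c} 1/l` -/
def ww (D c : ℕ) : ℝ := Hn (D / c) / c

/-- the number of divisors of `k` up to `D` -/
def tD (D : ℕ) (k : ℤ) : ℝ := (((Icc 1 D).filter (fun d : ℕ => (d : ℤ) ∣ k)).card : ℝ)

/-- its part of conductor up to `R` -/
def nu (D R : ℕ) (k : ℤ) : ℝ := ∑ c ∈ Icc 1 R, ww D c * cc c k.natAbs

/-- its part of conductor larger than `R` -/
def UU (D R : ℕ) (k : ℤ) : ℝ := tD D k - nu D R k

/-- the coefficients of `U(k) = ∑_{d ∣ k, d ≤ D} u(d)` (for `R ≤ D`) -/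
def uu (D R d : ℕ) : ℝ :=
  1 - (d : ℝ) * ∑ c ∈ (Icc 1 R).filter (fun c => d ∣ c), mu (c / d) * ww D c

/-- the Kloosterman sum -/
def KL (q : ℕ) [NeZero q] (a b : ZMod q) : ℂ :=
  ∑ u : (ZMod q)ˣ, ZMod.stdAddChar (a * ((u⁻¹ : (ZMod q)ˣ) : ZMod q) + b * (u : ZMod q))

/-- the incomplete sum of `e(a k̄ / q)` over `1 ≤ k ≤ K` prime to `q` -/
def IK (q : ℕ) [NeZero q] (a : ZMod q) (K : ℕ) : ℂ :=
  ∑ k ∈ (Icc 1 K).filter (fun k => Nat.Coprime k q), ZMod.stdAddChar (a * (k : ZMod q)⁻¹)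

/-- the Gaussian weight -/
def gs (L : ℝ) (m : ℤ) : ℝ := Real.exp (-Real.pi * ((m : ℝ) / L) ^ 2)

/-- two different primes not dividing `r` -/
structure PP (p p' : ℕ) (r : ℤ) : Prop where
  pr : p.Prime
  pr' : p'.Prime
  ne : p ≠ p'
  dv : ¬ (p : ℤ) ∣ r
  dv' : ¬ (p' : ℤ) ∣ r

/-- the determinant -/
def n0 (p p' : ℕ) (r : ℤ) : ℕ := (r * ((p : ℤ) - p')).natAbs

/-- the weighted number of common solutions of `d ∣ p m - r`, `d' ∣ p' m - r` -/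
def TT (L : ℝ) (p p' : ℕ) (r : ℤ) (d d' : ℕ) : ℝ :=
  ∑' m : ℤ, if (d : ℤ) ∣ p * m - r ∧ (d' : ℤ) ∣ p' * m - r then gs L m else 0

/-- `1` if the two congruences have a common solution, `0` otherwise -/
def rh (p p' : ℕ) (r : ℤ) (d d' : ℕ) : ℝ :=
  if ¬ p ∣ d ∧ ¬ p' ∣ d' ∧ Nat.gcd d d' ∣ n0 p p' r then 1 else 0

/-- the error term -/
def EE (L : ℝ) (p p' : ℕ) (r : ℤ) (d d' : ℕ) : ℝ :=
  TT L p p' r d d' - rh p p' r d d' * (L / (Nat.lcm d d' : ℕ))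

/-- the numbers up to `D` all of whose prime factors divide `n` -/
def Ts (n D : ℕ) : Finset ℕ := (Icc 1 D).filter (fun t => t.primeFactors ⊆ n.primeFactors)

/-- the weight of the incomplete sums -/
def ph (L : ℝ) (l q : ℕ) (r h : ℤ) (k : ℕ) : ℂ :=
  ((L / (k * l) * Real.exp (-Real.pi * (L * h / (k * l)) ^ 2) : ℝ) : ℂ) * e ((h : ℝ) * r / (k * q))

/-- the mean value of `U(p m - r) U(p' m - r)` -/
def M2 (D R p p' : ℕ) (r : ℤ) : ℝ :=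
  ∑ d ∈ Icc 1 D, ∑ d' ∈ Icc 1 D, uu D R d * uu D R d' * rh p p' r d d' / (Nat.lcm d d' : ℕ)

/-- the size of the data -/
def Yy (L : ℝ) (p p' D : ℕ) (r : ℤ) : ℝ := (p : ℝ) * p' * D * |(r : ℝ)| * (1 + L)

end

end Pool.Agent.LSPD
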