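import Pool.Agent.Lib_helper19.LSPD.Defs
import Pool.Agent.Lib_helper19.LSPD.CNT
import Pool.Agent.Lib_helper19.LSPD.RHT

/-!
# LSPD block MNT: the main terms of the pairs with a large common part
-/

set_option autoImplicit false

namespace Pool.Agent.LSPD

open Pool.Agent.FG61 (mu cc)
open Pool.Agent.Var35 (e)
open Finset

theorem mnt_log {δ : ℝ} (hδ : 0 < δ) {x : ℝ} (hx : 1 ≤ x) :
    1 + Real.log x ≤ (1 + 1 / δ) * x ^ δ := by
  have h1 := Real.log_le_rpow_div (by linarith : (0 : ℝ) ≤ x) hδ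
  have h2 : (1 : ℝ) ≤ x ^ δ := Real.one_le_rpow hx hδ.le
  calc 1 + Real.log x ≤ x ^ δ + x ^ δ / δ := by linarith
    _ = (1 + 1 / δ) * x ^ δ := by ring

theorem mnt_harm (K : ℕ) : ∑ k ∈ Icc 1 K, 1 / (k : ℝ) ≤ 1 + Real.log K := by
  have h1 := harmonic_le_one_add_log K
  rw [harmonic_eq_sum_Icc] at h1
  push_cast at h1
  simpa [one_div] using h1

theorem mnt_mult {g D : ℕ} (hg : 1 ≤ g) :
    ∑ d ∈ (Icc 1 D).filter (fun d => g ∣ d), (g : ℝ) / d ≤ ∑ k ∈ Icc 1 D, 1 / (k : ℝ) := by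
  have h1 : (Icc 1 D).filter (fun d => g ∣ d) = (Icc 1 (D / g)).image (fun j => g * j) := by
    ext d
    simp only [mem_filter, mem_Icc, mem_image]
    constructor
    · rintro ⟨⟨h1, h2⟩, j, rfl⟩
      refine ⟨j, ⟨?_, ?_⟩, rfl⟩
      · rcases Nat.eq_zero_or_pos j with h0 | h0
        · subst h0; simp at h1
        · exact h0
      · rw [Nat.le_div_iff_mul_le (by omega), mul_comm]; exact h2
    · rintro ⟨j, ⟨h1, h2⟩, rfl⟩
      rw [Nat.le_div_iff_mul_le (by omega), mul_comm] at h2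
      exact ⟨⟨Nat.one_le_iff_ne_zero.mpr (Nat.mul_ne_zero (by omega) (by omega)), h2⟩,
        dvd_mul_right _ _⟩
  have hg0 : (0 : ℝ) < g := by exact_mod_cast hg
  rw [h1, sum_image (fun a _ b _ hab => Nat.eq_of_mul_eq_mul_left (by omega) hab)]
  have h2 : ∑ j ∈ Icc 1 (D / g), (g : ℝ) / ((g * j : ℕ) : ℝ) = ∑ j ∈ Icc 1 (D / g), 1 / (j : ℝ) := by
    apply sum_congr rfl
    intro j hj
    have hj0 : (0 : ℝ) < j := by exact_mod_cast (mem_Icc.mp hj).1
    push_cast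
    field_simp
  rw [h2]
  apply sum_le_sum_of_subset_of_nonneg
  · exact Icc_subset_Icc le_rfl (Nat.div_le_self _ _)
  · intro i _ _; positivity

/-- `∑_{d ≤ D} (t, d) / d ≤ τ(t) (1 + log D)` -/
theorem mnt_gcd {t D : ℕ} (ht : 1 ≤ t) :
    ∑ d ∈ Icc 1 D, (Nat.gcd t d : ℝ) / d ≤ tau t * (1 + Real.log D) := by
  have h1 : ∀ d ∈ Icc 1 D, (Nat.gcd t d : ℝ) / d ≤
      ∑ g ∈ t.divisors, if g ∣ d then (g : ℝ) / d else 0 := by
    intro d hd
    have hm : Nat.gcd t d ∈ t.divisors :=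
      Nat.mem_divisors.mpr ⟨Nat.gcd_dvd_left _ _, by omega⟩
    have h2 := single_le_sum (f := fun g : ℕ => if g ∣ d then (g : ℝ) / d else 0)
      (fun g _ => by split_ifs <;> positivity) hm
    simpa [Nat.gcd_dvd_right] using h2
  refine (sum_le_sum h1).trans ?_
  rw [sum_comm]
  have h3 : ∀ g ∈ t.divisors, ∑ d ∈ Icc 1 D, (if g ∣ d then (g : ℝ) / d else 0) ≤
      1 + Real.log D := by
    intro g hg
    rw [← sum_filter]
    exact (mnt_mult (Nat.pos_of_mem_divisors hg)).trans (mnt_harm D)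
  refine (sum_le_sum h3).trans ?_
  rw [sum_const, nsmul_eq_mul, tau]

/-- one term -/
theorem mnt_term {L : ℝ} (hL : 1 ≤ L) {p p' : ℕ} {r : ℤ} (h : PP p p' r) {t k d' : ℕ}
    (ht : 1 ≤ t) (hk : 1 ≤ k) (hd' : 1 ≤ d') (h1 : t.primeFactors ⊆ d'.primeFactors)
    (h2 : Nat.Coprime k d') :
    rh p p' r (t * k) d' * (L / (Nat.lcm (t * k) d' : ℕ)) ≤
      (if t.primeFactors ⊆ (n0 p p' r).primeFactors then
        L / t * ((Nat.gcd t d' : ℝ) / d') else 0) * (1 / (k : ℝ)) := by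
  obtain ⟨_, h4, h5, _⟩ := rh_t h ht hk hd' h1 h2
  have ht0 : (0 : ℝ) < t := by exact_mod_cast ht
  have hk0 : (0 : ℝ) < k := by exact_mod_cast hk
  have hd0 : (0 : ℝ) < d' := by exact_mod_cast hd'
  by_cases hr : rh p p' r (t * k) d' = 1
  · rw [hr, if_pos (h4 hr), h5, one_mul]
    have h6 : (Nat.gcd t d' : ℝ) * (Nat.lcm t d' : ℕ) = t * d' := by
      exact_mod_cast Nat.gcd_mul_lcm t d'
    have h7 : (0 : ℝ) < (Nat.lcm t d' : ℕ) := by
      exact_mod_cast Nat.lcm_pos (by omega) (by omega)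
    have h8 : L / ((k * Nat.lcm t d' : ℕ) : ℝ) = L / t * ((Nat.gcd t d' : ℝ) / d') * (1 / (k : ℝ)) := by
      push_cast
      have h9 : (Nat.gcd t d' : ℝ) = t * d' / (Nat.lcm t d' : ℕ) := by
        rw [eq_div_iff h7.ne']; exact h6
      rw [h9]
      field_simp
    exact h8.le
  · have hr0 : rh p p' r (t * k) d' = 0 := by
      unfold rh at hr ⊢
      split_ifs at hr ⊢ with h9
      · exact absurd rfl hr
      · rfl
    rw [hr0, zero_mul]
    split_ifs <;> positivity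

/-- block MNT -/
theorem mn_t_pr {ε : ℝ} (hε : 0 < ε) : ∃ C : ℝ, 1 ≤ C ∧ ∀ {L : ℝ}, 1 ≤ L → ∀ {p p' : ℕ} {r : ℤ},
    PP p p' r → ∀ {D T₀ : ℕ}, 1 ≤ D → 1 ≤ T₀ →
    ∑ d' ∈ Icc 1 D, ∑ t ∈ (Icc 1 D).filter (fun t => t.primeFactors ⊆ d'.primeFactors ∧ T₀ < t),
      ∑ k ∈ (Icc 1 (D / t)).filter (fun k => Nat.Coprime k d'),
        rh p p' r (t * k) d' * (L / (Nat.lcm (t * k) d' : ℕ)) ≤
      C * Yy L p p' D r ^ ε * (L / T₀) := by
  set δ : ℝ := ε / 4 with hδd
  have hδ : 0 < δ := by positivity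
  obtain ⟨C₁, hC₁, hdiv⟩ := FG61.divisor_bound hδ
  obtain ⟨C₂, hC₂, hts⟩ := ts_card hδ
  refine ⟨max 1 ((1 + 1 / δ) ^ 2 * C₁ * C₂), le_max_left _ _, ?_⟩
  intro L hL p p' r h D T₀ hD hT
  have hD1 : (1 : ℝ) ≤ D := by exact_mod_cast hD
  have hD0 : (0 : ℝ) < D := by linarith
  have hT0 : (0 : ℝ) < T₀ := by exact_mod_cast hT
  set H : ℝ := 1 + Real.log D with hH
  have hH0 : 0 ≤ H := by have := Real.log_nonneg hD1; linarith
  have hL0 : 0 < L := by linarith
  -- step 1: the sum over k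
  have hA : ∀ d' ∈ Icc 1 D, ∑ t ∈ (Icc 1 D).filter (fun t => t.primeFactors ⊆ d'.primeFactors ∧ T₀ < t),
      ∑ k ∈ (Icc 1 (D / t)).filter (fun k => Nat.Coprime k d'),
        rh p p' r (t * k) d' * (L / (Nat.lcm (t * k) d' : ℕ)) ≤
      ∑ t ∈ (Icc 1 D).filter (fun t => T₀ < t ∧ t.primeFactors ⊆ (n0 p p' r).primeFactors),
        L / t * H * ((Nat.gcd t d' : ℝ) / d') := by
    intro d' hd'
    have hd1 := (mem_Icc.mp hd').1
    have hd0 : (0 : ℝ) < d' := by exact_mod_cast hd1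
    have hB : ∀ t ∈ (Icc 1 D).filter (fun t => t.primeFactors ⊆ d'.primeFactors ∧ T₀ < t),
        ∑ k ∈ (Icc 1 (D / t)).filter (fun k => Nat.Coprime k d'),
          rh p p' r (t * k) d' * (L / (Nat.lcm (t * k) d' : ℕ)) ≤
        if t.primeFactors ⊆ (n0 p p' r).primeFactors then
          L / t * H * ((Nat.gcd t d' : ℝ) / d') else 0 := by
      intro t ht
      rw [mem_filter, mem_Icc] at ht
      have ht0 : (0 : ℝ) < t := by exact_mod_cast ht.1.1
      have hE : ∑ k ∈ (Icc 1 (D / t)).filter (fun k => Nat.Coprime k d'),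
          rh p p' r (t * k) d' * (L / (Nat.lcm (t * k) d' : ℕ)) ≤
          ∑ k ∈ (Icc 1 (D / t)).filter (fun k => Nat.Coprime k d'),
          (if t.primeFactors ⊆ (n0 p p' r).primeFactors then
            L / t * ((Nat.gcd t d' : ℝ) / d') else 0) * (1 / (k : ℝ)) := by
        apply sum_le_sum
        intro k hk
        rw [mem_filter, mem_Icc] at hk
        exact mnt_term hL h ht.1.1 hk.1.1 hd1 ht.2.1 hk.2
      refine hE.trans ?_
      · rw [← mul_sum]
        have h1 : ∑ k ∈ (Icc 1 (D / t)).filter (fun k => Nat.Coprime k d'), 1 / (k : ℝ) ≤ H := by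
          refine le_trans ?_ (mnt_harm D)
          apply sum_le_sum_of_subset_of_nonneg
          · exact (filter_subset _ _).trans (Icc_subset_Icc le_rfl (Nat.div_le_self _ _))
          · intro i _ _; positivity
        split_ifs
        · calc L / t * ((Nat.gcd t d' : ℝ) / d') * _ ≤ L / t * ((Nat.gcd t d' : ℝ) / d') * H :=
              mul_le_mul_of_nonneg_left h1 (by positivity)
            _ = L / t * H * ((Nat.gcd t d' : ℝ) / d') := by ring
        · simp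
    refine (sum_le_sum hB).trans ?_
    rw [← sum_filter]
    apply sum_le_sum_of_subset_of_nonneg
    · intro t ht
      simp only [mem_filter] at ht ⊢
      exact ⟨ht.1.1, ht.1.2.2, ht.2⟩
    · intro t ht _
      positivity
  refine (sum_le_sum hA).trans ?_
  rw [sum_comm]
  -- step 2: the sum over d' and t
  have hY : (D : ℝ) ≤ Yy L p p' D r ∧ ((n0 p p' r : ℕ) : ℝ) * D ≤ Yy L p p' D r := by
    have hp : (1 : ℝ) ≤ p := by exact_mod_cast h.pr.one_lt.le
    have hp' : (1 : ℝ) ≤ p' := by exact_mod_cast h.pr'.one_lt.le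
    have hr0 : r ≠ 0 := by
      intro h0
      exact h.dv (h0 ▸ dvd_zero _)
    have hr : (1 : ℝ) ≤ |(r : ℝ)| := by
      have : (1 : ℤ) ≤ |r| := Int.one_le_abs hr0
      exact_mod_cast this
    have hpp : (1 : ℝ) ≤ (p : ℝ) * p' := by nlinarith
    have h1 : ((n0 p p' r : ℕ) : ℝ) = |(r : ℝ)| * |(p : ℝ) - p'| := by
      unfold n0
      rw [Nat.cast_natAbs]
      push_cast
      rw [abs_mul]
    have h2 : |(p : ℝ) - p'| ≤ (p : ℝ) * p' := by
      rw [abs_le]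
      constructor <;> nlinarith
    have h3 : (1 : ℝ) ≤ 1 + L := by linarith
    unfold Yy
    constructor
    · calc (D : ℝ) = 1 * D * 1 * 1 := by ring
        _ ≤ (p : ℝ) * p' * D * |(r : ℝ)| * (1 + L) := by gcongr
    · rw [h1]
      calc |(r : ℝ)| * |(p : ℝ) - p'| * D = |(p : ℝ) - p'| * D * |(r : ℝ)| * 1 := by ring
        _ ≤ (p : ℝ) * p' * D * |(r : ℝ)| * (1 + L) := by gcongr
  obtain ⟨hY1, hY2⟩ := hY
  have hY0 : 0 < Yy L p p' D r := by linarith
  have hn0 : 1 ≤ n0 p p' r := by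
    unfold n0
    rw [Nat.one_le_iff_ne_zero, Int.natAbs_ne_zero]
    apply mul_ne_zero
    · intro h0; exact h.dv (h0 ▸ dvd_zero _)
    · intro h0
      apply h.ne
      have : (p : ℤ) = p' := by linarith
      exact_mod_cast this
  have hC : ∀ t ∈ (Icc 1 D).filter (fun t => T₀ < t ∧ t.primeFactors ⊆ (n0 p p' r).primeFactors),
      ∑ d' ∈ Icc 1 D, L / t * H * ((Nat.gcd t d' : ℝ) / d') ≤
        L / T₀ * (H ^ 2 * (C₁ * (D : ℝ) ^ δ)) := by
    intro t ht
    rw [mem_filter, mem_Icc] at ht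
    have ht0 : (0 : ℝ) < t := by exact_mod_cast ht.1.1
    have hTt : (T₀ : ℝ) ≤ t := by exact_mod_cast ht.2.1.le
    have htD : (t : ℝ) ≤ D := by exact_mod_cast ht.1.2
    rw [← mul_sum]
    have h1 : tau t ≤ C₁ * (D : ℝ) ^ δ := by
      refine (hdiv t ht.1.1).trans ?_
      exact mul_le_mul_of_nonneg_left (Real.rpow_le_rpow ht0.le htD hδ.le) hC₁.le
    have h2 : L / t ≤ L / T₀ := div_le_div_of_nonneg_left hL0.le hT0 hTt
    calc L / t * H * ∑ d' ∈ Icc 1 D, ((Nat.gcd t d' : ℝ) / d') ≤ L / t * H * (tau t * H) := by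
          apply mul_le_mul_of_nonneg_left (mnt_gcd ht.1.1) (by positivity)
      _ = L / t * (H ^ 2 * tau t) := by ring
      _ ≤ L / T₀ * (H ^ 2 * (C₁ * (D : ℝ) ^ δ)) := by
          apply mul_le_mul h2 _ (by unfold tau; positivity) (by positivity)
          exact mul_le_mul_of_nonneg_left h1 (by positivity)
  refine (sum_le_sum hC).trans ?_
  rw [sum_const, nsmul_eq_mul]
  have hcard : ((((Icc 1 D).filter (fun t => T₀ < t ∧
      t.primeFactors ⊆ (n0 p p' r).primeFactors)).card : ℕ) : ℝ) ≤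
      C₂ * (((n0 p p' r : ℕ) : ℝ) * D) ^ δ := by
    refine le_trans ?_ (hts (n0 p p' r) D hn0 hD)
    exact_mod_cast card_le_card (fun t ht => by
      simp only [Ts, mem_filter] at ht ⊢
      exact ⟨ht.1, ht.2.2⟩)
  have hH2 : H ^ 2 ≤ ((1 + 1 / δ) * Yy L p p' D r ^ δ) ^ 2 := by
    apply pow_le_pow_left₀ hH0
    refine (mnt_log hδ hD1).trans ?_
    exact mul_le_mul_of_nonneg_left (Real.rpow_le_rpow hD0.le hY1 hδ.le) (by positivity)
  have hY3 : (D : ℝ) ^ δ ≤ Yy L p p' D r ^ δ := Real.rpow_le_rpow hD0.le hY1 hδ.le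
  have hY4 : (((n0 p p' r : ℕ) : ℝ) * D) ^ δ ≤ Yy L p p' D r ^ δ :=
    Real.rpow_le_rpow (by positivity) hY2 hδ.le
  have hY5 : Yy L p p' D r ^ ε = (Yy L p p' D r ^ δ) ^ 4 := by
    rw [← Real.rpow_natCast, ← Real.rpow_mul hY0.le]
    congr 1
    rw [hδd]; push_cast; ring
  set y := Yy L p p' D r ^ δ with hy
  have hy0 : 0 < y := Real.rpow_pos_of_pos hY0 _
  calc _ ≤ (C₂ * y) * (L / T₀ * (((1 + 1 / δ) * y) ^ 2 * (C₁ * y))) := by
        apply mul_le_mul (hcard.trans (mul_le_mul_of_nonneg_left hY4 (by linarith))) _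
          (by positivity) (by positivity)
        apply mul_le_mul_of_nonneg_left _ (by positivity)
        exact mul_le_mul hH2 (mul_le_mul_of_nonneg_left hY3 hC₁.le) (by positivity) (by positivity)
    _ = ((1 + 1 / δ) ^ 2 * C₁ * C₂) * Yy L p p' D r ^ ε * (L / T₀) := by
        rw [hY5]; ring
    _ ≤ max 1 ((1 + 1 / δ) ^ 2 * C₁ * C₂) * Yy L p p' D r ^ ε * (L / T₀) := by
        gcongr
        exact le_max_right _ _

end Pool.Agent.LSPD

namespace Pool.Agent.LSPD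

alias mn_t := mn_t_pr

end Pool.Agent.LSPD
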