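import Pool.Agent.Lib_helper19.LSPD.Defs
import Pool.Agent.Lib_helper19.LSPD.BIG
import Pool.Agent.Lib_helper19.LSPD.CLS
import Pool.Agent.Lib_helper19.LSPD.CNT
import Pool.Agent.Lib_helper19.LSPD.FAC
import Pool.Agent.Lib_helper19.LSPD.MNT
import Pool.Agent.Lib_helper19.LSPD.RHT
import Pool.Agent.Lib_helper19.LSPD.TQQ

/-! LSP, part D, block COR. -/

set_option autoImplicit false

namespace Pool.Agent.LSPD

open Pool.Agent.FG61 (mu cc)
open Pool.Agent.Var35 (e)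
open Finset

noncomputable section

theorem cor_Hn (D : ℕ) : Hn D ≤ 1 + Real.log D := by
  have h := harmonic_le_one_add_log D
  have h2 : ((harmonic D : ℚ) : ℝ) = Hn D := by
    rw [harmonic_eq_sum_Icc]
    unfold Hn
    push_cast
    refine Finset.sum_congr rfl fun i _ => ?_
    rw [one_div]
  rw [← h2]
  exact h

theorem cor_gcd {n : ℕ} (hn : 1 ≤ n) (D : ℕ) :
    ∑ d ∈ Icc 1 D, ((Nat.gcd n d : ℕ) : ℝ) / d ≤ tau n * Hn D := by
  have h1 : ∀ d ∈ Icc 1 D, ((Nat.gcd n d : ℕ) : ℝ) / d ≤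
      ∑ g ∈ n.divisors, if g ∣ d then (g : ℝ) / d else 0 := by
    intro d hd
    have hm : Nat.gcd n d ∈ n.divisors :=
      Nat.mem_divisors.2 ⟨Nat.gcd_dvd_left _ _, by omega⟩
    calc ((Nat.gcd n d : ℕ) : ℝ) / d = if Nat.gcd n d ∣ d then ((Nat.gcd n d : ℕ) : ℝ) / d else 0 := by
          rw [if_pos (Nat.gcd_dvd_right _ _)]
      _ ≤ _ := Finset.single_le_sum (f := fun g : ℕ => if g ∣ d then (g : ℝ) / d else 0)
          (fun g _ => by split_ifs <;> positivity) hm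
  calc _ ≤ ∑ d ∈ Icc 1 D, ∑ g ∈ n.divisors, (if g ∣ d then (g : ℝ) / d else 0) :=
        Finset.sum_le_sum h1
    _ = ∑ g ∈ n.divisors, ∑ d ∈ Icc 1 D, (if g ∣ d then (g : ℝ) / d else 0) := Finset.sum_comm
    _ ≤ ∑ g ∈ n.divisors, Hn D := by
        refine Finset.sum_le_sum fun g hg => ?_
        have hg1 : 1 ≤ g := Nat.pos_of_mem_divisors hg
        rw [← Finset.sum_filter]
        have h2 : (Icc 1 D).filter (fun d => g ∣ d) = (Icc 1 (D / g)).image (fun j => g * j) := by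
          ext d
          simp only [mem_filter, mem_Icc, mem_image]
          constructor
          · rintro ⟨⟨h1, h2⟩, ⟨j, rfl⟩⟩
            refine ⟨j, ⟨?_, ?_⟩, rfl⟩
            · exact Nat.pos_of_ne_zero (by rintro rfl; simp at h1)
            · rw [Nat.le_div_iff_mul_le hg1, mul_comm]
              exact h2
          · rintro ⟨j, ⟨h1, h2⟩, rfl⟩
            refine ⟨⟨Nat.mul_pos hg1 h1, ?_⟩, Dvd.intro _ rfl⟩
            calc g * j ≤ g * (D / g) := Nat.mul_le_mul_left _ h2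
              _ ≤ D := Nat.mul_div_le _ _
        rw [h2, Finset.sum_image (by intro a _ b _ h; exact Nat.eq_of_mul_eq_mul_left hg1 h)]
        calc ∑ j ∈ Icc 1 (D / g), (g : ℝ) / ((g * j : ℕ) : ℝ)
            = ∑ j ∈ Icc 1 (D / g), 1 / (j : ℝ) := by
              refine Finset.sum_congr rfl fun j hj => ?_
              have hj1 : 1 ≤ j := (mem_Icc.1 hj).1
              have hg0 : (g : ℝ) ≠ 0 := by positivity
              have hj0 : (j : ℝ) ≠ 0 := by positivity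
              push_cast
              field_simp
          _ ≤ Hn D := by
              unfold Hn
              exact Finset.sum_le_sum_of_subset_of_nonneg
                (Icc_subset_Icc_right (Nat.div_le_self _ _)) (fun _ _ _ => by positivity)
    _ = tau n * Hn D := by simp [tau]

theorem cor_rh01 (p p' : ℕ) (r : ℤ) (d d' : ℕ) : rh p p' r d d' = 0 ∨ rh p p' r d d' = 1 := by
  unfold rh
  split_ifs <;> simp

theorem cor_ee_zero {L : ℝ} {p p' : ℕ} {r : ℤ} (h : PP p p' r) {d d' : ℕ} (hd : 1 ≤ d)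
    (hd' : 1 ≤ d') (h0 : rh p p' r d d' = 0) : EE L p p' r d d' = 0 := by
  have h1 := (cls h hd hd').2 h0
  unfold EE TT
  rw [h0]
  have h2 : (fun m : ℤ => if (d : ℤ) ∣ p * m - r ∧ (d' : ℤ) ∣ p' * m - r then gs L m else 0) =
      fun _ => 0 := by
    funext m
    rw [if_neg (h1 m)]
  rw [h2]
  simp

theorem cor_r0 {p p' : ℕ} {r : ℤ} (h : PP p p' r) : r ≠ 0 := by
  rintro rfl
  exact h.dv (dvd_zero _)

theorem cor_r1 {p p' : ℕ} {r : ℤ} (h : PP p p' r) : (1 : ℝ) ≤ |(r : ℝ)| := by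
  have h1 : (1 : ℤ) ≤ |r| := Int.one_le_abs (cor_r0 h)
  exact_mod_cast h1

theorem cor_n0 {p p' : ℕ} {r : ℤ} (h : PP p p' r) : 1 ≤ n0 p p' r := by
  unfold n0
  have h1 : r * ((p : ℤ) - p') ≠ 0 := by
    refine mul_ne_zero (cor_r0 h) ?_
    intro h2
    apply h.ne
    have : (p : ℤ) = p' := by linarith
    exact_mod_cast this
  exact Int.natAbs_pos.2 h1

theorem cor_n0_le {p p' : ℕ} {r : ℤ} (h : PP p p' r) :
    (n0 p p' r : ℝ) ≤ (p : ℝ) * p' * |(r : ℝ)| := by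
  have h1 : ((n0 p p' r : ℕ) : ℝ) = |(r : ℝ)| * |(p : ℝ) - p'| := by
    unfold n0
    rw [Nat.cast_natAbs]
    push_cast
    rw [abs_mul]
  rw [h1]
  have hp : (1 : ℝ) ≤ p := by exact_mod_cast h.pr.one_lt.le
  have hp' : (1 : ℝ) ≤ p' := by exact_mod_cast h.pr'.one_lt.le
  have h2 : |(p : ℝ) - p'| ≤ (p : ℝ) * p' := by
    rw [abs_le]
    constructor <;> nlinarith
  calc |(r : ℝ)| * |(p : ℝ) - p'| ≤ |(r : ℝ)| * ((p : ℝ) * p') :=
        mul_le_mul_of_nonneg_left h2 (abs_nonneg _)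
    _ = _ := by ring

theorem cor_Y {L : ℝ} (hL : 1 ≤ L) {p p' : ℕ} {r : ℤ} (h : PP p p' r) {D : ℕ} (hD : 1 ≤ D) :
    1 ≤ Yy L p p' D r ∧ (D : ℝ) ≤ Yy L p p' D r ∧ (n0 p p' r : ℝ) * D ≤ Yy L p p' D r ∧
      (n0 p p' r : ℝ) ≤ Yy L p p' D r := by
  have hp : (1 : ℝ) ≤ p := by exact_mod_cast h.pr.one_lt.le
  have hp' : (1 : ℝ) ≤ p' := by exact_mod_cast h.pr'.one_lt.le
  have hr := cor_r1 h
  have hD' : (1 : ℝ) ≤ D := by exact_mod_cast hD
  have hn := cor_n0_le h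
  have hn1 : (1 : ℝ) ≤ n0 p p' r := by exact_mod_cast cor_n0 h
  have hY : Yy L p p' D r = ((p : ℝ) * p' * |(r : ℝ)|) * D * (1 + L) := by
    unfold Yy
    ring
  have h3 : (n0 p p' r : ℝ) * D ≤ Yy L p p' D r := by
    rw [hY]
    have h4 : (n0 p p' r : ℝ) * D ≤ ((p : ℝ) * p' * |(r : ℝ)|) * D :=
      mul_le_mul_of_nonneg_right hn (by positivity)
    have h5 : 0 ≤ ((p : ℝ) * p' * |(r : ℝ)|) * D := by positivity
    nlinarith
  have h6 : (D : ℝ) ≤ (n0 p p' r : ℝ) * D := by nlinarith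
  have h7 : (n0 p p' r : ℝ) ≤ (n0 p p' r : ℝ) * D := by nlinarith
  exact ⟨by linarith, by linarith, h3, by linarith⟩

theorem cor_log {δ : ℝ} (hδ : 0 < δ) {x y : ℝ} (hx : 1 ≤ x) (hy : x ≤ y) :
    1 + Real.log x ≤ (1 + 1 / δ) * y ^ δ := by
  have h1 : Real.log x ≤ x ^ δ / δ := Real.log_le_rpow_div (by linarith) hδ
  have h2 : x ^ δ ≤ y ^ δ := Real.rpow_le_rpow (by linarith) hy hδ.le
  have h3 : 1 ≤ y ^ δ := Real.one_le_rpow (by linarith) hδ.le
  have h4 : x ^ δ / δ ≤ y ^ δ / δ := div_le_div_of_nonneg_right h2 hδ.le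
  have h5 : (1 + 1 / δ) * y ^ δ = y ^ δ + y ^ δ / δ := by ring
  rw [h5]
  linarith

theorem cor_TT_nonneg (L : ℝ) (p p' : ℕ) (r : ℤ) (d d' : ℕ) : 0 ≤ TT L p p' r d d' := by
  unfold TT
  refine tsum_nonneg fun m => ?_
  split_ifs
  · exact (Real.exp_pos _).le
  · exact le_rfl

theorem cor_rh_nonneg (p p' : ℕ) (r : ℤ) (d d' : ℕ) : 0 ≤ rh p p' r d d' := by
  rcases cor_rh01 p p' r d d' with h | h <;> rw [h] <;> norm_num

/-- block COR -/
theorem cor_pr {ε : ℝ} (hε : 0 < ε) : ∃ C : ℝ, 1 ≤ C ∧ ∀ {L : ℝ}, 1 ≤ L → ∀ {p p' : ℕ} {r : ℤ},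
    PP p p' r → ∀ {D T₀ : ℕ}, 1 ≤ D → 1 ≤ T₀ →
    |∑ d' ∈ Icc 1 D, ∑ d ∈ Icc 1 D, EE L p p' r d d'| ≤
      C * Yy L p p' D r ^ ε * (L / T₀ + 1 + (1 + |(r : ℝ)| / (p * L)) *
        ((D : ℝ) + (D : ℝ) ^ (7 / 4 : ℝ) * ((p : ℝ) * T₀) ^ (3 / 4 : ℝ))) := by
  have hδ : 0 < ε / 8 := by positivity
  obtain ⟨C₁, hC₁, H₁⟩ := tqq hδ
  obtain ⟨C₂, hC₂, H₂⟩ := ts_card hδ
  obtain ⟨C₃, hC₃, H₃⟩ := big_t hε
  obtain ⟨C₄, hC₄, H₄⟩ := mn_t hε
  obtain ⟨C₅, hC₅, H₅⟩ := Pool.Agent.FG61.divisor_bound hδ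
  set C₆ : ℝ := 1 + C₅ * (1 + 1 / (ε / 8)) with hC₆
  have hC₆1 : 1 ≤ C₆ := by
    have : 0 ≤ C₅ * (1 + 1 / (ε / 8)) := by positivity
    linarith
  refine ⟨C₃ + C₄ + C₁ * C₂ * C₆, ?_, ?_⟩
  · have : 0 ≤ C₁ * C₂ * C₆ := by positivity
    linarith
  intro L hL p p' r h D T₀ hD hT
  obtain ⟨hY1, hYD, hYnD, hYn⟩ := cor_Y hL h hD
  set Y : ℝ := Yy L p p' D r with hY
  have hY0 : 0 < Y := by linarith
  have hp : (1 : ℝ) ≤ p := by exact_mod_cast h.pr.one_lt.le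
  have hD' : (1 : ℝ) ≤ D := by exact_mod_cast hD
  have hT' : (1 : ℝ) ≤ T₀ := by exact_mod_cast hT
  have hL0 : 0 < L := by linarith
  set F : ℕ → Finset ℕ := fun d' => (Icc 1 D).filter (fun t => t.primeFactors ⊆ d'.primeFactors)
    with hF
  set K : ℕ → ℕ → Finset ℕ := fun d' t => (Icc 1 (D / t)).filter (fun k => Nat.Coprime k d')
    with hK
  set ρ : ℝ := 1 + |(r : ℝ)| / (p * L) with hρ
  have hρ1 : 1 ≤ ρ := by
    have : 0 ≤ |(r : ℝ)| / (p * L) := by positivity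
    linarith
  have hsplit : ∑ d' ∈ Icc 1 D, ∑ d ∈ Icc 1 D, EE L p p' r d d' =
      ∑ d' ∈ Icc 1 D, ∑ t ∈ (F d').filter (fun t => T₀ < t), ∑ k ∈ K d' t,
        EE L p p' r (t * k) d' +
      ∑ d' ∈ Icc 1 D, ∑ t ∈ (F d').filter (fun t => ¬ T₀ < t), ∑ k ∈ K d' t,
        EE L p p' r (t * k) d' := by
    rw [← Finset.sum_add_distrib]
    refine Finset.sum_congr rfl fun d' hd' => ?_
    rw [fac (mem_Icc.1 hd').1 D (fun d => EE L p p' r d d'),
      Finset.sum_filter_add_sum_filter_not]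
  have hlarge : |∑ d' ∈ Icc 1 D, ∑ t ∈ (F d').filter (fun t => T₀ < t), ∑ k ∈ K d' t,
        EE L p p' r (t * k) d'| ≤ (C₃ + C₄) * Y ^ ε * (L / T₀ + 1) := by
    have h3 := H₃ hL h hD hT
    have h4 := H₄ hL h hD hT
    have e1 : ∑ d' ∈ Icc 1 D, ∑ t ∈ (F d').filter (fun t => T₀ < t), ∑ k ∈ K d' t,
        EE L p p' r (t * k) d' =
        ∑ d' ∈ Icc 1 D, ∑ t ∈ (Icc 1 D).filter (fun t => t.primeFactors ⊆ d'.primeFactors ∧ T₀ < t),
          ∑ k ∈ (Icc 1 (D / t)).filter (fun k => Nat.Coprime k d'), TT L p p' r (t * k) d' -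
        ∑ d' ∈ Icc 1 D, ∑ t ∈ (Icc 1 D).filter (fun t => t.primeFactors ⊆ d'.primeFactors ∧ T₀ < t),
          ∑ k ∈ (Icc 1 (D / t)).filter (fun k => Nat.Coprime k d'),
            rh p p' r (t * k) d' * (L / (Nat.lcm (t * k) d' : ℕ)) := by
      rw [← Finset.sum_sub_distrib]
      refine Finset.sum_congr rfl fun d' _ => ?_
      rw [← Finset.sum_sub_distrib, hF, Finset.filter_filter]
      refine Finset.sum_congr rfl fun t _ => ?_
      rw [← Finset.sum_sub_distrib]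
      rfl
    rw [e1]
    have n1 : 0 ≤ ∑ d' ∈ Icc 1 D,
        ∑ t ∈ (Icc 1 D).filter (fun t => t.primeFactors ⊆ d'.primeFactors ∧ T₀ < t),
          ∑ k ∈ (Icc 1 (D / t)).filter (fun k => Nat.Coprime k d'), TT L p p' r (t * k) d' :=
      Finset.sum_nonneg fun _ _ => Finset.sum_nonneg fun _ _ => Finset.sum_nonneg fun _ _ =>
        cor_TT_nonneg _ _ _ _ _ _
    have n2 : 0 ≤ ∑ d' ∈ Icc 1 D,
        ∑ t ∈ (Icc 1 D).filter (fun t => t.primeFactors ⊆ d'.primeFactors ∧ T₀ < t),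
          ∑ k ∈ (Icc 1 (D / t)).filter (fun k => Nat.Coprime k d'),
            rh p p' r (t * k) d' * (L / (Nat.lcm (t * k) d' : ℕ)) :=
      Finset.sum_nonneg fun _ _ => Finset.sum_nonneg fun _ _ => Finset.sum_nonneg fun _ _ =>
        mul_nonneg (cor_rh_nonneg _ _ _ _ _) (by positivity)
    have h5 : C₄ * Y ^ ε * (L / T₀) ≤ C₄ * Y ^ ε * (L / T₀ + 1) := by
      refine mul_le_mul_of_nonneg_left (by linarith) (by positivity)
    have h6 : (C₃ + C₄) * Y ^ ε * (L / T₀ + 1) =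
        C₃ * Y ^ ε * (L / T₀ + 1) + C₄ * Y ^ ε * (L / T₀ + 1) := by ring
    rw [h6, abs_le]
    constructor
    · have : 0 ≤ C₃ * Y ^ ε * (L / T₀ + 1) := by positivity
      linarith
    · have : 0 ≤ C₄ * Y ^ ε * (L / T₀ + 1) := by positivity
      linarith
  -- the small part
  set Bd : ℕ → ℝ := fun d' => C₁ * Y ^ (ε / 8) * ρ *
    ((D : ℝ) * (Nat.gcd (n0 p p' r) d' : ℕ) / (p * d') + ((p : ℝ) * T₀ * D) ^ (3 / 4 : ℝ)) with hBd
  have hBd0 : ∀ d', 0 ≤ Bd d' := fun d' => by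
    rw [hBd]
    positivity
  have hG : ∀ d' ∈ Icc 1 D, ∀ t ∈ (F d').filter (fun t => ¬ T₀ < t),
      |∑ k ∈ K d' t, EE L p p' r (t * k) d'| ≤
        if t ∈ Ts (n0 p p' r) D then Bd d' else 0 := by
    intro d' hd' t ht
    obtain ⟨hd1, hd2⟩ := mem_Icc.1 hd'
    obtain ⟨ht1, ht2⟩ := mem_filter.1 ht
    obtain ⟨ht3, ht4⟩ := mem_filter.1 ht1
    obtain ⟨ht5, ht6⟩ := mem_Icc.1 ht3
    split_ifs with hT1
    · refine (H₁ hL h ht5 ht6 hd1 hd2 ht4).trans ?_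
      rw [hBd]
      refine mul_le_mul_of_nonneg_left ?_ (by positivity)
      refine add_le_add le_rfl ?_
      refine Real.rpow_le_rpow (by positivity) ?_ (by norm_num)
      have a1 : (t : ℝ) ≤ T₀ := by exact_mod_cast (not_lt.1 ht2)
      have a2 : (d' : ℝ) ≤ D := by exact_mod_cast hd2
      gcongr
    · have : ∑ k ∈ K d' t, EE L p p' r (t * k) d' = 0 := by
        refine Finset.sum_eq_zero fun k hk => ?_
        obtain ⟨hk1, hk2⟩ := mem_filter.1 hk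
        have hk3 := (mem_Icc.1 hk1).1
        rcases cor_rh01 p p' r (t * k) d' with h0 | h0
        · exact cor_ee_zero h (Nat.mul_pos ht5 hk3) hd1 h0
        · exfalso
          apply hT1
          unfold Ts
          rw [mem_filter]
          exact ⟨ht3, (rh_t h ht5 hk3 hd1 ht4 hk2).2.1 h0⟩
      rw [this, abs_zero]
  have hsmall : |∑ d' ∈ Icc 1 D, ∑ t ∈ (F d').filter (fun t => ¬ T₀ < t), ∑ k ∈ K d' t,
        EE L p p' r (t * k) d'| ≤ (C₁ * C₂ * C₆) * Y ^ ε * (ρ *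
        ((D : ℝ) + (D : ℝ) ^ (7 / 4 : ℝ) * ((p : ℝ) * T₀) ^ (3 / 4 : ℝ))) := by
    have s1 : |∑ d' ∈ Icc 1 D, ∑ t ∈ (F d').filter (fun t => ¬ T₀ < t), ∑ k ∈ K d' t,
        EE L p p' r (t * k) d'| ≤ ∑ d' ∈ Icc 1 D, ((Ts (n0 p p' r) D).card : ℝ) * Bd d' := by
      refine (Finset.abs_sum_le_sum_abs _ _).trans (Finset.sum_le_sum fun d' hd' => ?_)
      refine (Finset.abs_sum_le_sum_abs _ _).trans ?_
      refine (Finset.sum_le_sum (hG d' hd')).trans ?_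
      rw [← Finset.sum_filter]
      calc ∑ t ∈ ((F d').filter (fun t => ¬ T₀ < t)).filter (fun t => t ∈ Ts (n0 p p' r) D), Bd d'
          ≤ ∑ t ∈ Ts (n0 p p' r) D, Bd d' := by
            refine Finset.sum_le_sum_of_subset_of_nonneg ?_ (fun _ _ _ => hBd0 _)
            intro t ht
            exact (mem_filter.1 ht).2
        _ = _ := by rw [Finset.sum_const, nsmul_eq_mul]
    refine s1.trans ?_
    rw [← Finset.mul_sum, hBd, ← Finset.mul_sum, Finset.sum_add_distrib, Finset.sum_const]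
    have s2 : ∑ d' ∈ Icc 1 D, (D : ℝ) * (Nat.gcd (n0 p p' r) d' : ℕ) / (p * d') ≤
        (D : ℝ) * (tau (n0 p p' r) * (1 + Real.log D)) := by
      calc ∑ d' ∈ Icc 1 D, (D : ℝ) * (Nat.gcd (n0 p p' r) d' : ℕ) / (p * d')
          ≤ ∑ d' ∈ Icc 1 D, (D : ℝ) * (((Nat.gcd (n0 p p' r) d' : ℕ) : ℝ) / d') := by
            refine Finset.sum_le_sum fun d' hd' => ?_
            have hd1 : (1 : ℝ) ≤ d' := by exact_mod_cast (mem_Icc.1 hd').1
            rw [← mul_div_assoc]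
            refine div_le_div_of_nonneg_left (by positivity) (by positivity) ?_
            nlinarith
        _ = (D : ℝ) * ∑ d' ∈ Icc 1 D, (((Nat.gcd (n0 p p' r) d' : ℕ) : ℝ) / d') := by
            rw [Finset.mul_sum]
        _ ≤ (D : ℝ) * (tau (n0 p p' r) * Hn D) := by
            refine mul_le_mul_of_nonneg_left (cor_gcd (cor_n0 h) D) (by positivity)
        _ ≤ _ := by
            refine mul_le_mul_of_nonneg_left ?_ (by positivity)
            refine mul_le_mul_of_nonneg_left (cor_Hn D) ?_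
            unfold tau
            positivity
    have s3 : tau (n0 p p' r) ≤ C₅ * Y ^ (ε / 8) := by
      unfold tau
      refine (H₅ _ (cor_n0 h)).trans ?_
      refine mul_le_mul_of_nonneg_left ?_ hC₅.le
      exact Real.rpow_le_rpow (by positivity) hYn hδ.le
    have s4 : 1 + Real.log D ≤ (1 + 1 / (ε / 8)) * Y ^ (ε / 8) := cor_log hδ hD' hYD
    have s5 : ((Ts (n0 p p' r) D).card : ℝ) ≤ C₂ * Y ^ (ε / 8) := by
      refine (H₂ _ D (cor_n0 h) hD).trans ?_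
      refine mul_le_mul_of_nonneg_left ?_ (by linarith)
      exact Real.rpow_le_rpow (by positivity) hYnD hδ.le
    have s6 : ((Icc 1 D).card • ((p : ℝ) * T₀ * D) ^ (3 / 4 : ℝ) : ℝ) =
        (D : ℝ) ^ (7 / 4 : ℝ) * ((p : ℝ) * T₀) ^ (3 / 4 : ℝ) := by
      rw [Nat.card_Icc, nsmul_eq_mul, Nat.add_sub_cancel, Real.mul_rpow (by positivity)
        (by positivity)]
      have : (D : ℝ) ^ (7 / 4 : ℝ) = D * (D : ℝ) ^ (3 / 4 : ℝ) := by
        rw [show (7 / 4 : ℝ) = 1 + 3 / 4 by norm_num, Real.rpow_add (by positivity),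
          Real.rpow_one]
      rw [this]
      ring
    rw [s6]
    set Z : ℝ := (D : ℝ) ^ (7 / 4 : ℝ) * ((p : ℝ) * T₀) ^ (3 / 4 : ℝ) with hZ
    have hZ0 : 0 ≤ Z := by positivity
    set y : ℝ := Y ^ (ε / 8) with hy
    have hy1 : 1 ≤ y := Real.one_le_rpow hY1 hδ.le
    have hy8 : Y ^ ε = y ^ 8 := by
      rw [hy, ← Real.rpow_natCast, ← Real.rpow_mul hY0.le]
      congr 1
      push_cast
      ring
    have t1 : (∑ d' ∈ Icc 1 D, (D : ℝ) * (Nat.gcd (n0 p p' r) d' : ℕ) / (p * d')) + Z ≤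
        C₆ * y ^ 2 * (D + Z) := by
      have u1 : tau (n0 p p' r) * (1 + Real.log D) ≤
          (C₅ * y) * ((1 + 1 / (ε / 8)) * y) := by
        refine mul_le_mul s3 s4 ?_ (by positivity)
        have := Real.log_nonneg hD'
        linarith
      have u2 : (D : ℝ) * (tau (n0 p p' r) * (1 + Real.log D)) ≤
          D * ((C₅ * y) * ((1 + 1 / (ε / 8)) * y)) :=
        mul_le_mul_of_nonneg_left u1 (by positivity)
      have u3 : D * ((C₅ * y) * ((1 + 1 / (ε / 8)) * y)) ≤ C₆ * y ^ 2 * D := by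
        have : D * ((C₅ * y) * ((1 + 1 / (ε / 8)) * y)) = (C₆ - 1) * y ^ 2 * D := by
          rw [hC₆]
          ring
        rw [this]
        have : 0 ≤ y ^ 2 * D := by positivity
        nlinarith
      have u4 : Z ≤ C₆ * y ^ 2 * Z := by
        have : 1 ≤ C₆ * y ^ 2 := by
          have : 1 ≤ y ^ 2 := one_le_pow₀ hy1
          nlinarith
        nlinarith
      calc _ ≤ C₆ * y ^ 2 * D + C₆ * y ^ 2 * Z := by linarith
        _ = _ := by ring
    have hS0 : 0 ≤ (∑ d' ∈ Icc 1 D, (D : ℝ) * (Nat.gcd (n0 p p' r) d' : ℕ) / (p * d')) + Z := by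
      have : 0 ≤ ∑ d' ∈ Icc 1 D, (D : ℝ) * (Nat.gcd (n0 p p' r) d' : ℕ) / (p * d') :=
        Finset.sum_nonneg fun _ _ => by positivity
      linarith
    calc ((Ts (n0 p p' r) D).card : ℝ) * (C₁ * y * ρ *
          ((∑ d' ∈ Icc 1 D, (D : ℝ) * (Nat.gcd (n0 p p' r) d' : ℕ) / (p * d')) + Z))
        ≤ (C₂ * y) * (C₁ * y * ρ * (C₆ * y ^ 2 * (D + Z))) := by
          refine mul_le_mul s5 ?_ (by positivity) (by positivity)
          exact mul_le_mul_of_nonneg_left t1 (by positivity)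
      _ = (C₁ * C₂ * C₆) * y ^ 4 * (ρ * (D + Z)) := by ring
      _ ≤ (C₁ * C₂ * C₆) * y ^ 8 * (ρ * (D + Z)) := by
          have : y ^ 4 ≤ y ^ 8 := pow_le_pow_right₀ hy1 (by norm_num)
          gcongr
      _ = _ := by rw [hy8]
  rw [hsplit]
  refine (abs_add_le _ _).trans ?_
  refine (add_le_add hlarge hsmall).trans ?_
  set W : ℝ := ρ * ((D : ℝ) + (D : ℝ) ^ (7 / 4 : ℝ) * ((p : ℝ) * T₀) ^ (3 / 4 : ℝ)) with hW
  have hW0 : 0 ≤ W := by positivity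
  have hQ0 : 0 ≤ L / T₀ + 1 := by positivity
  have hYe : 0 ≤ Y ^ ε := by positivity
  have f1 : 0 ≤ (C₁ * C₂ * C₆) * Y ^ ε * (L / T₀ + 1) := by positivity
  have f2 : 0 ≤ (C₃ + C₄) * Y ^ ε * W := by positivity
  have f3 : (C₃ + C₄ + C₁ * C₂ * C₆) * Y ^ ε * (L / T₀ + 1 + W) =
      (C₃ + C₄) * Y ^ ε * (L / T₀ + 1) + (C₁ * C₂ * C₆) * Y ^ ε * W +
      ((C₁ * C₂ * C₆) * Y ^ ε * (L / T₀ + 1) + (C₃ + C₄) * Y ^ ε * W) := by ring
  rw [f3]
  linarith

end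

end Pool.Agent.LSPD

namespace Pool.Agent.LSPD

alias cor := cor_pr

end Pool.Agent.LSPD
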