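import Pool.Agent.Lib_helper19.LSPD.Defs

/-! LSP part D, block UUD. -/

set_option autoImplicit false

namespace Pool.Agent.LSPD

open Pool.Agent.FG61 (mu cc)
open Pool.Agent.Var35 (e)
open Finset

/-- block UUD -/
theorem uu_div_pr {D R : ℕ} (hR : 1 ≤ R) (hD : R ≤ D) {k : ℤ} (hk : k ≠ 0) :
    UU D R k = ∑ d ∈ (Icc 1 D).filter (fun d : ℕ => (d : ℤ) ∣ k), uu D R d := by
  unfold UU tD nu uu
  rw [Finset.sum_sub_distrib, Finset.sum_const, nsmul_eq_mul, mul_one]
  congr 1
  have h1 : ∀ c ∈ Icc 1 R, ww D c * cc c k.natAbs =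
      ∑ d ∈ Icc 1 D, if (d : ℤ) ∣ k then
        (if d ∣ c then (d : ℝ) * (mu (c / d) * ww D c) else 0) else 0 := by
    intro c hc
    rw [Finset.mem_Icc] at hc
    unfold cc
    rw [Finset.mul_sum]
    have hsub : (Nat.gcd c k.natAbs).divisors = (Icc 1 D).filter (fun d : ℕ => (d : ℤ) ∣ k ∧ d ∣ c) := by
      ext d
      have hg : Nat.gcd c k.natAbs ≠ 0 := by
        intro h0
        rw [Nat.gcd_eq_zero_iff] at h0
        omega
      simp only [Nat.mem_divisors, Finset.mem_filter, Finset.mem_Icc]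
      constructor
      · rintro ⟨h2, -⟩
        have h3 : d ∣ c := h2.trans (Nat.gcd_dvd_left _ _)
        have h4 : d ∣ k.natAbs := h2.trans (Nat.gcd_dvd_right _ _)
        have h5 : d ≤ c := Nat.le_of_dvd (by omega) h3
        have h6 : 0 < d := Nat.pos_of_dvd_of_pos h3 (by omega)
        exact ⟨⟨h6, by omega⟩, Int.natCast_dvd.mpr h4, h3⟩
      · rintro ⟨-, h2, h3⟩
        exact ⟨Nat.dvd_gcd h3 (Int.natCast_dvd.mp h2), hg⟩
    rw [hsub, Finset.sum_filter]
    refine Finset.sum_congr rfl fun d _ => ?_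
    by_cases h2 : (d : ℤ) ∣ k
    · by_cases h3 : d ∣ c
      · simp only [h2, h3, and_self, if_true]
        ring
      · simp only [h2, h3, and_false, if_false, if_true]
    · simp only [h2, false_and, if_false]
  rw [Finset.sum_congr rfl h1, Finset.sum_comm, Finset.sum_filter]
  refine Finset.sum_congr rfl fun d _ => ?_
  by_cases h2 : (d : ℤ) ∣ k
  · simp only [h2, if_true]
    rw [Finset.mul_sum, Finset.sum_filter]
  · simp only [h2, if_false, Finset.sum_const_zero]

end Pool.Agent.LSPD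

namespace Pool.Agent.LSPD

alias uu_div := uu_div_pr

end Pool.Agent.LSPD
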