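import Pool.Agent.Lib_helper19.LSPD.Defs
import Pool.Agent.Lib_helper61.FG.P.GB
import Pool.Agent.Lib_helper19.LSPD.UUD

/-! LSP, part D: block UUB. -/

set_option autoImplicit false

namespace Pool.Agent.LSPD

open Pool.Agent.FG61 (mu cc)
open Pool.Agent.Var35 (e)
open Finset

theorem uub_Hn (n D : ℕ) (hn : n ≤ D) (hD : 1 ≤ D) : Hn n ≤ 1 + Real.log D := by
  have h1 : Hn n ≤ Hn D := by
    unfold Hn
    exact sum_le_sum_of_subset_of_nonneg (Icc_subset_Icc_right hn) (fun i _ _ => by positivity)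
  exact h1.trans (Pool.Agent.FG61.GB_harm D)

theorem uub_Hn0 (n : ℕ) : 0 ≤ Hn n := by
  unfold Hn
  exact sum_nonneg fun i _ => by positivity

theorem uub_ww0 (D c : ℕ) : 0 ≤ ww D c := by
  unfold ww
  exact div_nonneg (uub_Hn0 _) (Nat.cast_nonneg c)

theorem uub_ww (D c : ℕ) (hD : 1 ≤ D) : ww D c ≤ (1 + Real.log D) / c := by
  unfold ww
  exact div_le_div_of_nonneg_right (uub_Hn (D / c) D (Nat.div_le_self _ _) hD) (Nat.cast_nonneg c)

theorem uub_mu (n : ℕ) : |mu n| ≤ 1 := by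
  have := ArithmeticFunction.abs_moebius_le_one (n := n)
  unfold mu
  exact_mod_cast this

theorem uub_one {D R : ℕ} (d : ℕ) (hd : R < d) : uu D R d = 1 := by
  unfold uu
  rw [filter_eq_empty_iff.2, sum_empty, mul_zero, sub_zero]
  intro c hc hdc
  rw [mem_Icc] at hc
  have := Nat.le_of_dvd (by omega) hdc
  omega

theorem uub_first {D R : ℕ} (hR : 1 ≤ R) (hD : R ≤ D) (d : ℕ) (hd1 : 1 ≤ d) (hd2 : d ≤ D) :
    |uu D R d| ≤ (2 + Real.log D) ^ 2 := by
  have hD1 : 1 ≤ D := by omega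
  have hl0 : 0 ≤ Real.log D := Real.log_nonneg (by exact_mod_cast hD1)
  have hd0 : (0 : ℝ) < d := by exact_mod_cast hd1
  have h1 : |∑ c ∈ (Icc 1 R).filter (fun c => d ∣ c), mu (c / d) * ww D c| ≤
      (1 + Real.log D) * ((1 + Real.log R) / d) := by
    calc |∑ c ∈ (Icc 1 R).filter (fun c => d ∣ c), mu (c / d) * ww D c|
        ≤ ∑ c ∈ (Icc 1 R).filter (fun c => d ∣ c), |mu (c / d) * ww D c| :=
          abs_sum_le_sum_abs _ _
      _ ≤ ∑ c ∈ (Icc 1 R).filter (fun c => d ∣ c), (1 + Real.log D) * (1 / (c : ℝ)) := by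
          refine sum_le_sum fun c _ => ?_
          rw [abs_mul, abs_of_nonneg (uub_ww0 D c)]
          calc |mu (c / d)| * ww D c ≤ 1 * ww D c :=
                mul_le_mul_of_nonneg_right (uub_mu _) (uub_ww0 D c)
            _ = ww D c := one_mul _
            _ ≤ (1 + Real.log D) / c := uub_ww D c hD1
            _ = (1 + Real.log D) * (1 / (c : ℝ)) := by ring
      _ = (1 + Real.log D) * ∑ c ∈ (Icc 1 R).filter (fun c => d ∣ c), 1 / (c : ℝ) := by
          rw [mul_sum]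
      _ ≤ (1 + Real.log D) * ((1 + Real.log R) / d) :=
          mul_le_mul_of_nonneg_left (Pool.Agent.FG61.GB_mult R d hd1) (by linarith)
  have hlR : Real.log R ≤ Real.log D := Real.log_le_log (by exact_mod_cast hR) (by exact_mod_cast hD)
  have hlR0 : 0 ≤ Real.log R := Real.log_nonneg (by exact_mod_cast hR)
  have h2 : (d : ℝ) * |∑ c ∈ (Icc 1 R).filter (fun c => d ∣ c), mu (c / d) * ww D c| ≤
      (1 + Real.log D) * (1 + Real.log R) := by
    calc (d : ℝ) * |∑ c ∈ (Icc 1 R).filter (fun c => d ∣ c), mu (c / d) * ww D c|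
        ≤ d * ((1 + Real.log D) * ((1 + Real.log R) / d)) := mul_le_mul_of_nonneg_left h1 hd0.le
      _ = (1 + Real.log D) * (1 + Real.log R) := by field_simp
  unfold uu
  calc |1 - (d : ℝ) * ∑ c ∈ (Icc 1 R).filter (fun c => d ∣ c), mu (c / d) * ww D c|
      ≤ |(1 : ℝ)| + |(d : ℝ) * ∑ c ∈ (Icc 1 R).filter (fun c => d ∣ c), mu (c / d) * ww D c| :=
        abs_sub _ _
    _ = 1 + (d : ℝ) * |∑ c ∈ (Icc 1 R).filter (fun c => d ∣ c), mu (c / d) * ww D c| := by
        rw [abs_one, abs_mul, abs_of_nonneg hd0.le]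
    _ ≤ 1 + (1 + Real.log D) * (1 + Real.log R) := by linarith
    _ ≤ (2 + Real.log D) ^ 2 := by nlinarith

theorem uu_bound_pr {D R : ℕ} (hR : 1 ≤ R) (hD : R ≤ D) :
    (∀ d : ℕ, 1 ≤ d → d ≤ D → |uu D R d| ≤ (2 + Real.log D) ^ 2) ∧
    (∀ d : ℕ, R < d → uu D R d = 1) ∧
    ∀ k : ℤ, k ≠ 0 → |UU D R k| ≤ (2 + Real.log D) ^ 2 * tau k.natAbs := by
  refine ⟨fun d h1 h2 => uub_first hR hD d h1 h2, fun d hd => uub_one d hd, fun k hk => ?_⟩
  rw [uu_div hR hD hk]
  calc |∑ d ∈ (Icc 1 D).filter (fun d : ℕ => (d : ℤ) ∣ k), uu D R d|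
      ≤ ∑ d ∈ (Icc 1 D).filter (fun d : ℕ => (d : ℤ) ∣ k), |uu D R d| := abs_sum_le_sum_abs _ _
    _ ≤ ∑ d ∈ (Icc 1 D).filter (fun d : ℕ => (d : ℤ) ∣ k), (2 + Real.log D) ^ 2 := by
        refine sum_le_sum fun d hd => ?_
        rw [mem_filter, mem_Icc] at hd
        exact uub_first hR hD d hd.1.1 hd.1.2
    _ = (2 + Real.log D) ^ 2 * (((Icc 1 D).filter (fun d : ℕ => (d : ℤ) ∣ k)).card : ℝ) := by
        rw [sum_const, nsmul_eq_mul, mul_comm]
    _ ≤ (2 + Real.log D) ^ 2 * tau k.natAbs := by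
        refine mul_le_mul_of_nonneg_left ?_ (by positivity)
        unfold tau
        have : (Icc 1 D).filter (fun d : ℕ => (d : ℤ) ∣ k) ⊆ k.natAbs.divisors := by
          intro d hd
          rw [mem_filter] at hd
          rw [Nat.mem_divisors]
          exact ⟨Int.natCast_dvd.1 hd.2, by simpa using hk⟩
        exact_mod_cast card_le_card this

end Pool.Agent.LSPD

namespace Pool.Agent.LSPD

alias uu_bound := uu_bound_pr

end Pool.Agent.LSPD
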