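import Pool.Agent.Lib_helper19.LSPD.Defs
import Pool.Agent.Lib_helper19.LSPD.UUB

/-! LSP part D, block DIA. -/

set_option autoImplicit false

namespace Pool.Agent.LSPD

open Pool.Agent.FG61 (mu cc)
open Pool.Agent.Var35 (e)
open Finset

/-- the two-sided geometric series -/
theorem dia_geo {L : ℝ} (hL : 1 ≤ L) :
    Summable (fun m : ℤ => Real.exp (-(|(m : ℝ)| / L))) ∧
    ∑' m : ℤ, Real.exp (-(|(m : ℝ)| / L)) ≤ 4 * L := by
  have hL0 : 0 < L := by linarith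
  obtain ⟨q, hq⟩ : ∃ q : ℝ, q = Real.exp (-(1 / L)) := ⟨_, rfl⟩
  have hq0 : 0 < q := hq ▸ Real.exp_pos _
  have hq1 : q < 1 := by
    rw [hq, Real.exp_lt_one_iff]
    have : 0 < 1 / L := by positivity
    linarith
  have hg : HasSum (fun n : ℕ => q ^ n) (1 - q)⁻¹ := hasSum_geometric_of_lt_one hq0.le hq1
  have hpow : ∀ n : ℕ, q ^ n = Real.exp (-((n : ℝ) / L)) := by
    intro n
    rw [hq, ← Real.exp_nat_mul]
    congr 1
    ring
  have h1 : HasSum (fun n : ℕ => Real.exp (-(|((n : ℤ) : ℝ)| / L))) (1 - q)⁻¹ := by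
    refine hg.congr_fun ?_ |> fun h => h
    intro n
    rw [hpow]
    congr 3
    rw [abs_of_nonneg (by positivity)]
    simp
  have h2 : HasSum (fun n : ℕ => Real.exp (-(|((-((n : ℤ) + 1) : ℤ) : ℝ)| / L)))
      (q * (1 - q)⁻¹) := by
    have h3 := hg.mul_left q
    refine h3.congr_fun ?_ |> fun h => h
    intro n
    rw [show q * q ^ n = q ^ (n + 1) by ring, hpow]
    congr 3
    push_cast
    rw [abs_neg, abs_of_nonneg (by positivity)]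
  have h4 : HasSum (fun m : ℤ => Real.exp (-(|(m : ℝ)| / L))) ((1 - q)⁻¹ + q * (1 - q)⁻¹) :=
    HasSum.of_nat_of_neg_add_one (f := fun m : ℤ => Real.exp (-(|(m : ℝ)| / L))) h1 h2
  refine ⟨h4.summable, ?_⟩
  rw [h4.tsum_eq]
  have h5 : 1 / (2 * L) ≤ 1 - q := by
    have h6 : q ≤ 1 / (1 + 1 / L) := by
      rw [hq, Real.exp_neg, one_div (1 + 1 / L)]
      apply inv_anti₀ (by positivity)
      have := Real.add_one_le_exp (1 / L)
      linarith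
    have h7 : 1 / (1 + 1 / L) ≤ 1 - 1 / (2 * L) := by
      rw [div_le_iff₀ (by positivity)]
      have e1 : (1 - 1 / (2 * L)) * (1 + 1 / L) = 1 + (L - 1) / (2 * L ^ 2) := by
        field_simp
        ring
      rw [e1]
      have : 0 ≤ (L - 1) / (2 * L ^ 2) := div_nonneg (by linarith) (by positivity)
      linarith
    linarith
  have h8 : 0 < 1 - q := by linarith
  have h9 : (1 - q)⁻¹ ≤ 2 * L := by
    rw [← one_div] at *
    rw [div_le_iff₀ h8]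
    have := mul_le_mul_of_nonneg_left h5 (show 0 ≤ 2 * L by positivity)
    have e2 : 2 * L * (1 / (2 * L)) = 1 := by field_simp
    linarith
  have h10 : q * (1 - q)⁻¹ ≤ (1 - q)⁻¹ := mul_le_of_le_one_left (by positivity) hq1.le
  linarith

/-- the Gaussian weight -/
theorem dia_gs {L : ℝ} (hL : 1 ≤ L) (m : ℤ) :
    gs L m * (1 + |(m : ℝ)| / L) ≤ 2 * Real.exp (-(|(m : ℝ)| / L)) := by
  have hL0 : 0 < L := by linarith
  unfold gs
  obtain ⟨x, hx⟩ : ∃ x : ℝ, x = |(m : ℝ)| / L := ⟨_, rfl⟩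
  have hx0 : 0 ≤ x := by rw [hx]; positivity
  have hsq : ((m : ℝ) / L) ^ 2 = x ^ 2 := by
    rw [hx, div_pow, div_pow, sq_abs]
  rw [hsq, ← hx]
  have h1 : 1 + x ≤ Real.exp x := by
    have := Real.add_one_le_exp x
    linarith
  have h2 : Real.exp (-Real.pi * x ^ 2) * (1 + x) ≤ Real.exp (-Real.pi * x ^ 2 + x) := by
    rw [Real.exp_add]
    exact mul_le_mul_of_nonneg_left h1 (Real.exp_pos _).le
  refine h2.trans ?_
  have h3 : (1 / 3 : ℝ) ≤ Real.log 2 := by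
    have := Real.log_two_gt_d9
    linarith
  calc Real.exp (-Real.pi * x ^ 2 + x) ≤ Real.exp (Real.log 2 + -x) := by
        apply Real.exp_le_exp.mpr
        have h4 : (3 : ℝ) ≤ Real.pi := Real.pi_gt_three.le
        nlinarith [sq_nonneg (x - 1 / 3), mul_nonneg (by linarith : (0:ℝ) ≤ Real.pi - 3)
          (sq_nonneg x)]
    _ = 2 * Real.exp (-x) := by rw [Real.exp_add, Real.exp_log (by norm_num)]

/-- logarithms and powers -/
theorem dia_log {δ : ℝ} (hδ : 0 < δ) : ∃ C : ℝ, 1 ≤ C ∧ ∀ D : ℝ, 1 ≤ D →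
    (2 + Real.log D) ^ 4 ≤ C * D ^ δ := by
  have h0 : 0 < 4 / δ := by positivity
  refine ⟨(2 + 4 / δ) ^ 4, one_le_pow₀ (by linarith), fun D hD => ?_⟩
  have hD0 : 0 < D := by linarith
  have h1 : Real.log D ≤ D ^ (δ / 4) / (δ / 4) := Real.log_le_rpow_div hD0.le (by positivity)
  have h2 : 1 ≤ D ^ (δ / 4) := Real.one_le_rpow hD (by positivity)
  have h3 : 2 + Real.log D ≤ (2 + 4 / δ) * D ^ (δ / 4) := by
    have e1 : D ^ (δ / 4) / (δ / 4) = 4 / δ * D ^ (δ / 4) := by field_simp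
    rw [e1] at h1
    nlinarith
  have h4 : 0 ≤ 2 + Real.log D := by
    have := Real.log_nonneg hD
    linarith
  calc (2 + Real.log D) ^ 4 ≤ ((2 + 4 / δ) * D ^ (δ / 4)) ^ 4 := pow_le_pow_left₀ h4 h3 4
    _ = (2 + 4 / δ) ^ 4 * D ^ δ := by
        rw [mul_pow, ← Real.rpow_natCast (D ^ (δ / 4)), ← Real.rpow_mul hD0.le]
        congr 2
        push_cast
        ring

/-- block DIA -/
theorem dia_pr {ε : ℝ} (hε : 0 < ε) : ∃ C : ℝ, 1 ≤ C ∧ ∀ {L : ℝ}, 1 ≤ L → ∀ {p : ℕ} {r : ℤ},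
    p.Prime → ¬ (p : ℤ) ∣ r → ∀ {D R : ℕ}, 1 ≤ R → R ≤ D →
    Summable (fun m : ℤ => gs L m * UU D R (p * m - r) ^ 2) ∧
    ∑' m : ℤ, gs L m * UU D R (p * m - r) ^ 2 ≤ C * Yy L p p D r ^ ε * L := by
  obtain ⟨δ, hδ0, hδ1, hδ2⟩ : ∃ δ : ℝ, 0 < δ ∧ δ ≤ ε ∧ δ ≤ 1 :=
    ⟨min ε 1, by positivity, min_le_left _ _, min_le_right _ _⟩
  obtain ⟨C₁, hC₁, hdiv⟩ := FG61.divisor_bound (ε := δ / 2) (by positivity)
  obtain ⟨C₂, hC₂, hlog⟩ := dia_log hδ0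
  refine ⟨max 1 (C₂ * C₁ ^ 2 * 8), le_max_left _ _, ?_⟩
  intro L hL p r hp hpr D R hR hRD
  have hL0 : 0 < L := by linarith
  have hr0 : r ≠ 0 := by
    rintro rfl
    exact hpr (dvd_zero _)
  have hr1 : (1 : ℝ) ≤ |(r : ℝ)| := by
    have : (1 : ℤ) ≤ |r| := Int.one_le_abs hr0
    exact_mod_cast this
  have hp1 : (1 : ℝ) ≤ p := by exact_mod_cast hp.one_le
  have hD1 : (1 : ℝ) ≤ D := by exact_mod_cast hR.trans hRD
  obtain ⟨Z, hZ⟩ : ∃ Z : ℝ, Z = (p : ℝ) * |(r : ℝ)| * (1 + L) := ⟨_, rfl⟩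
  have hZ0 : 0 < Z := by rw [hZ]; positivity
  -- the pointwise bound
  have hpt : ∀ m : ℤ, gs L m * UU D R (p * m - r) ^ 2 ≤
      (C₂ * (D : ℝ) ^ δ * (C₁ ^ 2 * Z ^ δ) * 2) * Real.exp (-(|(m : ℝ)| / L)) := by
    intro m
    have hk : (p : ℤ) * m - r ≠ 0 := by
      intro h0
      exact hpr ⟨m, by linarith⟩
    have h1 := (uu_bound hR hRD).2.2 _ hk
    obtain ⟨n, hn⟩ : ∃ n : ℕ, n = ((p : ℤ) * m - r).natAbs := ⟨_, rfl⟩
    rw [← hn] at h1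
    have hn0 : 0 < n := by
      rw [hn]
      exact Int.natAbs_pos.mpr hk
    have h2 : tau n ≤ C₁ * (n : ℝ) ^ (δ / 2) := hdiv n hn0
    have hnR : (n : ℝ) = |(((p : ℤ) * m - r : ℤ) : ℝ)| := by
      rw [hn, Nat.cast_natAbs, Int.cast_abs]
    have h3 : (n : ℝ) ≤ Z * (1 + |(m : ℝ)| / L) := by
      rw [hnR]
      push_cast
      have i1 : |(p : ℝ) * m - r| ≤ p * |(m : ℝ)| + |(r : ℝ)| := by
        calc |(p : ℝ) * m - r| ≤ |(p : ℝ) * m| + |(r : ℝ)| := abs_sub _ _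
          _ = p * |(m : ℝ)| + |(r : ℝ)| := by rw [abs_mul, Nat.abs_cast]
      have i2 : (p : ℝ) * |(m : ℝ)| + |(r : ℝ)| ≤ p * |(r : ℝ)| * (1 + |(m : ℝ)|) := by
        have j1 : 0 ≤ (p : ℝ) * |(m : ℝ)| := by positivity
        nlinarith [mul_nonneg j1 (by linarith : (0:ℝ) ≤ |(r : ℝ)| - 1),
          mul_nonneg (by linarith : (0:ℝ) ≤ (p : ℝ) - 1) (abs_nonneg (r : ℝ))]
      have i3 : 1 + |(m : ℝ)| ≤ (1 + L) * (1 + |(m : ℝ)| / L) := by
        have e1 : (1 + L) * (1 + |(m : ℝ)| / L) = 1 + |(m : ℝ)| + L + |(m : ℝ)| / L := by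
          field_simp
          ring
        rw [e1]
        have : 0 ≤ |(m : ℝ)| / L := by positivity
        linarith
      calc |(p : ℝ) * m - r| ≤ p * |(r : ℝ)| * (1 + |(m : ℝ)|) := i1.trans i2
        _ ≤ p * |(r : ℝ)| * ((1 + L) * (1 + |(m : ℝ)| / L)) :=
            mul_le_mul_of_nonneg_left i3 (by positivity)
        _ = Z * (1 + |(m : ℝ)| / L) := by rw [hZ]; ring
    have hw0 : 1 ≤ 1 + |(m : ℝ)| / L := by
      have : 0 ≤ |(m : ℝ)| / L := by positivity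
      linarith
    have h4 : tau n ^ 2 ≤ C₁ ^ 2 * (Z ^ δ * (1 + |(m : ℝ)| / L)) := by
      have i1 : tau n ^ 2 ≤ (C₁ * (n : ℝ) ^ (δ / 2)) ^ 2 := by
        refine pow_le_pow_left₀ ?_ h2 2
        unfold tau
        positivity
      have i2 : (C₁ * (n : ℝ) ^ (δ / 2)) ^ 2 = C₁ ^ 2 * (n : ℝ) ^ δ := by
        rw [mul_pow, ← Real.rpow_natCast ((n : ℝ) ^ (δ / 2)), ← Real.rpow_mul (by positivity)]
        congr 2
        push_cast
        ring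
      have i3 : (n : ℝ) ^ δ ≤ Z ^ δ * (1 + |(m : ℝ)| / L) := by
        calc (n : ℝ) ^ δ ≤ (Z * (1 + |(m : ℝ)| / L)) ^ δ :=
              Real.rpow_le_rpow (by positivity) h3 hδ0.le
          _ = Z ^ δ * (1 + |(m : ℝ)| / L) ^ δ := Real.mul_rpow hZ0.le (by linarith)
          _ ≤ Z ^ δ * (1 + |(m : ℝ)| / L) := by
              refine mul_le_mul_of_nonneg_left ?_ (by positivity)
              calc (1 + |(m : ℝ)| / L) ^ δ ≤ (1 + |(m : ℝ)| / L) ^ (1 : ℝ) :=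
                    Real.rpow_le_rpow_of_exponent_le hw0 hδ2
                _ = _ := Real.rpow_one _
      rw [i2] at i1
      exact i1.trans (mul_le_mul_of_nonneg_left i3 (by positivity))
    have h5 : UU D R (p * m - r) ^ 2 ≤
        (C₂ * (D : ℝ) ^ δ) * (C₁ ^ 2 * (Z ^ δ * (1 + |(m : ℝ)| / L))) := by
      calc UU D R (p * m - r) ^ 2 = |UU D R (p * m - r)| ^ 2 := (sq_abs _).symm
        _ ≤ ((2 + Real.log D) ^ 2 * tau n) ^ 2 := pow_le_pow_left₀ (abs_nonneg _) h1 2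
        _ = (2 + Real.log D) ^ 4 * tau n ^ 2 := by ring
        _ ≤ (C₂ * (D : ℝ) ^ δ) * (C₁ ^ 2 * (Z ^ δ * (1 + |(m : ℝ)| / L))) := by
            refine mul_le_mul (hlog D hD1) h4 (by positivity) (by positivity)
    have hg0 : 0 ≤ gs L m := (Real.exp_pos _).le
    calc gs L m * UU D R (p * m - r) ^ 2
        ≤ gs L m * ((C₂ * (D : ℝ) ^ δ) * (C₁ ^ 2 * (Z ^ δ * (1 + |(m : ℝ)| / L)))) :=
          mul_le_mul_of_nonneg_left h5 hg0
      _ = (C₂ * (D : ℝ) ^ δ * (C₁ ^ 2 * Z ^ δ)) * (gs L m * (1 + |(m : ℝ)| / L)) := by ring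
      _ ≤ (C₂ * (D : ℝ) ^ δ * (C₁ ^ 2 * Z ^ δ)) * (2 * Real.exp (-(|(m : ℝ)| / L))) :=
          mul_le_mul_of_nonneg_left (dia_gs hL m) (by positivity)
      _ = _ := by ring
  obtain ⟨hs, hsum⟩ := dia_geo hL
  have hs2 := hs.mul_left (C₂ * (D : ℝ) ^ δ * (C₁ ^ 2 * Z ^ δ) * 2)
  have hnn : ∀ m : ℤ, 0 ≤ gs L m * UU D R (p * m - r) ^ 2 := fun m =>
    mul_nonneg (Real.exp_pos _).le (sq_nonneg _)
  have hsm : Summable (fun m : ℤ => gs L m * UU D R (p * m - r) ^ 2) :=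
    Summable.of_nonneg_of_le hnn hpt hs2
  refine ⟨hsm, ?_⟩
  have h6 : ∑' m : ℤ, gs L m * UU D R (p * m - r) ^ 2 ≤
      (C₂ * (D : ℝ) ^ δ * (C₁ ^ 2 * Z ^ δ) * 2) * (4 * L) := by
    refine (hsm.tsum_le_tsum hpt hs2).trans ?_
    rw [tsum_mul_left]
    exact mul_le_mul_of_nonneg_left hsum (by positivity)
  refine h6.trans ?_
  have h7 : (D : ℝ) ^ δ * Z ^ δ ≤ Yy L p p D r ^ ε := by
    have i1 : (D : ℝ) * Z ≤ Yy L p p D r := by
      rw [hZ]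
      unfold Yy
      have : (0 : ℝ) ≤ (p : ℝ) * D * |(r : ℝ)| * (1 + L) := by positivity
      nlinarith
    have i2 : 1 ≤ (D : ℝ) * Z := by
      have : 1 ≤ Z := by
        rw [hZ]
        have j1 : 1 ≤ (p : ℝ) * |(r : ℝ)| := one_le_mul_of_one_le_of_one_le hp1 hr1
        exact one_le_mul_of_one_le_of_one_le j1 (by linarith)
      exact one_le_mul_of_one_le_of_one_le hD1 this
    calc (D : ℝ) ^ δ * Z ^ δ = ((D : ℝ) * Z) ^ δ := (Real.mul_rpow (by positivity) hZ0.le).symm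
      _ ≤ Yy L p p D r ^ δ := Real.rpow_le_rpow (by positivity) i1 hδ0.le
      _ ≤ Yy L p p D r ^ ε := Real.rpow_le_rpow_of_exponent_le (i2.trans i1) hδ1
  have hY0 : 0 ≤ Yy L p p D r ^ ε := le_trans (by positivity) h7
  calc (C₂ * (D : ℝ) ^ δ * (C₁ ^ 2 * Z ^ δ) * 2) * (4 * L)
      = (C₂ * C₁ ^ 2 * 8) * ((D : ℝ) ^ δ * Z ^ δ) * L := by ring
    _ ≤ (C₂ * C₁ ^ 2 * 8) * Yy L p p D r ^ ε * L :=
        mul_le_mul_of_nonneg_right (mul_le_mul_of_nonneg_left h7 (by positivity)) hL0.le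
    _ ≤ max 1 (C₂ * C₁ ^ 2 * 8) * Yy L p p D r ^ ε * L :=
        mul_le_mul_of_nonneg_right (mul_le_mul_of_nonneg_right (le_max_right _ _) hY0) hL0.le

end Pool.Agent.LSPD

namespace Pool.Agent.LSPD

alias dia := dia_pr

end Pool.Agent.LSPD
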