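import Pool.Agent.Lib_helper19.LSPD.Defs
import Pool.Agent.Lib_helper61.FG.P.FE

/-!
# LSP, part D, block UUZ
-/

set_option autoImplicit false

namespace Pool.Agent.LSPD

open Pool.Agent.FG61 (mu cc)
open Finset

/-- `w(c)` is the sum of `1/d` over the multiples `d ≤ D` of `c` -/
theorem uuz_ww (D : ℕ) {c : ℕ} (hc : 1 ≤ c) :
    ∑ d ∈ (Icc 1 D).filter (fun d => c ∣ d), (1 : ℝ) / d = ww D c := by
  have himg : (Icc 1 D).filter (fun d => c ∣ d) = (Icc 1 (D / c)).image (fun m => c * m) := by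
    ext d
    simp only [mem_filter, mem_Icc, mem_image]
    constructor
    · rintro ⟨⟨h1, h2⟩, m, rfl⟩
      refine ⟨m, ⟨?_, ?_⟩, rfl⟩
      · rcases Nat.eq_zero_or_pos m with h | h
        · subst h; simp at h1
        · exact h
      · rw [Nat.le_div_iff_mul_le (by omega)]
        rw [mul_comm]; exact h2
    · rintro ⟨m, ⟨h1, h2⟩, rfl⟩
      refine ⟨⟨?_, ?_⟩, Dvd.intro m rfl⟩
      · exact Nat.mul_pos hc h1
      · rw [Nat.le_div_iff_mul_le (by omega)] at h2
        rw [mul_comm]; exact h2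
  rw [himg, Finset.sum_image]
  · unfold ww Hn
    rw [Finset.sum_div]
    refine Finset.sum_congr rfl ?_
    intro m _
    push_cast
    rw [div_div, mul_comm]
  · intro a _ b _ hab
    exact Nat.eq_of_mul_eq_mul_left hc hab

/-- block UUZ -/
theorem uu_zero_pr {D R : ℕ} (hD : D ≤ R) {k : ℤ} (hk : k ≠ 0) : UU D R k = 0 := by
  unfold UU
  have hn : 1 ≤ k.natAbs := Int.natAbs_pos.2 hk
  set n := k.natAbs with hn'
  have h1 : tD D k = ∑ d ∈ Icc 1 D, if d ∣ n then (1 : ℝ) else 0 := by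
    unfold tD
    rw [Finset.card_filter]
    push_cast
    refine Finset.sum_congr rfl fun d _ => ?_
    have : (d : ℤ) ∣ k ↔ d ∣ n := Int.natCast_dvd
    simp only [this]
  have h2 : ∀ d ∈ Icc 1 D, (if d ∣ n then (1 : ℝ) else 0) =
      ∑ c ∈ Icc 1 R, if c ∣ d then (1 : ℝ) / d * cc c n else 0 := by
    intro d hd
    rw [mem_Icc] at hd
    have hd0 : (d : ℝ) ≠ 0 := by
      have : 0 < d := hd.1
      positivity
    have h3 := Pool.Agent.FG61.fe_sum_cc d n hd.1 hn
    rw [← Finset.sum_filter, ← Finset.mul_sum]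
    have h4 : (Icc 1 R).filter (fun c => c ∣ d) = d.divisors := by
      ext c
      rw [Finset.mem_filter, mem_Icc, Nat.mem_divisors]
      constructor
      · rintro ⟨_, h⟩
        exact ⟨h, by omega⟩
      · rintro ⟨h, _⟩
        have := Nat.le_of_dvd (by omega) h
        have := Nat.pos_of_dvd_of_pos h (by omega)
        exact ⟨⟨by omega, by omega⟩, h⟩
    rw [h4, h3]
    split_ifs
    · field_simp
    · simp
  rw [h1, Finset.sum_congr rfl h2, Finset.sum_comm, sub_eq_zero]
  unfold nu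
  refine Finset.sum_congr rfl fun c hc => ?_
  rw [mem_Icc] at hc
  rw [← Finset.sum_filter, ← Finset.sum_mul, uuz_ww D hc.1]

end Pool.Agent.LSPD

namespace Pool.Agent.LSPD

alias uu_zero := uu_zero_pr

end Pool.Agent.LSPD
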