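import Pool.Agent.Lib_helper19.LSPD.Defs
import Pool.Agent.Lib_helper19.LSPD.CLS
import Pool.Agent.Lib_helper19.LSPD.EEF

/-!
# Block EES: the error term is small for long sums
-/

set_option autoImplicit false

namespace Pool.Agent.LSPD

open Pool.Agent.FG61 (mu cc)
open Pool.Agent.Var35 (e)
open Finset

theorem ees_norm_e (x : ℝ) : ‖e x‖ = 1 := by
  unfold Pool.Agent.Var35.e
  exact Complex.norm_exp_ofReal_mul_I _

/-- block EES -/
theorem ee_small_pr {L : ℝ} (hL : 0 < L) {p p' : ℕ} {r : ℤ} (h : PP p p' r) {d d' : ℕ}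
    (hd : 1 ≤ d) (hd' : 1 ≤ d') (hl : ((Nat.lcm d d' : ℕ) : ℝ) ≤ L) :
    |EE L p p' r d d'| ≤ 3 * (L / (Nat.lcm d d' : ℕ)) *
      Real.exp (-Real.pi * (L / (Nat.lcm d d' : ℕ)) ^ 2) := by
  have hlpos : (0 : ℝ) < (Nat.lcm d d' : ℕ) := by
    have : 0 < Nat.lcm d d' := Nat.lcm_pos hd hd'
    exact_mod_cast this
  have hrh : rh p p' r d d' = 1 ∨ rh p p' r d d' = 0 := by
    unfold rh
    split_ifs
    · exact Or.inl rfl
    · exact Or.inr rfl
  obtain ⟨hc1, hc0⟩ := cls h hd hd'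
  rcases hrh with h1 | h0
  · obtain ⟨s, hs⟩ := hc1 h1
    have hss : (d : ℤ) ∣ p * s - r ∧ (d' : ℤ) ∣ p' * s - r := (hs s).mpr (by simp)
    have hf := ee_fourier hL h hd hd' h1 hss
    obtain ⟨y, hy⟩ : ∃ y : ℝ, y = L / (Nat.lcm d d' : ℕ) := ⟨_, rfl⟩
    have hy1 : 1 ≤ y := by
      rw [hy, le_div_iff₀ hlpos, one_mul]
      exact hl
    have hy0 : 0 < y := by linarith
    have hpi := Real.pi_gt_three
    -- geometric majorant
    have hgeo : HasSum (fun n : ℕ => 2 * y * Real.exp (-Real.pi * y ^ 2) * (1 / 3 : ℝ) ^ n)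
        (2 * y * Real.exp (-Real.pi * y ^ 2) * (1 - 1 / 3)⁻¹) :=
      (hasSum_geometric_of_lt_one (by norm_num) (by norm_num)).mul_left _
    have hterm : ∀ n : ℕ,
        ‖(((L / (Nat.lcm d d' : ℕ) * Real.exp (-Real.pi * (L * ((n : ℝ) + 1) / (Nat.lcm d d' : ℕ)) ^ 2) : ℝ) : ℂ) *
          e (((n : ℝ) + 1) * s / (Nat.lcm d d' : ℕ)) +
         ((L / (Nat.lcm d d' : ℕ) * Real.exp (-Real.pi * (L * ((n : ℝ) + 1) / (Nat.lcm d d' : ℕ)) ^ 2) : ℝ) : ℂ) *
          e (-(((n : ℝ) + 1) * s / (Nat.lcm d d' : ℕ))))‖ ≤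
        2 * y * Real.exp (-Real.pi * y ^ 2) * (1 / 3 : ℝ) ^ n := by
      intro n
      have e1 : L * ((n : ℝ) + 1) / (Nat.lcm d d' : ℕ) = y * ((n : ℝ) + 1) := by
        rw [hy]
        ring
      rw [e1, ← hy]
      refine (norm_add_le _ _).trans ?_
      rw [norm_mul, norm_mul, ees_norm_e, ees_norm_e, mul_one, Complex.norm_real,
        Real.norm_of_nonneg (by positivity)]
      have h3 : Real.exp (-Real.pi * (y * ((n : ℝ) + 1)) ^ 2) ≤
          Real.exp (-Real.pi * y ^ 2) * (1 / 3 : ℝ) ^ n := by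
        have h4 : (1 / 3 : ℝ) ^ n = Real.exp (-(n * Real.log 3)) := by
          rw [Real.exp_neg, mul_comm, Real.exp_mul, Real.exp_log (by norm_num), one_div, inv_pow,
            Real.rpow_natCast]
        rw [h4, ← Real.exp_add]
        apply Real.exp_le_exp.mpr
        have hlog : Real.log 3 ≤ 3 := by
          have := Real.log_le_sub_one_of_pos (by norm_num : (0 : ℝ) < 3)
          linarith
        have hn : (0 : ℝ) ≤ n := Nat.cast_nonneg n
        have hy2 : 1 ≤ y ^ 2 := by nlinarith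
        have h5 : (n : ℝ) * Real.log 3 ≤ 3 * n := by nlinarith
        have h6 : (n : ℝ) ≤ y ^ 2 * (((n : ℝ) + 1) ^ 2 - 1) := by
          have : (n : ℝ) ≤ ((n : ℝ) + 1) ^ 2 - 1 := by nlinarith
          nlinarith
        nlinarith
      have h7 : y * Real.exp (-Real.pi * (y * ((n : ℝ) + 1)) ^ 2) ≤
          y * (Real.exp (-Real.pi * y ^ 2) * (1 / 3 : ℝ) ^ n) :=
        mul_le_mul_of_nonneg_left h3 hy0.le
      linarith
    have hbound := tsum_of_norm_bounded hgeo hterm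
    rw [← hf, Complex.norm_real, Real.norm_eq_abs] at hbound
    refine hbound.trans ?_
    rw [← hy]
    have : 2 * y * Real.exp (-Real.pi * y ^ 2) * (1 - 1 / 3 : ℝ)⁻¹ =
        3 * y * Real.exp (-Real.pi * y ^ 2) := by
      norm_num
      ring
    rw [this]
  · have hT : TT L p p' r d d' = 0 := by
      unfold TT
      have : ∀ m : ℤ, (if (d : ℤ) ∣ p * m - r ∧ (d' : ℤ) ∣ p' * m - r then gs L m else 0) = 0 :=
        fun m => if_neg (hc0 h0 m)
      simp only [this, tsum_zero]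
    have hE : EE L p p' r d d' = 0 := by
      unfold EE
      rw [hT, h0]
      ring
    rw [hE, abs_zero]
    positivity

end Pool.Agent.LSPD

namespace Pool.Agent.LSPD

alias ee_small := ee_small_pr

end Pool.Agent.LSPD
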