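import Pool.Agent.Lib_helper19.LSPD.Defs
import Pool.Agent.Lib_helper19.LSPD.UUZ

/-!
# LSP, part D, block UUA
-/

set_option autoImplicit false

namespace Pool.Agent.LSPD

open Pool.Agent.FG61 (mu cc)
open Finset

/-- Moebius inversion over the divisors of `n` that are multiples of `c` -/
theorem uua_mu {n c : ℕ} (hn : 1 ≤ n) (hc : 1 ≤ c) :
    ∑ d ∈ n.divisors.filter (fun d => c ∣ d), mu (n / d) = if n = c then 1 else 0 := by
  by_cases h : c ∣ n
  · obtain ⟨m, rfl⟩ := h
    have hm : 0 < m := by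
      rcases Nat.eq_zero_or_pos m with h | h
      · subst h; simp at hn
      · exact h
    have himg : (c * m).divisors.filter (fun d => c ∣ d) = m.divisors.image (fun e => c * e) := by
      ext d
      simp only [mem_filter, Nat.mem_divisors, mem_image]
      constructor
      · rintro ⟨⟨h1, h2⟩, e, rfl⟩
        exact ⟨e, ⟨Nat.dvd_of_mul_dvd_mul_left hc h1, by omega⟩, rfl⟩
      · rintro ⟨e, ⟨h1, h2⟩, rfl⟩
        exact ⟨⟨Nat.mul_dvd_mul_left c h1, by positivity⟩, Dvd.intro e rfl⟩
    rw [himg, Finset.sum_image]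
    · have h1 : ∀ e ∈ m.divisors, mu (c * m / (c * e)) = mu (m / e) := by
        intro e _
        rw [Nat.mul_div_mul_left _ _ hc]
      rw [Finset.sum_congr rfl h1, Nat.sum_div_divisors m (fun e => mu e)]
      have h2 : ∑ e ∈ m.divisors, ((ArithmeticFunction.moebius e : ℤ) : ℝ) =
          ((∑ e ∈ m.divisors, ArithmeticFunction.moebius e : ℤ) : ℝ) := by push_cast; rfl
      have h3 : (∑ e ∈ m.divisors, ArithmeticFunction.moebius e : ℤ) = if m = 1 then 1 else 0 := by
        rw [← ArithmeticFunction.coe_mul_zeta_apply, ArithmeticFunction.moebius_mul_coe_zeta,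
          ArithmeticFunction.one_apply]
      have h4 : c * m = c ↔ m = 1 := by
        constructor
        · intro h
          exact Nat.eq_of_mul_eq_mul_left hc (by rw [h, mul_one])
        · rintro rfl
          rw [mul_one]
      change ∑ e ∈ m.divisors, ((ArithmeticFunction.moebius e : ℤ) : ℝ) = _
      rw [h2, h3]
      simp only [h4]
      split_ifs <;> simp
    · intro a _ b _ hab
      exact Nat.eq_of_mul_eq_mul_left hc hab
  · have h1 : n.divisors.filter (fun d => c ∣ d) = ∅ := by
      rw [Finset.filter_eq_empty_iff]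
      intro d hd hcd
      exact h (hcd.trans (Nat.dvd_of_mem_divisors hd))
    rw [h1, Finset.sum_empty, if_neg]
    rintro rfl
    exact h dvd_rfl

/-- block UUA -/
theorem uu_A_pr {D R : ℕ} (hR : 1 ≤ R) (hD : R ≤ D) {c : ℕ} (hc : 1 ≤ c) :
    ∑ d ∈ (Icc 1 D).filter (fun d => c ∣ d), uu D R d / d = if R < c then ww D c else 0 := by
  have h1 : ∀ d ∈ (Icc 1 D).filter (fun d => c ∣ d), uu D R d / d = 1 / d -
      ∑ c' ∈ Icc 1 R, if d ∣ c' then mu (c' / d) * ww D c' else 0 := by
    intro d hd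
    rw [mem_filter, mem_Icc] at hd
    have hd0 : (d : ℝ) ≠ 0 := by
      have : 0 < d := hd.1.1
      positivity
    unfold uu
    rw [← Finset.sum_filter]
    field_simp
  rw [Finset.sum_congr rfl h1, Finset.sum_sub_distrib, uuz_ww D hc, Finset.sum_comm]
  have h2 : ∀ c' ∈ Icc 1 R, (∑ d ∈ (Icc 1 D).filter (fun d => c ∣ d),
      if d ∣ c' then mu (c' / d) * ww D c' else 0) = if c' = c then ww D c else 0 := by
    intro c' hc'
    rw [mem_Icc] at hc'
    have h3 : (∑ d ∈ (Icc 1 D).filter (fun d => c ∣ d),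
        if d ∣ c' then mu (c' / d) * ww D c' else 0) =
        (∑ d ∈ c'.divisors.filter (fun d => c ∣ d), mu (c' / d)) * ww D c' := by
      rw [← Finset.sum_filter, Finset.sum_mul]
      refine Finset.sum_congr ?_ fun _ _ => rfl
      ext d
      simp only [mem_filter, mem_Icc, Nat.mem_divisors]
      constructor
      · rintro ⟨⟨_, h4⟩, h5⟩
        exact ⟨⟨h5, by omega⟩, h4⟩
      · rintro ⟨⟨h5, _⟩, h4⟩
        have := Nat.le_of_dvd (by omega) h5
        have := Nat.pos_of_dvd_of_pos h5 (by omega)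
        exact ⟨⟨⟨by omega, by omega⟩, h4⟩, h5⟩
    rw [h3, uua_mu hc'.1 hc]
    split_ifs with h
    · rw [h, one_mul]
    · rw [zero_mul]
  rw [Finset.sum_congr rfl h2, Finset.sum_ite_eq']
  by_cases h : R < c
  · rw [if_pos h, if_neg, sub_zero]
    rw [mem_Icc]
    omega
  · rw [if_neg h, if_pos, sub_self]
    rw [mem_Icc]
    omega

end Pool.Agent.LSPD

namespace Pool.Agent.LSPD

alias uu_A := uu_A_pr

end Pool.Agent.LSPD
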