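import Pool.Agent.Lib_helper19.LSPD.Defs
import Pool.Agent.Lib_helper61.FG.P.GB
import Pool.Agent.Lib_helper61.FG.P.FE
import Pool.Agent.Lib_helper19.LSPD.UUA

/-! LSP, part D: block MEA. -/

set_option autoImplicit false

namespace Pool.Agent.LSPD

open Pool.Agent.FG61 (mu cc)
open Pool.Agent.Var35 (e)
open Finset

theorem mea_Hn (n D : ℕ) (hn : n ≤ D) : Hn n ≤ 1 + Real.log D := by
  have h1 : Hn n ≤ Hn D := by
    unfold Hn
    exact sum_le_sum_of_subset_of_nonneg (Icc_subset_Icc_right hn) (fun i _ _ => by positivity)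
  exact h1.trans (Pool.Agent.FG61.GB_harm D)

theorem mea_ww0 (D c : ℕ) : 0 ≤ ww D c := by
  unfold ww Hn
  exact div_nonneg (sum_nonneg fun i _ => by positivity) (Nat.cast_nonneg c)

theorem mea_ww (D c : ℕ) : ww D c ≤ (1 + Real.log D) / c := by
  unfold ww
  exact div_le_div_of_nonneg_right (mea_Hn (D / c) D (Nat.div_le_self _ _)) (Nat.cast_nonneg c)

/-- the `A_c`, restricted to `p ∤ d` -/
noncomputable def mea_A (D R p c : ℕ) : ℝ :=
  ∑ d ∈ (Icc 1 D).filter (fun d => c ∣ d), (if p ∣ d then 0 else uu D R d / d)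

theorem mea_A_eq {D R p c : ℕ} (hp : p.Prime) (hpc : ¬ p ∣ c) :
    mea_A D R p c = ∑ d ∈ (Icc 1 D).filter (fun d => c ∣ d), uu D R d / d -
      ∑ d ∈ (Icc 1 D).filter (fun d => c * p ∣ d), uu D R d / d := by
  have hcop : Nat.Coprime c p := ((Nat.Prime.coprime_iff_not_dvd hp).2 hpc).symm
  have h1 : (Icc 1 D).filter (fun d => c * p ∣ d) =
      ((Icc 1 D).filter (fun d => c ∣ d)).filter (fun d => p ∣ d) := by
    ext d
    simp only [mem_filter]
    constructor
    · rintro ⟨h1, h2⟩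
      exact ⟨⟨h1, (Dvd.intro _ rfl).trans h2⟩, (Dvd.intro_left _ rfl).trans h2⟩
    · rintro ⟨⟨h1, h2⟩, h3⟩
      exact ⟨h1, Nat.Coprime.mul_dvd_of_dvd_of_dvd hcop h2 h3⟩
  rw [h1, sum_filter (fun d => p ∣ d), ← sum_sub_distrib]
  unfold mea_A
  refine sum_congr rfl fun d _ => ?_
  split_ifs <;> simp

theorem mea_A_zero {D R p c : ℕ} (hpc : p ∣ c) : mea_A D R p c = 0 := by
  unfold mea_A
  refine sum_eq_zero fun d hd => ?_
  rw [mem_filter] at hd
  rw [if_pos (hpc.trans hd.2)]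

theorem mea_A_abs {D R p c : ℕ} (hR : 1 ≤ R) (hD : R ≤ D) (hp : p.Prime) (hc : 1 ≤ c) :
    |mea_A D R p c| ≤ 2 * (1 + Real.log D) / (max c R : ℕ) := by
  have hl0 : 0 ≤ Real.log D := Real.log_nonneg (by exact_mod_cast (by omega : 1 ≤ D))
  have hmax : (0 : ℝ) < (max c R : ℕ) := by
    exact_mod_cast lt_of_lt_of_le (by omega : 0 < c) (le_max_left c R)
  have hp1 : 1 ≤ p := hp.one_lt.le
  have one : ∀ c' : ℕ, c ≤ c' → |(if R < c' then ww D c' else 0)| ≤
      (1 + Real.log D) / (max c R : ℕ) := by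
    intro c' hc'
    split_ifs with h
    · rw [abs_of_nonneg (mea_ww0 D c')]
      refine (mea_ww D c').trans ?_
      have : ((max c R : ℕ) : ℝ) ≤ (c' : ℝ) := by exact_mod_cast max_le hc' h.le
      exact div_le_div_of_nonneg_left (by linarith) hmax this
    · rw [abs_zero]; positivity
  by_cases hpc : p ∣ c
  · rw [mea_A_zero hpc, abs_zero]; positivity
  · rw [mea_A_eq hp hpc, uu_A hR hD hc, uu_A hR hD (Nat.one_le_iff_ne_zero.2
      (Nat.mul_ne_zero (by omega) (by omega)))]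
    refine (abs_sub _ _).trans ?_
    have h1 := one c le_rfl
    have h2 := one (c * p) (Nat.le_mul_of_pos_right c (by omega))
    calc |(if R < c then ww D c else 0)| + |(if R < c * p then ww D (c * p) else 0)|
        ≤ (1 + Real.log D) / (max c R : ℕ) + (1 + Real.log D) / (max c R : ℕ) := add_le_add h1 h2
      _ = _ := by ring

/-- the gcd expanded with Ramanujan sums -/
theorem mea_gcd {D d d' n : ℕ} (hd : d ∈ Icc 1 D) (hn : 1 ≤ n) :
    (if Nat.gcd d d' ∣ n then (Nat.gcd d d' : ℝ) else 0) =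
      ∑ c ∈ Icc 1 D, (if c ∣ d ∧ c ∣ d' then cc c n else 0) := by
  rw [mem_Icc] at hd
  have hg : 1 ≤ Nat.gcd d d' := Nat.gcd_pos_of_pos_left _ (by omega)
  rw [← Pool.Agent.FG61.fe_sum_cc (Nat.gcd d d') n hg hn, ← sum_filter]
  refine sum_congr ?_ fun _ _ => rfl
  ext c
  rw [Nat.mem_divisors, mem_filter, mem_Icc, Nat.dvd_gcd_iff]
  constructor
  · rintro ⟨h1, h2⟩
    exact ⟨⟨Nat.pos_of_dvd_of_pos h1.1 (by omega), (Nat.le_of_dvd (by omega) h1.1).trans hd.2⟩, h1⟩
  · rintro ⟨h1, h2⟩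
    exact ⟨h2, by omega⟩

theorem mea_M2 {p p' : ℕ} {r : ℤ} (h : PP p p' r) {D R : ℕ} :
    M2 D R p p' r = ∑ c ∈ Icc 1 D, cc c (n0 p p' r) * (mea_A D R p c * mea_A D R p' c) := by
  have hn : 1 ≤ n0 p p' r := by
    unfold n0
    have hr : r ≠ 0 := fun h0 => h.dv (by rw [h0]; exact dvd_zero _)
    have hpp : ((p : ℤ) - p') ≠ 0 := sub_ne_zero.2 (by exact_mod_cast h.ne)
    have := mul_ne_zero hr hpp
    omega
  have term : ∀ d ∈ Icc 1 D, ∀ d' ∈ Icc 1 D,
      uu D R d * uu D R d' * rh p p' r d d' / (Nat.lcm d d' : ℕ) =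
      ∑ c ∈ Icc 1 D, cc c (n0 p p' r) * ((if c ∣ d then (if p ∣ d then 0 else uu D R d / d) else 0) *
        (if c ∣ d' then (if p' ∣ d' then 0 else uu D R d' / d') else 0)) := by
    intro d hd d' hd'
    have hd1 : 1 ≤ d := (mem_Icc.1 hd).1
    have hd1' : 1 ≤ d' := (mem_Icc.1 hd').1
    have hdR : (d : ℝ) ≠ 0 := by
      have : d ≠ 0 := by omega
      exact_mod_cast this
    have hdR' : (d' : ℝ) ≠ 0 := by
      have : d' ≠ 0 := by omega
      exact_mod_cast this
    have hl : ((Nat.lcm d d' : ℕ) : ℝ) ≠ 0 := by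
      have : Nat.lcm d d' ≠ 0 := Nat.lcm_ne_zero (by omega) (by omega)
      exact_mod_cast this
    have hgl : ((Nat.gcd d d' : ℕ) : ℝ) * (Nat.lcm d d' : ℕ) = d * d' := by
      exact_mod_cast Nat.gcd_mul_lcm d d'
    by_cases hp : p ∣ d
    · have h1 : rh p p' r d d' = 0 := by
        unfold rh
        rw [if_neg (fun h0 => h0.1 hp)]
      rw [h1, mul_zero, zero_div]
      symm
      refine sum_eq_zero fun c _ => ?_
      rw [if_pos hp]
      simp
    · by_cases hp' : p' ∣ d'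
      · have h1 : rh p p' r d d' = 0 := by
          unfold rh
          rw [if_neg (fun h0 => h0.2.1 hp')]
        rw [h1, mul_zero, zero_div]
        symm
        refine sum_eq_zero fun c _ => ?_
        rw [if_pos hp']
        simp
      · have h1 : rh p p' r d d' / (Nat.lcm d d' : ℕ) =
            (if Nat.gcd d d' ∣ n0 p p' r then (Nat.gcd d d' : ℝ) else 0) / (d * d') := by
          unfold rh
          simp only [hp, hp', not_false_eq_true, true_and]
          split_ifs with h2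
          · rw [← hgl]
            field_simp
          · simp
        rw [mul_div_assoc, h1, mea_gcd hd hn, sum_div, mul_sum]
        refine sum_congr rfl fun c _ => ?_
        rw [if_neg hp, if_neg hp']
        by_cases h3 : c ∣ d
        · by_cases h4 : c ∣ d'
          · rw [if_pos ⟨h3, h4⟩, if_pos h3, if_pos h4]
            field_simp
          · rw [if_neg (fun h0 : _ ∧ _ => h4 h0.2), if_neg h4]; simp
        · rw [if_neg (fun h0 : _ ∧ _ => h3 h0.1), if_neg h3]; simp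
  unfold M2
  calc ∑ d ∈ Icc 1 D, ∑ d' ∈ Icc 1 D, uu D R d * uu D R d' * rh p p' r d d' / (Nat.lcm d d' : ℕ)
      = ∑ d ∈ Icc 1 D, ∑ d' ∈ Icc 1 D, ∑ c ∈ Icc 1 D, cc c (n0 p p' r) *
        ((if c ∣ d then (if p ∣ d then 0 else uu D R d / d) else 0) *
        (if c ∣ d' then (if p' ∣ d' then 0 else uu D R d' / d') else 0)) :=
        sum_congr rfl fun d hd => sum_congr rfl fun d' hd' => term d hd d' hd'
    _ = ∑ c ∈ Icc 1 D, ∑ d ∈ Icc 1 D, ∑ d' ∈ Icc 1 D, cc c (n0 p p' r) *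
        ((if c ∣ d then (if p ∣ d then 0 else uu D R d / d) else 0) *
        (if c ∣ d' then (if p' ∣ d' then 0 else uu D R d' / d') else 0)) := by
        exact (sum_congr rfl fun d _ => sum_comm).trans sum_comm
    _ = ∑ c ∈ Icc 1 D, cc c (n0 p p' r) * (mea_A D R p c * mea_A D R p' c) := by
        refine sum_congr rfl fun c _ => ?_
        unfold mea_A
        rw [sum_filter, sum_filter, sum_mul_sum, mul_sum]
        refine sum_congr rfl fun d _ => ?_
        rw [mul_sum]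

theorem mea_tail (D R δ : ℕ) (hR : 1 ≤ R) (hδ : 1 ≤ δ) :
    ∑ c ∈ (Icc 1 D).filter (fun c => δ ∣ c), (δ : ℝ) / ((max c R : ℕ) : ℝ) ^ 2 ≤ 3 / R := by
  have hR0 : (0 : ℝ) < R := by exact_mod_cast hR
  have hδ0 : (0 : ℝ) < δ := by exact_mod_cast hδ
  have himg : (Icc 1 D).filter (fun c => δ ∣ c) = (Icc 1 (D / δ)).image (fun m => δ * m) := by
    ext c
    simp only [mem_filter, mem_Icc, mem_image]
    constructor
    · rintro ⟨⟨h1, h2⟩, m, rfl⟩
      refine ⟨m, ⟨?_, ?_⟩, rfl⟩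
      · rcases Nat.eq_zero_or_pos m with h | h
        · subst h; simp at h1
        · exact h
      · rw [Nat.le_div_iff_mul_le hδ]
        linarith [Nat.mul_comm δ m]
    · rintro ⟨m, ⟨h1, h2⟩, rfl⟩
      rw [Nat.le_div_iff_mul_le hδ] at h2
      exact ⟨⟨Nat.mul_pos (by omega) (by omega), by linarith [Nat.mul_comm δ m]⟩, Dvd.intro _ rfl⟩
  rw [himg, sum_image (fun a _ b _ hab => Nat.eq_of_mul_eq_mul_left (by omega) hab)]
  set n := R / δ with hn
  have hnR : (n : ℝ) * δ ≤ R := by exact_mod_cast Nat.div_mul_le_self R δ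
  have hnR2 : (R : ℝ) < (n + 1) * δ := by
    have := Nat.lt_mul_div_succ R (show 0 < δ by omega)
    have h2 : (R : ℝ) < δ * ((R / δ : ℕ) + 1) := by exact_mod_cast this
    rw [← hn] at h2
    linarith
  have hterm : ∀ m ∈ Icc 1 (D / δ), (δ : ℝ) / ((max (δ * m) R : ℕ) : ℝ) ^ 2 ≤
      (if m ≤ n then (δ : ℝ) / (R : ℝ) ^ 2 else 1 / δ * (((m : ℝ) ^ 2)⁻¹)) := by
    intro m hm
    rw [mem_Icc] at hm
    split_ifs with h1
    · have : (R : ℝ) ≤ ((max (δ * m) R : ℕ) : ℝ) := by exact_mod_cast le_max_right _ _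
      exact div_le_div_of_nonneg_left hδ0.le (by positivity) (by gcongr)
    · have hm0 : (0 : ℝ) < m := by exact_mod_cast (by omega : 0 < m)
      have : (δ : ℝ) * m ≤ ((max (δ * m) R : ℕ) : ℝ) := by exact_mod_cast le_max_left _ _
      calc (δ : ℝ) / ((max (δ * m) R : ℕ) : ℝ) ^ 2 ≤ δ / ((δ : ℝ) * m) ^ 2 :=
            div_le_div_of_nonneg_left hδ0.le (by positivity) (by gcongr)
        _ = 1 / δ * (((m : ℝ) ^ 2)⁻¹) := by field_simp
  refine (sum_le_sum hterm).trans ?_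
  rw [sum_ite]
  have hA : ∑ x ∈ (Icc 1 (D / δ)).filter (fun m => m ≤ n), (δ : ℝ) / (R : ℝ) ^ 2 ≤ 1 / R := by
    rw [sum_const, nsmul_eq_mul]
    have hc : (((Icc 1 (D / δ)).filter (fun m => m ≤ n)).card : ℝ) ≤ n := by
      have : (Icc 1 (D / δ)).filter (fun m => m ≤ n) ⊆ Icc 1 n := by
        intro m hm
        rw [mem_filter, mem_Icc] at hm
        exact mem_Icc.2 ⟨hm.1.1, hm.2⟩
      have h2 := card_le_card this
      rw [Nat.card_Icc, Nat.add_sub_cancel] at h2
      exact_mod_cast h2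
    calc (((Icc 1 (D / δ)).filter (fun m => m ≤ n)).card : ℝ) * ((δ : ℝ) / (R : ℝ) ^ 2)
        ≤ n * ((δ : ℝ) / (R : ℝ) ^ 2) := mul_le_mul_of_nonneg_right hc (by positivity)
      _ = (n * δ) / (R : ℝ) ^ 2 := by ring
      _ ≤ R / (R : ℝ) ^ 2 := div_le_div_of_nonneg_right hnR (by positivity)
      _ = 1 / R := by field_simp
  have hB : ∑ x ∈ (Icc 1 (D / δ)).filter (fun m => ¬ m ≤ n), 1 / (δ : ℝ) * (((x : ℝ) ^ 2)⁻¹) ≤
      2 / R := by
    rw [← mul_sum]
    have h1 : ∑ x ∈ (Icc 1 (D / δ)).filter (fun m => ¬ m ≤ n), (((x : ℝ) ^ 2)⁻¹) ≤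
        ∑ x ∈ Ioo n (D / δ + 1), (((x : ℝ) ^ 2)⁻¹) := by
      refine sum_le_sum_of_subset_of_nonneg ?_ (fun i _ _ => by positivity)
      intro m hm
      rw [mem_filter, mem_Icc] at hm
      rw [mem_Ioo]
      omega
    have h2 := sum_Ioo_inv_sq_le (α := ℝ) n (D / δ + 1)
    calc 1 / (δ : ℝ) * ∑ x ∈ (Icc 1 (D / δ)).filter (fun m => ¬ m ≤ n), (((x : ℝ) ^ 2)⁻¹)
        ≤ 1 / (δ : ℝ) * (2 / (n + 1)) := mul_le_mul_of_nonneg_left (h1.trans h2) (by positivity)
      _ = 2 / ((n + 1) * δ) := by field_simp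
      _ ≤ 2 / R := div_le_div_of_nonneg_left (by norm_num) hR0 hnR2.le
  calc _ ≤ 1 / (R : ℝ) + 2 / R := add_le_add hA hB
    _ = 3 / R := by ring

theorem m2_bound_pr {p p' : ℕ} {r : ℤ} (h : PP p p' r) {D R : ℕ} (hR : 1 ≤ R) (hD : R ≤ D) :
    |M2 D R p p' r| ≤ 12 * (1 + Real.log D) ^ 2 * tau (n0 p p' r) / R := by
  have hn : 1 ≤ n0 p p' r := by
    unfold n0
    have hr : r ≠ 0 := fun h0 => h.dv (by rw [h0]; exact dvd_zero _)
    have hpp : ((p : ℤ) - p') ≠ 0 := sub_ne_zero.2 (by exact_mod_cast h.ne)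
    have := mul_ne_zero hr hpp
    omega
  set n := n0 p p' r with hndef
  have hl0 : 0 ≤ Real.log D := Real.log_nonneg (by exact_mod_cast (by omega : 1 ≤ D))
  rw [mea_M2 h]
  calc |∑ c ∈ Icc 1 D, cc c n * (mea_A D R p c * mea_A D R p' c)|
      ≤ ∑ c ∈ Icc 1 D, |cc c n * (mea_A D R p c * mea_A D R p' c)| := abs_sum_le_sum_abs _ _
    _ ≤ ∑ c ∈ Icc 1 D, 4 * (1 + Real.log D) ^ 2 *
        ∑ δ ∈ n.divisors, (if δ ∣ c then (δ : ℝ) / ((max c R : ℕ) : ℝ) ^ 2 else 0) := by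
        refine sum_le_sum fun c hc => ?_
        rw [mem_Icc] at hc
        have hmax : (0 : ℝ) < (max c R : ℕ) := by
          exact_mod_cast lt_of_lt_of_le (by omega : 0 < c) (le_max_left c R)
        have h1 := mea_A_abs (D := D) hR hD h.pr hc.1
        have h2 := mea_A_abs (D := D) hR hD h.pr' hc.1
        have h3 : |cc c n| ≤ ∑ δ ∈ n.divisors, (if δ ∣ c then (δ : ℝ) else 0) := by
          refine (Pool.Agent.FG61.GB_cc_abs c n).trans (le_of_eq ?_)
          rw [← sum_filter]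
          refine sum_congr ?_ fun _ _ => rfl
          ext δ
          rw [Nat.mem_divisors, mem_filter, Nat.mem_divisors, Nat.dvd_gcd_iff]
          constructor
          · rintro ⟨⟨h4, h5⟩, h6⟩
            exact ⟨⟨h5, by omega⟩, h4⟩
          · rintro ⟨⟨h4, h5⟩, h6⟩
            exact ⟨⟨h6, h4⟩, Nat.gcd_ne_zero_left (by omega)⟩
        rw [abs_mul, abs_mul]
        calc |cc c n| * (|mea_A D R p c| * |mea_A D R p' c|)
            ≤ (∑ δ ∈ n.divisors, (if δ ∣ c then (δ : ℝ) else 0)) *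
              ((2 * (1 + Real.log D) / (max c R : ℕ)) * (2 * (1 + Real.log D) / (max c R : ℕ))) := by
              refine mul_le_mul h3 (mul_le_mul h1 h2 (abs_nonneg _) (by positivity))
                (by positivity) (sum_nonneg fun δ _ => by split_ifs <;> positivity)
          _ = 4 * (1 + Real.log D) ^ 2 *
              ∑ δ ∈ n.divisors, (if δ ∣ c then (δ : ℝ) / ((max c R : ℕ) : ℝ) ^ 2 else 0) := by
              rw [sum_mul, mul_sum]
              refine sum_congr rfl fun δ _ => ?_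
              split_ifs
              · field_simp; ring
              · ring
    _ = 4 * (1 + Real.log D) ^ 2 * ∑ δ ∈ n.divisors,
        ∑ c ∈ (Icc 1 D).filter (fun c => δ ∣ c), (δ : ℝ) / ((max c R : ℕ) : ℝ) ^ 2 := by
        rw [← mul_sum, sum_comm]
        congr 1
        refine sum_congr rfl fun δ _ => ?_
        rw [sum_filter]
    _ ≤ 4 * (1 + Real.log D) ^ 2 * ∑ δ ∈ n.divisors, 3 / (R : ℝ) := by
        refine mul_le_mul_of_nonneg_left (sum_le_sum fun δ hδ => ?_) (by positivity)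
        exact mea_tail D R δ hR (Nat.pos_of_mem_divisors hδ)
    _ = 12 * (1 + Real.log D) ^ 2 * tau n / R := by
        rw [sum_const, nsmul_eq_mul]
        unfold tau
        ring

end Pool.Agent.LSPD

namespace Pool.Agent.LSPD

alias m2_bound := m2_bound_pr

end Pool.Agent.LSPD
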