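import Pool.Agent.Lib_helper19.LSPD.Defs
import Pool.Agent.Lib_helper19.LSPD.COR
import Pool.Agent.Lib_helper19.LSPD.EES
import Pool.Agent.Lib_helper19.LSPD.MEA
import Pool.Agent.Lib_helper19.LSPD.UUB
import Pool.Agent.Lib_helper19.LSPD.UUD

/-! LSP, part D, block VPP. -/

set_option autoImplicit false

namespace Pool.Agent.LSPD

open Pool.Agent.FG61 (mu cc)
open Pool.Agent.Var35 (e)
open Finset

noncomputable section

theorem vpp_r0 {p p' : ℕ} {r : ℤ} (h : PP p p' r) : r ≠ 0 := by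
  rintro rfl
  exact h.dv (dvd_zero _)

theorem vpp_r1 {p p' : ℕ} {r : ℤ} (h : PP p p' r) : (1 : ℝ) ≤ |(r : ℝ)| := by
  have h1 : (1 : ℤ) ≤ |r| := Int.one_le_abs (vpp_r0 h)
  exact_mod_cast h1

theorem vpp_n0 {p p' : ℕ} {r : ℤ} (h : PP p p' r) : 1 ≤ n0 p p' r := by
  unfold n0
  have h1 : r * ((p : ℤ) - p') ≠ 0 := by
    refine mul_ne_zero (vpp_r0 h) ?_
    intro h2
    apply h.ne
    have : (p : ℤ) = p' := by linarith
    exact_mod_cast this
  exact Int.natAbs_pos.2 h1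

theorem vpp_n0_le {p p' : ℕ} {r : ℤ} (h : PP p p' r) :
    (n0 p p' r : ℝ) ≤ (p : ℝ) * p' * |(r : ℝ)| := by
  have h1 : ((n0 p p' r : ℕ) : ℝ) = |(r : ℝ)| * |(p : ℝ) - p'| := by
    unfold n0
    rw [Nat.cast_natAbs]
    push_cast
    rw [abs_mul]
  rw [h1]
  have hp : (1 : ℝ) ≤ p := by exact_mod_cast h.pr.one_lt.le
  have hp' : (1 : ℝ) ≤ p' := by exact_mod_cast h.pr'.one_lt.le
  have h2 : |(p : ℝ) - p'| ≤ (p : ℝ) * p' := by
    rw [abs_le]
    constructor <;> nlinarith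
  calc |(r : ℝ)| * |(p : ℝ) - p'| ≤ |(r : ℝ)| * ((p : ℝ) * p') :=
        mul_le_mul_of_nonneg_left h2 (abs_nonneg _)
    _ = _ := by ring

theorem vpp_Y {L : ℝ} (hL : 1 ≤ L) {p p' : ℕ} {r : ℤ} (h : PP p p' r) {D : ℕ} (hD : 1 ≤ D) :
    1 ≤ Yy L p p' D r ∧ (D : ℝ) ≤ Yy L p p' D r ∧ (n0 p p' r : ℝ) ≤ Yy L p p' D r := by
  have hp : (1 : ℝ) ≤ p := by exact_mod_cast h.pr.one_lt.le
  have hp' : (1 : ℝ) ≤ p' := by exact_mod_cast h.pr'.one_lt.le
  have hr := vpp_r1 h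
  have hD' : (1 : ℝ) ≤ D := by exact_mod_cast hD
  have hn := vpp_n0_le h
  have hn1 : (1 : ℝ) ≤ n0 p p' r := by exact_mod_cast vpp_n0 h
  have hY : Yy L p p' D r = ((p : ℝ) * p' * |(r : ℝ)|) * D * (1 + L) := by
    unfold Yy
    ring
  have h3 : (n0 p p' r : ℝ) * D ≤ Yy L p p' D r := by
    rw [hY]
    have h4 : (n0 p p' r : ℝ) * D ≤ ((p : ℝ) * p' * |(r : ℝ)|) * D :=
      mul_le_mul_of_nonneg_right hn (by positivity)
    have h5 : 0 ≤ ((p : ℝ) * p' * |(r : ℝ)|) * D := by positivity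
    nlinarith
  have h6 : (D : ℝ) ≤ (n0 p p' r : ℝ) * D := by nlinarith
  have h7 : (n0 p p' r : ℝ) ≤ (n0 p p' r : ℝ) * D := by nlinarith
  exact ⟨by linarith, by linarith, by linarith⟩

theorem vpp_log {δ : ℝ} (hδ : 0 < δ) {x y : ℝ} (hx : 1 ≤ x) (hy : x ≤ y) :
    1 + Real.log x ≤ (1 + 1 / δ) * y ^ δ := by
  have h1 : Real.log x ≤ x ^ δ / δ := Real.log_le_rpow_div (by linarith) hδ
  have h2 : x ^ δ ≤ y ^ δ := Real.rpow_le_rpow (by linarith) hy hδ.le
  have h3 : 1 ≤ y ^ δ := Real.one_le_rpow (by linarith) hδ.le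
  have h4 : x ^ δ / δ ≤ y ^ δ / δ := div_le_div_of_nonneg_right h2 hδ.le
  have h5 : (1 + 1 / δ) * y ^ δ = y ^ δ + y ^ δ / δ := by ring
  rw [h5]
  linarith

/-- the Gaussian weights are summable -/
theorem vpp_summable {L : ℝ} (hL : 1 ≤ L) : Summable (fun m : ℤ => gs L m) := by
  have hL0 : 0 < L := by linarith
  have key : Summable (fun n : ℕ => Real.exp (-Real.pi * ((n : ℝ) / L) ^ 2)) := by
    have h1 : Summable (fun n : ℕ => Real.exp ((n : ℝ) * (-(Real.pi / L ^ 2)))) := by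
      rw [Real.summable_exp_nat_mul_iff]
      have : 0 < Real.pi / L ^ 2 := by positivity
      linarith
    refine Summable.of_nonneg_of_le (fun n => (Real.exp_pos _).le) (fun n => ?_) h1
    apply Real.exp_le_exp.2
    have h2 : (n : ℝ) ≤ (n : ℝ) ^ 2 := by
      have : n ≤ n ^ 2 := by nlinarith [Nat.zero_le n]
      exact_mod_cast this
    have h3 : 0 < Real.pi / L ^ 2 := by positivity
    have h4 : -Real.pi * ((n : ℝ) / L) ^ 2 = -((Real.pi / L ^ 2) * (n : ℝ) ^ 2) := by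
      field_simp
    rw [h4]
    nlinarith
  refine Summable.of_nat_of_neg ?_ ?_
  · refine key.congr fun n => ?_
    unfold gs
    simp
  · refine key.congr fun n => ?_
    unfold gs
    congr 2
    push_cast
    ring

/-- the main identity -/
theorem vpp_expand {L : ℝ} (hL : 1 ≤ L) {p p' : ℕ} {r : ℤ} (h : PP p p' r) {D R : ℕ}
    (hR : 1 ≤ R) (hD : R ≤ D) :
    ∑' m : ℤ, gs L m * UU D R (p * m - r) * UU D R (p' * m - r) =
      L * M2 D R p p' r + (∑ d ∈ Icc 1 D, ∑ d' ∈ Icc 1 D, EE L p p' r d d') +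
        ∑ d ∈ Icc 1 D, ∑ d' ∈ Icc 1 D, (uu D R d * uu D R d' - 1) * EE L p p' r d d' := by
  have hS := vpp_summable hL
  have hne : ∀ m : ℤ, (p : ℤ) * m - r ≠ 0 := fun m h0 =>
    h.dv ⟨m, by linarith⟩
  have hne' : ∀ m : ℤ, (p' : ℤ) * m - r ≠ 0 := fun m h0 =>
    h.dv' ⟨m, by linarith⟩
  have h1 : ∀ m : ℤ, gs L m * UU D R (p * m - r) * UU D R (p' * m - r) =
      ∑ d ∈ Icc 1 D, ∑ d' ∈ Icc 1 D, uu D R d * uu D R d' *
        (if (d : ℤ) ∣ p * m - r ∧ (d' : ℤ) ∣ p' * m - r then gs L m else 0) := by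
    intro m
    rw [uu_div hR hD (hne m), uu_div hR hD (hne' m), Finset.sum_filter, Finset.sum_filter,
      mul_assoc, Finset.sum_mul_sum, Finset.mul_sum]
    refine Finset.sum_congr rfl fun d _ => ?_
    rw [Finset.mul_sum]
    refine Finset.sum_congr rfl fun d' _ => ?_
    by_cases a : (d : ℤ) ∣ p * m - r <;> by_cases b : (d' : ℤ) ∣ p' * m - r <;> simp [a, b] <;> ring
  have hs : ∀ d d' : ℕ, Summable (fun m : ℤ =>
      (if (d : ℤ) ∣ p * m - r ∧ (d' : ℤ) ∣ p' * m - r then gs L m else 0)) := by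
    intro d d'
    refine Summable.of_nonneg_of_le (fun m => ?_) (fun m => ?_) hS
    · split_ifs
      · exact (Real.exp_pos _).le
      · exact le_rfl
    · split_ifs
      · exact le_rfl
      · exact (Real.exp_pos _).le
  have h2 : ∑' m : ℤ, gs L m * UU D R (p * m - r) * UU D R (p' * m - r) =
      ∑ d ∈ Icc 1 D, ∑ d' ∈ Icc 1 D, uu D R d * uu D R d' * TT L p p' r d d' := by
    rw [tsum_congr h1, Summable.tsum_finsetSum]
    · refine Finset.sum_congr rfl fun d _ => ?_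
      rw [Summable.tsum_finsetSum]
      · refine Finset.sum_congr rfl fun d' _ => ?_
        rw [tsum_mul_left]
        rfl
      · intro d' _
        exact (hs d d').mul_left _
    · intro d _
      exact summable_sum fun d' _ => (hs d d').mul_left _
  rw [h2]
  unfold M2
  rw [Finset.mul_sum, ← Finset.sum_add_distrib, ← Finset.sum_add_distrib]
  refine Finset.sum_congr rfl fun d _ => ?_
  rw [Finset.mul_sum, ← Finset.sum_add_distrib, ← Finset.sum_add_distrib]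
  refine Finset.sum_congr rfl fun d' _ => ?_
  unfold EE
  ring

/-- the tiny terms -/
theorem vpp_tiny {ε : ℝ} (hε : 0 < ε) : ∃ C : ℝ, 1 ≤ C ∧ ∀ {x Y : ℝ}, 1 ≤ Y → Y ^ ε ≤ x →
    3 * x * Real.exp (-Real.pi * x ^ 2) ≤ C * (Y ^ 3)⁻¹ := by
  obtain ⟨k, hk⟩ := exists_nat_ge (3 / ε)
  refine ⟨3 * (k.factorial : ℝ), ?_, ?_⟩
  · have : (1 : ℝ) ≤ k.factorial := by exact_mod_cast Nat.one_le_iff_ne_zero.2 k.factorial_ne_zero
    linarith
  intro x Y hY hx
  have hY0 : 0 < Y := by linarith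
  have hx1 : 1 ≤ x := le_trans (Real.one_le_rpow hY hε.le) hx
  have hx0 : 0 < x := by linarith
  have h1 : x ^ k / (k.factorial : ℝ) ≤ Real.exp x := Real.pow_div_factorial_le_exp x hx0.le k
  have h2 : Y ^ 3 ≤ x ^ k := by
    calc Y ^ 3 = Y ^ (3 : ℝ) := by norm_cast
      _ ≤ Y ^ (ε * k) := by
          refine Real.rpow_le_rpow_of_exponent_le hY ?_
          rw [div_le_iff₀ hε] at hk
          linarith
      _ = (Y ^ ε) ^ k := by rw [Real.rpow_mul hY0.le, Real.rpow_natCast]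
      _ ≤ x ^ k := pow_le_pow_left₀ (by positivity) hx k
  have h3 : x * Real.exp (-Real.pi * x ^ 2) ≤ Real.exp (-x) := by
    have h4 : x ≤ Real.exp x := by
      have := Real.add_one_le_exp x
      linarith
    calc x * Real.exp (-Real.pi * x ^ 2) ≤ Real.exp x * Real.exp (-Real.pi * x ^ 2) :=
          mul_le_mul_of_nonneg_right h4 (Real.exp_pos _).le
      _ = Real.exp (x + -Real.pi * x ^ 2) := by rw [Real.exp_add]
      _ ≤ Real.exp (-x) := by
          apply Real.exp_le_exp.2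
          have hpi := Real.pi_gt_three
          nlinarith
  have hf : (0 : ℝ) < k.factorial := by exact_mod_cast k.factorial_pos
  have h5 : Real.exp (-x) ≤ (k.factorial : ℝ) * (Y ^ 3)⁻¹ := by
    rw [Real.exp_neg, inv_eq_one_div, div_le_iff₀ (Real.exp_pos _)]
    have h6 : Y ^ 3 ≤ k.factorial * Real.exp x := by
      rw [div_le_iff₀ hf] at h1
      linarith
    have h7 : (k.factorial : ℝ) * (Y ^ 3)⁻¹ * Real.exp x = (k.factorial * Real.exp x) * (Y ^ 3)⁻¹ := by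
      ring
    rw [h7, ← div_eq_mul_inv, le_div_iff₀ (by positivity)]
    linarith
  calc 3 * x * Real.exp (-Real.pi * x ^ 2) = 3 * (x * Real.exp (-Real.pi * x ^ 2)) := by ring
    _ ≤ 3 * ((k.factorial : ℝ) * (Y ^ 3)⁻¹) := by linarith
    _ = _ := by ring

/-- block VPP -/
theorem vpp_pr {ε : ℝ} (hε : 0 < ε) : ∃ C : ℝ, 1 ≤ C ∧ ∀ {L : ℝ}, 1 ≤ L → ∀ {p p' : ℕ} {r : ℤ},
    PP p p' r → ∀ {D R T₀ : ℕ}, 1 ≤ R → R ≤ D → 1 ≤ T₀ →
    (R : ℝ) * D * Yy L p p' D r ^ ε ≤ L →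
    |∑' m : ℤ, gs L m * UU D R (p * m - r) * UU D R (p' * m - r)| ≤
      C * Yy L p p' D r ^ ε * (L / R + L / T₀ + 1 + (1 + |(r : ℝ)| / (p * L)) *
        ((D : ℝ) + (D : ℝ) ^ (7 / 4 : ℝ) * ((p : ℝ) * T₀) ^ (3 / 4 : ℝ))) := by
  have hδ : 0 < ε / 8 := by positivity
  obtain ⟨C₁, hC₁, H₁⟩ := cor hε
  obtain ⟨C₂, hC₂, H₂⟩ := vpp_tiny hε
  obtain ⟨C₅, hC₅, H₅⟩ := Pool.Agent.FG61.divisor_bound hδ
  set C₃ : ℝ := 12 * (1 + 1 / (ε / 8)) ^ 2 * C₅ with hC₃
  have hC₃0 : 0 ≤ C₃ := by positivity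
  refine ⟨C₁ + C₃ + 10001 * C₂, by linarith, ?_⟩
  intro L hL p p' r h D R T₀ hR hRD hT hRDL
  have hD : 1 ≤ D := le_trans hR hRD
  obtain ⟨hY1, hYD, hYn⟩ := vpp_Y hL h hD
  have H := H₁ hL h hD hT
  set Y : ℝ := Yy L p p' D r with hY
  have hY0 : 0 < Y := by linarith
  have hD' : (1 : ℝ) ≤ D := by exact_mod_cast hD
  have hR' : (1 : ℝ) ≤ R := by exact_mod_cast hR
  have hT' : (1 : ℝ) ≤ T₀ := by exact_mod_cast hT
  have hL0 : 0 < L := by linarith
  have hYe1 : 1 ≤ Y ^ ε := Real.one_le_rpow hY1 hε.le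
  have hlogD : 0 ≤ Real.log D := Real.log_nonneg hD'
  -- the mean value
  have m1 : |L * M2 D R p p' r| ≤ C₃ * Y ^ ε * (L / R) := by
    rw [abs_mul, abs_of_pos hL0]
    have h1 := m2_bound h hR hRD
    set y : ℝ := Y ^ (ε / 8) with hy
    have hy1 : 1 ≤ y := Real.one_le_rpow hY1 hδ.le
    have hy8 : Y ^ ε = y ^ 8 := by
      rw [hy, ← Real.rpow_natCast, ← Real.rpow_mul hY0.le]
      congr 1
      push_cast
      ring
    have s3 : tau (n0 p p' r) ≤ C₅ * y := by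
      unfold tau
      refine (H₅ _ (vpp_n0 h)).trans ?_
      refine mul_le_mul_of_nonneg_left ?_ hC₅.le
      exact Real.rpow_le_rpow (by positivity) hYn hδ.le
    have s4 : 1 + Real.log D ≤ (1 + 1 / (ε / 8)) * y := vpp_log hδ hD' hYD
    have s5 : (1 + Real.log D) ^ 2 ≤ ((1 + 1 / (ε / 8)) * y) ^ 2 :=
      pow_le_pow_left₀ (by linarith) s4 2
    have s6 : 12 * (1 + Real.log D) ^ 2 * tau (n0 p p' r) ≤ C₃ * y ^ 3 := by
      calc 12 * (1 + Real.log D) ^ 2 * tau (n0 p p' r)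
          ≤ 12 * ((1 + 1 / (ε / 8)) * y) ^ 2 * (C₅ * y) := by
            refine mul_le_mul (by linarith) s3 ?_ (by positivity)
            unfold tau
            positivity
        _ = _ := by rw [hC₃]; ring
    have s7 : y ^ 3 ≤ y ^ 8 := pow_le_pow_right₀ hy1 (by norm_num)
    calc L * |M2 D R p p' r| ≤ L * (12 * (1 + Real.log D) ^ 2 * tau (n0 p p' r) / R) :=
          mul_le_mul_of_nonneg_left h1 hL0.le
      _ ≤ L * (C₃ * y ^ 8 / R) := by
          refine mul_le_mul_of_nonneg_left ?_ hL0.le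
          refine div_le_div_of_nonneg_right ?_ (by linarith)
          exact s6.trans (mul_le_mul_of_nonneg_left s7 hC₃0)
      _ = _ := by rw [hy8]; ring
  -- the error terms
  have m2 : |∑ d ∈ Icc 1 D, ∑ d' ∈ Icc 1 D, EE L p p' r d d'| ≤
      C₁ * Y ^ ε * (L / T₀ + 1 + (1 + |(r : ℝ)| / (p * L)) *
        ((D : ℝ) + (D : ℝ) ^ (7 / 4 : ℝ) * ((p : ℝ) * T₀) ^ (3 / 4 : ℝ))) := by
    rw [Finset.sum_comm]
    exact H
  have m3 : |∑ d ∈ Icc 1 D, ∑ d' ∈ Icc 1 D, (uu D R d * uu D R d' - 1) * EE L p p' r d d'| ≤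
      10001 * C₂ := by
    have hub := uu_bound hR hRD
    have hu4 : (2 + Real.log D) ^ 4 ≤ 10000 * Y := by
      have h1 : 1 + Real.log D ≤ (1 + 1 / (1 / 4 : ℝ)) * Y ^ (1 / 4 : ℝ) :=
        vpp_log (by norm_num) hD' hYD
      have h2 : 2 + Real.log D ≤ 10 * Y ^ (1 / 4 : ℝ) := by
        norm_num at h1 ⊢
        linarith
      calc (2 + Real.log D) ^ 4 ≤ (10 * Y ^ (1 / 4 : ℝ)) ^ 4 :=
            pow_le_pow_left₀ (by linarith) h2 4
        _ = 10000 * (Y ^ (1 / 4 : ℝ)) ^ 4 := by ring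
        _ = 10000 * Y := by
            rw [← Real.rpow_natCast, ← Real.rpow_mul hY0.le]
            norm_num
    have hterm : ∀ d ∈ Icc 1 D, ∀ d' ∈ Icc 1 D,
        |(uu D R d * uu D R d' - 1) * EE L p p' r d d'| ≤ 10001 * Y * (C₂ * (Y ^ 3)⁻¹) := by
      intro d hd d' hd'
      obtain ⟨hd1, hd2⟩ := mem_Icc.1 hd
      obtain ⟨hd1', hd2'⟩ := mem_Icc.1 hd'
      by_cases hc : R < d ∧ R < d'
      · rw [hub.2.1 d hc.1, hub.2.1 d' hc.2]
        simp only [mul_one, sub_self, zero_mul, abs_zero]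
        positivity
      · have hl1 : Nat.lcm d d' ≤ R * D := by
          have h1 : Nat.lcm d d' ≤ d * d' := Nat.le_of_dvd (Nat.mul_pos hd1 hd1')
            (Nat.lcm_dvd_mul d d')
          rcases not_and_or.1 hc with h2 | h2
          · exact h1.trans (Nat.mul_le_mul (not_lt.1 h2) hd2')
          · calc Nat.lcm d d' ≤ d * d' := h1
              _ = d' * d := Nat.mul_comm _ _
              _ ≤ R * D := Nat.mul_le_mul (not_lt.1 h2) hd2
        have hl0 : 0 < Nat.lcm d d' := Nat.lcm_pos hd1 hd1'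
        have hl0' : (0 : ℝ) < (Nat.lcm d d' : ℕ) := by exact_mod_cast hl0
        have hl2 : ((Nat.lcm d d' : ℕ) : ℝ) ≤ (R : ℝ) * D := by exact_mod_cast hl1
        have hx : Y ^ ε ≤ L / (Nat.lcm d d' : ℕ) := by
          rw [le_div_iff₀ hl0']
          calc Y ^ ε * (Nat.lcm d d' : ℕ) ≤ Y ^ ε * ((R : ℝ) * D) :=
                mul_le_mul_of_nonneg_left hl2 (by positivity)
            _ = (R : ℝ) * D * Y ^ ε := by ring
            _ ≤ L := hRDL
        have hlL : ((Nat.lcm d d' : ℕ) : ℝ) ≤ L := by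
          have : 1 ≤ L / (Nat.lcm d d' : ℕ) := hYe1.trans hx
          rw [le_div_iff₀ hl0'] at this
          linarith
        have he := ee_small hL0 h hd1 hd1' hlL
        have ht := H₂ hY1 hx
        have hE : |EE L p p' r d d'| ≤ C₂ * (Y ^ 3)⁻¹ := he.trans ht
        have hU : |uu D R d * uu D R d' - 1| ≤ 10001 * Y := by
          have a1 := hub.1 d hd1 hd2
          have a2 := hub.1 d' hd1' hd2'
          calc |uu D R d * uu D R d' - 1| ≤ |uu D R d * uu D R d'| + |(1 : ℝ)| := abs_sub _ _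
            _ = |uu D R d| * |uu D R d'| + 1 := by rw [abs_mul, abs_one]
            _ ≤ (2 + Real.log D) ^ 2 * (2 + Real.log D) ^ 2 + 1 := by
                refine add_le_add (mul_le_mul a1 a2 (abs_nonneg _) (by positivity)) le_rfl
            _ = (2 + Real.log D) ^ 4 + 1 := by ring
            _ ≤ 10001 * Y := by linarith
        rw [abs_mul]
        exact mul_le_mul hU hE (abs_nonneg _) (by positivity)
    calc |∑ d ∈ Icc 1 D, ∑ d' ∈ Icc 1 D, (uu D R d * uu D R d' - 1) * EE L p p' r d d'|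
        ≤ ∑ d ∈ Icc 1 D, ∑ d' ∈ Icc 1 D, 10001 * Y * (C₂ * (Y ^ 3)⁻¹) := by
          refine (Finset.abs_sum_le_sum_abs _ _).trans (Finset.sum_le_sum fun d hd => ?_)
          refine (Finset.abs_sum_le_sum_abs _ _).trans (Finset.sum_le_sum fun d' hd' => ?_)
          exact hterm d hd d' hd'
      _ = (D : ℝ) * (D * (10001 * Y * (C₂ * (Y ^ 3)⁻¹))) := by
          simp
      _ ≤ Y * (Y * (10001 * Y * (C₂ * (Y ^ 3)⁻¹))) := by
          have : 0 ≤ 10001 * Y * (C₂ * (Y ^ 3)⁻¹) := by positivity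
          gcongr
      _ = 10001 * C₂ := by
          field_simp
  rw [vpp_expand hL h hR hRD]
  refine (abs_add_le _ _).trans ?_
  refine (add_le_add (abs_add_le _ _) le_rfl).trans ?_
  refine (add_le_add (add_le_add m1 m2) m3).trans ?_
  set W : ℝ := (1 + |(r : ℝ)| / (p * L)) *
        ((D : ℝ) + (D : ℝ) ^ (7 / 4 : ℝ) * ((p : ℝ) * T₀) ^ (3 / 4 : ℝ)) with hW
  have hW0 : 0 ≤ W := by positivity
  have hA0 : 0 ≤ L / R := by positivity
  have hB0 : 0 ≤ L / T₀ := by positivity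
  have g1 : 10001 * C₂ ≤ 10001 * C₂ * Y ^ ε := by
    have : 0 ≤ 10001 * C₂ := by linarith
    nlinarith
  have g2 : C₃ * Y ^ ε * (L / R) ≤ C₃ * Y ^ ε * (L / R + L / T₀ + 1 + W) := by
    refine mul_le_mul_of_nonneg_left (by linarith) (by positivity)
  have g3 : C₁ * Y ^ ε * (L / T₀ + 1 + W) ≤ C₁ * Y ^ ε * (L / R + L / T₀ + 1 + W) := by
    refine mul_le_mul_of_nonneg_left (by linarith) (by positivity)
  have g4 : 10001 * C₂ * Y ^ ε ≤ 10001 * C₂ * Y ^ ε * (L / R + L / T₀ + 1 + W) := by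
    have h1 : 0 ≤ 10001 * C₂ * Y ^ ε := by positivity
    nlinarith
  have g5 : (C₁ + C₃ + 10001 * C₂) * Y ^ ε * (L / R + L / T₀ + 1 + W) =
      C₃ * Y ^ ε * (L / R + L / T₀ + 1 + W) + C₁ * Y ^ ε * (L / R + L / T₀ + 1 + W) +
      10001 * C₂ * Y ^ ε * (L / R + L / T₀ + 1 + W) := by ring
  rw [g5]
  linarith

end

end Pool.Agent.LSPD

namespace Pool.Agent.LSPD

alias vpp := vpp_pr

end Pool.Agent.LSPD
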