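import Pool.Agent.Lib_helper19.LSPD.Defs
import Pool.Agent.Lib_helper19.LSPD.DIA
import Pool.Agent.Lib_helper19.LSPD.UUZ
import Pool.Agent.Lib_helper19.LSPD.VPP

/-! LSP, part D: block THD (Theorem D). -/

set_option autoImplicit false

namespace Pool.Agent.LSPD

open Pool.Agent.FG61 (mu cc)
open Pool.Agent.Var35 (e)
open Finset

noncomputable section

lemma thd_gs_nonneg (L : ℝ) (m : ℤ) : 0 ≤ gs L m := (Real.exp_pos _).le

lemma thd_gs_lower {M : ℕ} (hM : 1 ≤ M) {m : ℤ} (h1 : (M : ℤ) < m) (h2 : m ≤ 2 * M) :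
    1 ≤ Real.exp (4 * Real.pi) * gs M m := by
  have hM' : (0 : ℝ) < M := by exact_mod_cast hM
  have h1' : (M : ℝ) < m := by exact_mod_cast h1
  have h2' : (m : ℝ) ≤ 2 * M := by exact_mod_cast h2
  unfold gs
  rw [← Real.exp_add]
  apply Real.one_le_exp
  have h3 : (m : ℝ) / M ≤ 2 := by
    rw [div_le_iff₀ hM']; exact h2'
  have h4 : 0 ≤ (m : ℝ) / M := div_nonneg (by linarith) hM'.le
  have h5 : ((m : ℝ) / M) ^ 2 ≤ 4 := by nlinarith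
  nlinarith [Real.pi_pos]

/-- the size of `Yy` -/
lemma thd_Yy {P M D p p' : ℕ} {r : ℤ} (hP : 1 ≤ P) (hM : 1 ≤ M) (hD : 2 ≤ D) (hr : r ≠ 0)
    (hp : p ≤ 2 * P) (hp' : p' ≤ 2 * P) :
    Yy M p p' D r ≤ ((P : ℝ) * M * D * |(r : ℝ)|) ^ 5 := by
  have hP' : (1 : ℝ) ≤ P := by exact_mod_cast hP
  have hM' : (1 : ℝ) ≤ M := by exact_mod_cast hM
  have hD' : (2 : ℝ) ≤ D := by exact_mod_cast hD
  have hr' : (1 : ℝ) ≤ |(r : ℝ)| := by
    have : (1 : ℤ) ≤ |r| := Int.one_le_abs hr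
    exact_mod_cast this
  have hp1 : (p : ℝ) ≤ 2 * P := by exact_mod_cast hp
  have hp2 : (p' : ℝ) ≤ 2 * P := by exact_mod_cast hp'
  have hp0 : (0 : ℝ) ≤ p := Nat.cast_nonneg _
  have hp0' : (0 : ℝ) ≤ p' := Nat.cast_nonneg _
  set X : ℝ := (P : ℝ) * M * D * |(r : ℝ)| with hX
  have hPM : (1 : ℝ) ≤ (P : ℝ) * M := by nlinarith
  have hPMD : (2 : ℝ) ≤ (P : ℝ) * M * D := by nlinarith
  have hX2 : 2 ≤ X := by rw [hX]; nlinarith
  have hPX : (P : ℝ) ≤ X := by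
    have h1 : (P : ℝ) ≤ (P : ℝ) * M := le_mul_of_one_le_right (by linarith) hM'
    have h2 : (P : ℝ) * M ≤ (P : ℝ) * M * D := le_mul_of_one_le_right (by linarith) (by linarith)
    have h3 : (P : ℝ) * M * D ≤ X := le_mul_of_one_le_right (by linarith) hr'
    linarith
  have hpp : (p : ℝ) * p' ≤ 4 * ((P : ℝ) * P) := by
    have := mul_le_mul hp1 hp2 hp0' (by linarith)
    nlinarith
  have h1 : Yy M p p' D r ≤ 4 * ((P : ℝ) * P) * D * |(r : ℝ)| * (2 * M) := by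
    unfold Yy
    have ha : (p : ℝ) * p' * D ≤ 4 * ((P : ℝ) * P) * D :=
      mul_le_mul_of_nonneg_right hpp (by linarith)
    have hb : (p : ℝ) * p' * D * |(r : ℝ)| ≤ 4 * ((P : ℝ) * P) * D * |(r : ℝ)| :=
      mul_le_mul_of_nonneg_right ha (by linarith)
    exact mul_le_mul hb (by linarith) (by linarith) (by positivity)
  have h2 : 4 * ((P : ℝ) * P) * D * |(r : ℝ)| * (2 * M) = 8 * P * X := by
    rw [hX]; ring
  have h3 : 8 * (P : ℝ) * X ≤ 8 * X * X := by nlinarith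
  have h4 : 8 * X * X ≤ X ^ 5 := by
    have h5 : (8 : ℝ) ≤ X ^ 3 := by
      calc (8 : ℝ) = 2 ^ 3 := by norm_num
        _ ≤ X ^ 3 := pow_le_pow_left₀ (by norm_num) hX2 3
    nlinarith [mul_nonneg (mul_nonneg (by linarith : (0:ℝ) ≤ X) (by linarith : (0:ℝ) ≤ X))
      (by linarith : (0:ℝ) ≤ X ^ 3 - 8)]
  linarith

lemma thd_Yy_nonneg (M p p' D : ℕ) (r : ℤ) : 0 ≤ Yy M p p' D r := by
  unfold Yy; positivity

lemma thd_Yy_rpow {ε : ℝ} (hε : 0 < ε) {P M D p p' : ℕ} {r : ℤ} (hP : 1 ≤ P) (hM : 1 ≤ M)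
    (hD : 2 ≤ D) (hr : r ≠ 0) (hp : p ≤ 2 * P) (hp' : p' ≤ 2 * P) :
    Yy M p p' D r ^ (ε / 5) ≤ ((P : ℝ) * M * D * |(r : ℝ)|) ^ ε := by
  have h := thd_Yy hP hM hD hr hp hp'
  have hX : 0 ≤ (P : ℝ) * M * D * |(r : ℝ)| := by positivity
  calc Yy M p p' D r ^ (ε / 5) ≤ (((P : ℝ) * M * D * |(r : ℝ)|) ^ 5) ^ (ε / 5) :=
        Real.rpow_le_rpow (thd_Yy_nonneg M p p' D r) h (by positivity)
    _ = ((P : ℝ) * M * D * |(r : ℝ)|) ^ ε := by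
        rw [← Real.rpow_natCast, ← Real.rpow_mul hX]
        congr 1
        push_cast
        ring

/-- the factor `(p T₀)^{3/4}` -/
lemma thd_34 {P p T₀ : ℕ} (hp : p ≤ 2 * P) :
    ((p : ℝ) * T₀) ^ (3 / 4 : ℝ) ≤ 2 * ((P : ℝ) * T₀) ^ (3 / 4 : ℝ) := by
  have hp1 : (p : ℝ) ≤ 2 * P := by exact_mod_cast hp
  have hT : (0 : ℝ) ≤ T₀ := Nat.cast_nonneg _
  have hPn : (0 : ℝ) ≤ P := Nat.cast_nonneg _
  have h1 : (p : ℝ) * T₀ ≤ 2 * ((P : ℝ) * T₀) := by nlinarith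
  calc ((p : ℝ) * T₀) ^ (3 / 4 : ℝ) ≤ (2 * ((P : ℝ) * T₀)) ^ (3 / 4 : ℝ) :=
        Real.rpow_le_rpow (by positivity) h1 (by norm_num)
    _ = (2 : ℝ) ^ (3 / 4 : ℝ) * ((P : ℝ) * T₀) ^ (3 / 4 : ℝ) :=
        Real.mul_rpow (by norm_num) (by positivity)
    _ ≤ 2 * ((P : ℝ) * T₀) ^ (3 / 4 : ℝ) := by
        apply mul_le_mul_of_nonneg_right _ (Real.rpow_nonneg (by positivity) _)
        calc (2 : ℝ) ^ (3 / 4 : ℝ) ≤ (2 : ℝ) ^ (1 : ℝ) :=
              Real.rpow_le_rpow_of_exponent_le (by norm_num) (by norm_num)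
          _ = 2 := Real.rpow_one 2

/-- the off-diagonal bracket -/
lemma thd_bracket {P M D R T₀ p : ℕ} {r : ℤ} (hP : 1 ≤ P) (hM : 1 ≤ M) (hPp : P < p)
    (hp : p ≤ 2 * P) :
    (M : ℝ) / R + (M : ℝ) / T₀ + 1 + (1 + |(r : ℝ)| / (p * M)) *
        ((D : ℝ) + (D : ℝ) ^ (7 / 4 : ℝ) * ((p : ℝ) * T₀) ^ (3 / 4 : ℝ)) ≤
      2 * ((M : ℝ) / R + (M : ℝ) / T₀ + 1 + (1 + |(r : ℝ)| / (P * M)) *
        ((D : ℝ) + (D : ℝ) ^ (7 / 4 : ℝ) * ((P : ℝ) * T₀) ^ (3 / 4 : ℝ))) := by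
  have hP' : (0 : ℝ) < P := by exact_mod_cast hP
  have hM' : (0 : ℝ) < M := by exact_mod_cast hM
  have hPp' : (P : ℝ) ≤ p := by exact_mod_cast hPp.le
  have h34 := thd_34 (T₀ := T₀) hp
  have hA : |(r : ℝ)| / (p * M) ≤ |(r : ℝ)| / (P * M) :=
    div_le_div_of_nonneg_left (abs_nonneg _) (by positivity)
      (mul_le_mul_of_nonneg_right hPp' hM'.le)
  have hD7 : 0 ≤ (D : ℝ) ^ (7 / 4 : ℝ) := Real.rpow_nonneg (Nat.cast_nonneg _) _
  have hD0 : (0 : ℝ) ≤ D := Nat.cast_nonneg _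
  have h34' : 0 ≤ ((p : ℝ) * T₀) ^ (3 / 4 : ℝ) := Real.rpow_nonneg (by positivity) _
  have hB : (D : ℝ) + (D : ℝ) ^ (7 / 4 : ℝ) * ((p : ℝ) * T₀) ^ (3 / 4 : ℝ) ≤
      2 * ((D : ℝ) + (D : ℝ) ^ (7 / 4 : ℝ) * ((P : ℝ) * T₀) ^ (3 / 4 : ℝ)) := by
    have := mul_le_mul_of_nonneg_left h34 hD7
    nlinarith
  have hBn : 0 ≤ (D : ℝ) + (D : ℝ) ^ (7 / 4 : ℝ) * ((p : ℝ) * T₀) ^ (3 / 4 : ℝ) := by
    positivity
  have hC : (1 + |(r : ℝ)| / (p * M)) *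
        ((D : ℝ) + (D : ℝ) ^ (7 / 4 : ℝ) * ((p : ℝ) * T₀) ^ (3 / 4 : ℝ)) ≤
      (1 + |(r : ℝ)| / (P * M)) *
        (2 * ((D : ℝ) + (D : ℝ) ^ (7 / 4 : ℝ) * ((P : ℝ) * T₀) ^ (3 / 4 : ℝ))) := by
    apply mul_le_mul (by linarith) hB hBn
    positivity
  have h1 : 0 ≤ (M : ℝ) / R := by positivity
  have h2 : 0 ≤ (M : ℝ) / T₀ := by positivity
  nlinarith

/-- summability of the products -/
lemma thd_summable {M : ℕ} {U V : ℤ → ℝ} (hU : Summable (fun m : ℤ => gs M m * U m ^ 2))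
    (hV : Summable (fun m : ℤ => gs M m * V m ^ 2)) :
    Summable (fun m : ℤ => gs M m * U m * V m) := by
  apply Summable.of_norm_bounded (hU.add hV)
  intro m
  have hg := thd_gs_nonneg M m
  rw [Real.norm_eq_abs]
  have h1 : |gs M m * U m * V m| = gs M m * |U m * V m| := by
    rw [mul_assoc, abs_mul, abs_of_nonneg hg]
  rw [h1, ← mul_add]
  apply mul_le_mul_of_nonneg_left _ hg
  rw [abs_le]
  constructor <;> nlinarith [sq_nonneg (U m + V m), sq_nonneg (U m - V m)]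

/-- Cauchy–Schwarz and the Gaussian weight -/
lemma thd_cs {M : ℕ} (hM : 1 ≤ M) (S : Finset ℕ) (U : ℕ → ℤ → ℝ) (b a : ℕ → ℝ)
    (hs : ∀ p ∈ S, Summable (fun m : ℤ => gs M m * U p m ^ 2)) :
    (∑ p ∈ S, ∑ m ∈ Ioc M (2 * M), b p * a m * U p m) ^ 2 ≤
      Real.exp (4 * Real.pi) * (∑ m ∈ Ioc M (2 * M), a m ^ 2) *
        ∑ p ∈ S, ∑ p' ∈ S, b p * b p' * ∑' m : ℤ, gs M m * U p m * U p' m := by
  classical
  set G : ℤ → ℝ := fun m => ∑ p ∈ S, b p * U p m with hG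
  have h1 : ∑ p ∈ S, ∑ m ∈ Ioc M (2 * M), b p * a m * U p m =
      ∑ m ∈ Ioc M (2 * M), a m * G m := by
    rw [Finset.sum_comm]
    refine Finset.sum_congr rfl fun m _ => ?_
    rw [hG]
    simp only [Finset.mul_sum]
    refine Finset.sum_congr rfl fun p _ => ?_
    ring
  have h2 : (∑ m ∈ Ioc M (2 * M), a m * G m) ^ 2 ≤
      (∑ m ∈ Ioc M (2 * M), a m ^ 2) * ∑ m ∈ Ioc M (2 * M), G m ^ 2 :=
    Finset.sum_mul_sq_le_sq_mul_sq _ _ _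
  have h3 : 0 ≤ ∑ m ∈ Ioc M (2 * M), a m ^ 2 := Finset.sum_nonneg fun m _ => sq_nonneg _
  have hprod : ∀ m : ℤ, gs M m * G m ^ 2 =
      ∑ p ∈ S, ∑ p' ∈ S, b p * b p' * (gs M m * U p m * U p' m) := by
    intro m
    rw [hG, sq, Finset.sum_mul_sum, Finset.mul_sum]
    refine Finset.sum_congr rfl fun p _ => ?_
    rw [Finset.mul_sum]
    refine Finset.sum_congr rfl fun p' _ => ?_
    ring
  have hsm : ∀ p ∈ S, ∀ p' ∈ S,
      Summable (fun m : ℤ => b p * b p' * (gs M m * U p m * U p' m)) :=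
    fun p hp p' hp' => (thd_summable (hs p hp) (hs p' hp')).mul_left _
  have hsG : Summable (fun m : ℤ => gs M m * G m ^ 2) := by
    have : (fun m : ℤ => gs M m * G m ^ 2) =
        fun m : ℤ => ∑ p ∈ S, ∑ p' ∈ S, b p * b p' * (gs M m * U p m * U p' m) :=
      funext hprod
    rw [this]
    exact summable_sum fun p hp => summable_sum fun p' hp' => hsm p hp p' hp'
  have htG : ∑' m : ℤ, gs M m * G m ^ 2 =
      ∑ p ∈ S, ∑ p' ∈ S, b p * b p' * ∑' m : ℤ, gs M m * U p m * U p' m := by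
    rw [tsum_congr hprod, Summable.tsum_finsetSum (fun p hp =>
      summable_sum fun p' hp' => hsm p hp p' hp')]
    refine Finset.sum_congr rfl fun p hp => ?_
    rw [Summable.tsum_finsetSum (fun p' hp' => hsm p hp p' hp')]
    refine Finset.sum_congr rfl fun p' hp' => ?_
    rw [tsum_mul_left]
  have h4 : ∑ m ∈ Ioc M (2 * M), G m ^ 2 ≤
      Real.exp (4 * Real.pi) * ∑' m : ℤ, gs M m * G m ^ 2 := by
    have h5 : ∑ m ∈ Ioc M (2 * M), G m ^ 2 ≤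
        ∑ m ∈ Ioc M (2 * M), Real.exp (4 * Real.pi) * (gs M (m : ℤ) * G m ^ 2) := by
      refine Finset.sum_le_sum fun m hm => ?_
      rw [Finset.mem_Ioc] at hm
      have h6 := thd_gs_lower hM (m := (m : ℤ)) (by exact_mod_cast hm.1) (by exact_mod_cast hm.2)
      have h7 := mul_le_mul_of_nonneg_right h6 (sq_nonneg (G m))
      linarith
    have h8 : ∑ m ∈ Ioc M (2 * M), (gs M (m : ℤ) * G m ^ 2) ≤ ∑' m : ℤ, gs M m * G m ^ 2 := by
      have h9 : ∑ m ∈ Ioc M (2 * M), (gs M (m : ℤ) * G m ^ 2) =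
          ∑ m ∈ (Ioc M (2 * M)).map (Nat.castEmbedding (R := ℤ)), gs M m * G m ^ 2 := by
        rw [Finset.sum_map]
        rfl
      rw [h9]
      exact hsG.sum_le_tsum _ fun m _ => mul_nonneg (thd_gs_nonneg M m) (sq_nonneg _)
    rw [← Finset.mul_sum] at h5
    exact h5.trans (mul_le_mul_of_nonneg_left h8 (Real.exp_pos _).le)
  rw [h1]
  calc (∑ m ∈ Ioc M (2 * M), a m * G m) ^ 2 ≤
        (∑ m ∈ Ioc M (2 * M), a m ^ 2) * ∑ m ∈ Ioc M (2 * M), G m ^ 2 := h2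
    _ ≤ (∑ m ∈ Ioc M (2 * M), a m ^ 2) *
          (Real.exp (4 * Real.pi) * ∑' m : ℤ, gs M m * G m ^ 2) :=
        mul_le_mul_of_nonneg_left h4 h3
    _ = Real.exp (4 * Real.pi) * (∑ m ∈ Ioc M (2 * M), a m ^ 2) *
        ∑ p ∈ S, ∑ p' ∈ S, b p * b p' * ∑' m : ℤ, gs M m * U p m * U p' m := by
        rw [htG]; ring

/-- summing the diagonal and the other pairs -/
lemma thd_pairs (S : Finset ℕ) (b : ℕ → ℝ) {T : ℕ → ℕ → ℝ} {A B : ℝ} (hB : 0 ≤ B)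
    (h1 : ∀ p ∈ S, |T p p| ≤ A) (h2 : ∀ p ∈ S, ∀ p' ∈ S, p ≠ p' → |T p p'| ≤ B) :
    ∑ p ∈ S, ∑ p' ∈ S, b p * b p' * T p p' ≤
      (∑ p ∈ S, b p ^ 2) * A + (∑ p ∈ S, |b p|) ^ 2 * B := by
  classical
  have hrow : ∀ p ∈ S, ∑ p' ∈ S, b p * b p' * T p p' ≤
      b p ^ 2 * A + |b p| * (∑ p' ∈ S, |b p'|) * B := by
    intro p hp
    rw [← Finset.add_sum_erase S _ hp]
    have h3 : b p * b p * T p p ≤ b p ^ 2 * A := by
      have h4 : T p p ≤ A := (le_abs_self _).trans (h1 p hp)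
      calc b p * b p * T p p = b p ^ 2 * T p p := by ring
        _ ≤ b p ^ 2 * A := mul_le_mul_of_nonneg_left h4 (sq_nonneg _)
    have h4 : ∑ p' ∈ S.erase p, b p * b p' * T p p' ≤ |b p| * (∑ p' ∈ S, |b p'|) * B := by
      calc ∑ p' ∈ S.erase p, b p * b p' * T p p' ≤ ∑ p' ∈ S.erase p, |b p| * |b p'| * B := by
            refine Finset.sum_le_sum fun p' hp' => ?_
            rw [Finset.mem_erase] at hp'
            calc b p * b p' * T p p' ≤ |b p * b p' * T p p'| := le_abs_self _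
              _ = |b p| * |b p'| * |T p p'| := by rw [abs_mul, abs_mul]
              _ ≤ |b p| * |b p'| * B :=
                  mul_le_mul_of_nonneg_left (h2 p hp p' hp'.2 (Ne.symm hp'.1)) (by positivity)
        _ ≤ ∑ p' ∈ S, |b p| * |b p'| * B :=
            Finset.sum_le_sum_of_subset_of_nonneg (Finset.erase_subset p S)
              fun p' _ _ => by positivity
        _ = |b p| * (∑ p' ∈ S, |b p'|) * B := by
            rw [Finset.mul_sum, Finset.sum_mul]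
    linarith
  calc ∑ p ∈ S, ∑ p' ∈ S, b p * b p' * T p p' ≤
        ∑ p ∈ S, (b p ^ 2 * A + |b p| * (∑ p' ∈ S, |b p'|) * B) := Finset.sum_le_sum hrow
    _ = (∑ p ∈ S, b p ^ 2) * A + (∑ p ∈ S, |b p|) ^ 2 * B := by
        rw [Finset.sum_add_distrib, ← Finset.sum_mul, ← Finset.sum_mul, ← Finset.sum_mul]
        ring

/-- block THD -/
theorem disp_pr {ε : ℝ} (hε : 0 < ε) : ∃ C : ℝ, 1 ≤ C ∧ ∀ (P M D R T₀ : ℕ), 1 ≤ P → 1 ≤ M →
    1 ≤ D → 1 ≤ R → 1 ≤ T₀ → ∀ (r : ℤ) (S : Finset ℕ),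
    (∀ p ∈ S, p.Prime ∧ P < p ∧ p ≤ 2 * P ∧ ¬ (p : ℤ) ∣ r) →
    (R : ℝ) * D * ((P : ℝ) * M * D * |(r : ℝ)|) ^ ε ≤ M →
    ∀ b a : ℕ → ℝ,
      (∑ p ∈ S, ∑ m ∈ Ioc M (2 * M), b p * a m * UU D R ((p : ℤ) * m - r)) ^ 2 ≤
        C * ((P : ℝ) * M * D * |(r : ℝ)|) ^ ε * (∑ m ∈ Ioc M (2 * M), a m ^ 2) *
          ((M : ℝ) * ∑ p ∈ S, b p ^ 2 + (∑ p ∈ S, |b p|) ^ 2 *
            ((M : ℝ) / R + (M : ℝ) / T₀ + 1 + (1 + |(r : ℝ)| / (P * M)) *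
              ((D : ℝ) + (D : ℝ) ^ (7 / 4 : ℝ) * ((P : ℝ) * T₀) ^ (3 / 4 : ℝ)))) := by
  obtain ⟨C₁, hC₁, hv⟩ := vpp (ε := ε / 5) (by positivity)
  obtain ⟨C₂, hC₂, hd⟩ := dia (ε := ε / 5) (by positivity)
  have he : 1 ≤ Real.exp (4 * Real.pi) := Real.one_le_exp (by positivity)
  refine ⟨Real.exp (4 * Real.pi) * (C₂ + 2 * C₁), by nlinarith, ?_⟩
  intro P M D R T₀ hP hM hD hR hT r S hS hyp b a
  have hP' : (1 : ℝ) ≤ P := by exact_mod_cast hP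
  have hM' : (1 : ℝ) ≤ M := by exact_mod_cast hM
  set X : ℝ := (P : ℝ) * M * D * |(r : ℝ)| with hX
  set B : ℝ := (M : ℝ) / R + (M : ℝ) / T₀ + 1 + (1 + |(r : ℝ)| / (P * M)) *
            ((D : ℝ) + (D : ℝ) ^ (7 / 4 : ℝ) * ((P : ℝ) * T₀) ^ (3 / 4 : ℝ)) with hB
  set QA : ℝ := ∑ m ∈ Ioc M (2 * M), a m ^ 2 with hQA
  set QB : ℝ := ∑ p ∈ S, b p ^ 2 with hQB
  set LB : ℝ := (∑ p ∈ S, |b p|) ^ 2 with hLB
  have hQA0 : 0 ≤ QA := Finset.sum_nonneg fun m _ => sq_nonneg _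
  have hQB0 : 0 ≤ QB := Finset.sum_nonneg fun m _ => sq_nonneg _
  have hLB0 : 0 ≤ LB := sq_nonneg _
  have hX0 : 0 ≤ X := by rw [hX]; positivity
  have hXe : 0 ≤ X ^ ε := Real.rpow_nonneg hX0 _
  have hB0 : 0 ≤ B := by rw [hB]; positivity
  have hC12 : 0 ≤ C₂ + 2 * C₁ := by linarith
  have hrhs : 0 ≤ Real.exp (4 * Real.pi) * (C₂ + 2 * C₁) * X ^ ε * QA *
      ((M : ℝ) * QB + LB * B) := by positivity
  -- the terms of the sum are nonzero integers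
  have hne : ∀ p ∈ S, ∀ m : ℤ, (p : ℤ) * m - r ≠ 0 := by
    intro p hp m h0
    exact (hS p hp).2.2.2 ⟨m, by linarith⟩
  rcases S.eq_empty_or_nonempty with hSe | hSn
  · have hz : ∑ p ∈ S, ∑ m ∈ Ioc M (2 * M), b p * a m * UU D R ((p : ℤ) * m - r) = 0 := by
      rw [hSe, Finset.sum_empty]
    rw [hz]
    simpa using hrhs
  rcases le_or_gt D R with hDR | hRD
  · have hz : ∑ p ∈ S, ∑ m ∈ Ioc M (2 * M), b p * a m * UU D R ((p : ℤ) * m - r) = 0 := by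
      refine Finset.sum_eq_zero fun p hp => Finset.sum_eq_zero fun m _ => ?_
      rw [uu_zero hDR (hne p hp m), mul_zero]
    rw [hz]
    simpa using hrhs
  -- the main case
  obtain ⟨p₀, hp₀⟩ := hSn
  have hr0 : r ≠ 0 := by
    rintro rfl
    exact (hS p₀ hp₀).2.2.2 (dvd_zero _)
  have hD2 : 2 ≤ D := by omega
  have hYy : ∀ p ∈ S, ∀ p' ∈ S, Yy M p p' D r ^ (ε / 5) ≤ X ^ ε := fun p hp p' hp' =>
    thd_Yy_rpow hε hP hM hD2 hr0 (hS p hp).2.2.1 (hS p' hp').2.2.1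
  have hdia : ∀ p ∈ S, Summable (fun m : ℤ => gs M m * UU D R (p * m - r) ^ 2) ∧
      ∑' m : ℤ, gs M m * UU D R (p * m - r) ^ 2 ≤ C₂ * Yy M p p D r ^ (ε / 5) * M :=
    fun p hp => hd hM' (hS p hp).1 (hS p hp).2.2.2 hR hRD.le
  have hmain := thd_cs hM S (fun p m => UU D R ((p : ℤ) * m - r)) b a
    (fun p hp => (hdia p hp).1)
  have hpairs := thd_pairs S b
    (T := fun p p' => ∑' m : ℤ, gs M m * UU D R ((p : ℤ) * m - r) * UU D R ((p' : ℤ) * m - r))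
    (A := C₂ * X ^ ε * M) (B := 2 * C₁ * X ^ ε * B) (by positivity)
    (by
      intro p hp
      have h1 : ∑' m : ℤ, gs M m * UU D R ((p : ℤ) * m - r) * UU D R ((p : ℤ) * m - r) =
          ∑' m : ℤ, gs M m * UU D R (p * m - r) ^ 2 :=
        tsum_congr fun m => by ring
      have h2 : 0 ≤ ∑' m : ℤ, gs M m * UU D R (p * m - r) ^ 2 :=
        tsum_nonneg fun m => mul_nonneg (thd_gs_nonneg M m) (sq_nonneg _)
      show |∑' m : ℤ, gs M m * UU D R ((p : ℤ) * m - r) * UU D R ((p : ℤ) * m - r)| ≤ _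
      rw [h1, abs_of_nonneg h2]
      refine (hdia p hp).2.trans ?_
      apply mul_le_mul_of_nonneg_right _ (by linarith)
      exact mul_le_mul_of_nonneg_left (hYy p hp p hp) (by linarith))
    (by
      intro p hp p' hp' hpp
      have hPP : PP p p' r := ⟨(hS p hp).1, (hS p' hp').1, hpp, (hS p hp).2.2.2,
        (hS p' hp').2.2.2⟩
      have hcond : (R : ℝ) * D * Yy M p p' D r ^ (ε / 5) ≤ M :=
        (mul_le_mul_of_nonneg_left (hYy p hp p' hp') (by positivity)).trans hyp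
      have h1 := hv hM' hPP hR hRD.le hT hcond
      refine h1.trans ?_
      have h2 := thd_bracket (P := P) (M := M) (D := D) (R := R) (T₀ := T₀) (p := p) (r := r)
        hP hM (hS p hp).2.1 (hS p hp).2.2.1
      have h3 : C₁ * Yy M p p' D r ^ (ε / 5) ≤ C₁ * X ^ ε :=
        mul_le_mul_of_nonneg_left (hYy p hp p' hp') (by linarith)
      calc C₁ * Yy M p p' D r ^ (ε / 5) * ((M : ℝ) / R + (M : ℝ) / T₀ + 1 +
            (1 + |(r : ℝ)| / (p * M)) *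
            ((D : ℝ) + (D : ℝ) ^ (7 / 4 : ℝ) * ((p : ℝ) * T₀) ^ (3 / 4 : ℝ)))
          ≤ C₁ * X ^ ε * (2 * B) := by
            apply mul_le_mul h3 h2 _ (by positivity)
            positivity
        _ = 2 * C₁ * X ^ ε * B := by ring)
  refine hmain.trans ?_
  have hEM : 0 ≤ Real.exp (4 * Real.pi) * QA := by positivity
  refine (mul_le_mul_of_nonneg_left hpairs hEM).trans ?_
  have hkey : QB * (C₂ * X ^ ε * M) + LB * (2 * C₁ * X ^ ε * B) ≤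
      (C₂ + 2 * C₁) * X ^ ε * ((M : ℝ) * QB + LB * B) := by
    have h1 : 0 ≤ X ^ ε * ((M : ℝ) * QB) := by positivity
    have h2 : 0 ≤ X ^ ε * (LB * B) := by positivity
    nlinarith [mul_nonneg (by linarith : (0:ℝ) ≤ 2 * C₁) h1,
      mul_nonneg (by linarith : (0:ℝ) ≤ C₂) h2]
  calc Real.exp (4 * Real.pi) * QA *
        (QB * (C₂ * X ^ ε * M) + LB * (2 * C₁ * X ^ ε * B))
      ≤ Real.exp (4 * Real.pi) * QA *
        ((C₂ + 2 * C₁) * X ^ ε * ((M : ℝ) * QB + LB * B)) :=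
        mul_le_mul_of_nonneg_left hkey hEM
    _ = Real.exp (4 * Real.pi) * (C₂ + 2 * C₁) * X ^ ε * QA *
      ((M : ℝ) * QB + LB * B) := by ring


end

end Pool.Agent.LSPD

namespace Pool.Agent.LSPD

alias disp := disp_pr

end Pool.Agent.LSPD
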