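import Pool.Agent.Lib_helper19.LSPD.Defs
import Pool.Agent.Lib_helper19.LSPD.THD

/-! LSP part D, block DXC. -/

set_option autoImplicit false

namespace Pool.Agent.LSPD

open Pool.Agent.FG61 (mu cc)
open Pool.Agent.Var35 (e)
open Finset

/-- the bracket -/
theorem dxc_bracket {X κ P M D R T r : ℝ} (hX : 1 ≤ X) (hκ0 : 0 < κ) (hκ : κ ≤ 1 / 2000)
    (hP : 1 ≤ P) (hPX : P ≤ X ^ (1 / 40 : ℝ)) (hPM : X ^ (1 - κ) ≤ P * M) (hM : 0 < M)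
    (hD : 0 ≤ D) (hDX : D ≤ X ^ (1 / 2 + 2 * κ)) (hR : 1 ≤ R)
    (hT : X ^ (1 / 25 : ℝ) ≤ T) (hT2 : T ≤ 2 * X ^ (1 / 25 : ℝ)) (hr : 0 ≤ r)
    (hrX : r ≤ X ^ (1 + 3 * κ)) (hML : X ^ (1 - κ - 1 / 40) ≤ M) :
    M * (P * M + P ^ 2 * (M / R + M / T + 1 + (1 + r / (P * M)) *
      (D + D ^ (7 / 4 : ℝ) * (P * T) ^ (3 / 4 : ℝ)))) ≤
      8 * ((P * M) ^ 2 * (1 / P + 1 / R + X ^ (-(1 / 25) : ℝ))) := by
  have hX0 : 0 < X := by linarith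
  have hP0 : 0 < P := by linarith
  have hR0 : 0 < R := by linarith
  have hT0 : 0 < T := lt_of_lt_of_le (by positivity) hT
  set x := X ^ (-(1 / 25) : ℝ) with hx
  have hx0 : 0 < x := by positivity
  have e1 : M * (P * M + P ^ 2 * (M / R + M / T + 1 + (1 + r / (P * M)) *
      (D + D ^ (7 / 4 : ℝ) * (P * T) ^ (3 / 4 : ℝ)))) =
      (P * M) ^ 2 * (1 / P + 1 / R + 1 / T + 1 / M + ((1 + r / (P * M)) * (D / M) +
        (1 + r / (P * M)) * (D ^ (7 / 4 : ℝ) * (P * T) ^ (3 / 4 : ℝ) / M))) := by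
    generalize (P * T) ^ (3 / 4 : ℝ) = A
    field_simp
    ring
  rw [e1, show 8 * ((P * M) ^ 2 * (1 / P + 1 / R + x)) =
    (P * M) ^ 2 * (8 * (1 / P + 1 / R + x)) by ring]
  refine mul_le_mul_of_nonneg_left ?_ (by positivity)
  have hx' : x = (X ^ (1 / 25 : ℝ))⁻¹ := by rw [hx, Real.rpow_neg hX0.le]
  have a1 : 1 / T ≤ x := by
    rw [hx', one_div]
    exact inv_anti₀ (by positivity) hT
  have a2 : 1 / M ≤ x := by
    rw [hx', one_div]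
    refine inv_anti₀ (by positivity) (le_trans ?_ hML)
    exact Real.rpow_le_rpow_of_exponent_le hX (by linarith)
  have hMinv : 1 / M ≤ X ^ (-(1 - κ - 1 / 40)) := by
    rw [Real.rpow_neg hX0.le, one_div]
    exact inv_anti₀ (by positivity) hML
  have a3 : 1 + r / (P * M) ≤ 2 * X ^ (4 * κ) := by
    have i1 : 1 ≤ X ^ (4 * κ) := Real.one_le_rpow hX (by linarith)
    have i2 : r / (P * M) ≤ X ^ (4 * κ) := by
      rw [div_le_iff₀ (by positivity)]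
      calc r ≤ X ^ (1 + 3 * κ) := hrX
        _ = X ^ (4 * κ) * X ^ (1 - κ) := by rw [← Real.rpow_add hX0]; congr 1; ring
        _ ≤ X ^ (4 * κ) * (P * M) := mul_le_mul_of_nonneg_left hPM (by positivity)
    linarith
  have a30 : 0 ≤ 1 + r / (P * M) := by positivity
  have a4 : D / M ≤ X ^ (1 / 2 + 2 * κ) * X ^ (-(1 - κ - 1 / 40)) := by
    rw [div_eq_mul_one_div]
    exact mul_le_mul hDX hMinv (by positivity) (by positivity)
  have a5 : (1 + r / (P * M)) * (D / M) ≤ 2 * x := by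
    calc _ ≤ (2 * X ^ (4 * κ)) * (X ^ (1 / 2 + 2 * κ) * X ^ (-(1 - κ - 1 / 40))) :=
          mul_le_mul a3 a4 (by positivity) (by positivity)
      _ = 2 * X ^ (4 * κ + ((1 / 2 + 2 * κ) + (-(1 - κ - 1 / 40)))) := by
          rw [Real.rpow_add hX0 (4 * κ), Real.rpow_add hX0 (1 / 2 + 2 * κ)]; ring
      _ ≤ 2 * x := by
          refine mul_le_mul_of_nonneg_left ?_ (by norm_num)
          exact Real.rpow_le_rpow_of_exponent_le hX (by linarith)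
  have a6 : D ^ (7 / 4 : ℝ) ≤ X ^ ((1 / 2 + 2 * κ) * (7 / 4)) := by
    rw [Real.rpow_mul hX0.le]
    exact Real.rpow_le_rpow hD hDX (by norm_num)
  have a7 : (P * T) ^ (3 / 4 : ℝ) ≤ 2 * X ^ ((1 / 40 + 1 / 25) * (3 / 4) : ℝ) := by
    have i1 : P * T ≤ 2 * X ^ (1 / 40 + 1 / 25 : ℝ) := by
      calc P * T ≤ X ^ (1 / 40 : ℝ) * (2 * X ^ (1 / 25 : ℝ)) :=
            mul_le_mul hPX hT2 hT0.le (by positivity)
        _ = 2 * X ^ (1 / 40 + 1 / 25 : ℝ) := by rw [Real.rpow_add hX0]; ring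
    calc (P * T) ^ (3 / 4 : ℝ) ≤ (2 * X ^ (1 / 40 + 1 / 25 : ℝ)) ^ (3 / 4 : ℝ) :=
          Real.rpow_le_rpow (by positivity) i1 (by norm_num)
      _ = 2 ^ (3 / 4 : ℝ) * X ^ ((1 / 40 + 1 / 25) * (3 / 4) : ℝ) := by
          rw [Real.mul_rpow (by norm_num) (by positivity), ← Real.rpow_mul hX0.le]
      _ ≤ 2 * X ^ ((1 / 40 + 1 / 25) * (3 / 4) : ℝ) := by
          refine mul_le_mul_of_nonneg_right ?_ (by positivity)
          calc (2 : ℝ) ^ (3 / 4 : ℝ) ≤ 2 ^ (1 : ℝ) :=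
                Real.rpow_le_rpow_of_exponent_le (by norm_num) (by norm_num)
            _ = 2 := Real.rpow_one 2
  have a8 : (1 + r / (P * M)) * (D ^ (7 / 4 : ℝ) * (P * T) ^ (3 / 4 : ℝ) / M) ≤ 4 * x := by
    have i1 : D ^ (7 / 4 : ℝ) * (P * T) ^ (3 / 4 : ℝ) / M ≤
        (X ^ ((1 / 2 + 2 * κ) * (7 / 4)) * (2 * X ^ ((1 / 40 + 1 / 25) * (3 / 4) : ℝ))) *
          X ^ (-(1 - κ - 1 / 40)) := by
      rw [div_eq_mul_one_div]
      exact mul_le_mul (mul_le_mul a6 a7 (by positivity) (by positivity)) hMinv (by positivity)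
        (by positivity)
    calc _ ≤ (2 * X ^ (4 * κ)) * ((X ^ ((1 / 2 + 2 * κ) * (7 / 4)) *
            (2 * X ^ ((1 / 40 + 1 / 25) * (3 / 4) : ℝ))) * X ^ (-(1 - κ - 1 / 40))) :=
          mul_le_mul a3 i1 (by positivity) (by positivity)
      _ = 4 * X ^ (4 * κ + (((1 / 2 + 2 * κ) * (7 / 4) + (1 / 40 + 1 / 25) * (3 / 4)) +
            (-(1 - κ - 1 / 40)))) := by
          rw [Real.rpow_add hX0 (4 * κ), Real.rpow_add hX0 ((1 / 2 + 2 * κ) * (7 / 4) +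
            (1 / 40 + 1 / 25) * (3 / 4)), Real.rpow_add hX0 ((1 / 2 + 2 * κ) * (7 / 4))]; ring
      _ ≤ 4 * x := by
          refine mul_le_mul_of_nonneg_left ?_ (by norm_num)
          exact Real.rpow_le_rpow_of_exponent_le hX (by linarith)
  have a9 : 0 ≤ 1 / P := by positivity
  have a10 : 0 ≤ 1 / R := by positivity
  linarith

theorem dxc_sq {y : ℝ} (hy : 0 < y) : (y ^ (-(1 / 2) : ℝ)) ^ 2 = 1 / y := by
  rw [← Real.rpow_natCast, ← Real.rpow_mul hy.le]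
  norm_num
  rw [Real.rpow_neg_one]

theorem dxc_final {X ε C Yε P M R W A B B1 S2 : ℝ} (hX : 0 < X) (hP : 0 < P) (hM : 0 < M)
    (hR : 0 < R) (hA : 0 ≤ A) (hB : 0 ≤ B) (hC : 0 ≤ C) (hY : 0 ≤ Yε) (hW : 0 ≤ W)
    (hB1 : B1 ^ 2 ≤ P * B)
    (hS : S2 ≤ C * Yε * A * (M * B + B1 ^ 2 * W)) (hCY : 8 * (C * Yε) ≤ X ^ (2 * ε))
    (hbr : M * (P * M + P ^ 2 * W) ≤
      8 * ((P * M) ^ 2 * (1 / P + 1 / R + X ^ (-(1 / 25) : ℝ)))) :
    S2 ≤ (X ^ ε * Real.sqrt (P * M) * Real.sqrt B * Real.sqrt A *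
          (P ^ (-(1 / 2) : ℝ) + R ^ (-(1 / 2) : ℝ) + X ^ (-(1 / 50) : ℝ))) ^ 2 := by
  have hsqX : (X ^ (-(1 / 50) : ℝ)) ^ 2 = X ^ (-(1 / 25) : ℝ) := by
    rw [← Real.rpow_natCast, ← Real.rpow_mul hX.le]
    norm_num
  have hPM : 0 < P * M := mul_pos hP hM
  have h1 : M + P * W ≤ 8 * (P * M) * (1 / P + 1 / R + X ^ (-(1 / 25) : ℝ)) := by
    have : (P * M) * (M + P * W) ≤ (P * M) * (8 * (P * M) *
        (1 / P + 1 / R + X ^ (-(1 / 25) : ℝ))) := by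
      calc (P * M) * (M + P * W) = M * (P * M + P ^ 2 * W) := by ring
        _ ≤ _ := hbr
        _ = _ := by ring
    exact le_of_mul_le_mul_left this hPM
  have h2 : M * B + B1 ^ 2 * W ≤ B * (M + P * W) := by
    have := mul_le_mul_of_nonneg_right hB1 hW
    linarith
  have h3 : (1 / P + 1 / R + X ^ (-(1 / 25) : ℝ)) ≤
      (P ^ (-(1 / 2) : ℝ) + R ^ (-(1 / 2) : ℝ) + X ^ (-(1 / 50) : ℝ)) ^ 2 := by
    rw [← dxc_sq hP, ← dxc_sq hR, ← hsqX]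
    have p1 : 0 ≤ P ^ (-(1 / 2) : ℝ) := by positivity
    have p2 : 0 ≤ R ^ (-(1 / 2) : ℝ) := by positivity
    have p3 : 0 ≤ X ^ (-(1 / 50) : ℝ) := by positivity
    nlinarith [mul_nonneg p1 p2, mul_nonneg p1 p3, mul_nonneg p2 p3]
  have h4 : X ^ (2 * ε) = (X ^ ε) ^ 2 := by
    rw [← Real.rpow_natCast, ← Real.rpow_mul hX.le]
    congr 1
    push_cast
    ring
  have hx : 0 ≤ 1 / P + 1 / R + X ^ (-(1 / 25) : ℝ) := by positivity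
  calc S2 ≤ C * Yε * A * (M * B + B1 ^ 2 * W) := hS
    _ ≤ C * Yε * A * (B * (M + P * W)) := mul_le_mul_of_nonneg_left h2 (by positivity)
    _ ≤ C * Yε * A * (B * (8 * (P * M) * (1 / P + 1 / R + X ^ (-(1 / 25) : ℝ)))) :=
        mul_le_mul_of_nonneg_left (mul_le_mul_of_nonneg_left h1 hB) (by positivity)
    _ = (8 * (C * Yε)) * (A * B * (P * M) * (1 / P + 1 / R + X ^ (-(1 / 25) : ℝ))) := by ring
    _ ≤ X ^ (2 * ε) * (A * B * (P * M) * (1 / P + 1 / R + X ^ (-(1 / 25) : ℝ))) :=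
        mul_le_mul_of_nonneg_right hCY (by positivity)
    _ ≤ X ^ (2 * ε) * (A * B * (P * M) * (P ^ (-(1 / 2) : ℝ) + R ^ (-(1 / 2) : ℝ) +
          X ^ (-(1 / 50) : ℝ)) ^ 2) :=
        mul_le_mul_of_nonneg_left (mul_le_mul_of_nonneg_left h3 (by positivity)) (by positivity)
    _ = _ := by
        rw [h4, mul_pow, mul_pow, mul_pow, mul_pow, Real.sq_sqrt hPM.le, Real.sq_sqrt hB,
          Real.sq_sqrt hA]
        ring

/-- block DXC -/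
theorem disp_X_pr {ε : ℝ} (hε : 0 < ε) : ∃ X₀ : ℝ, 1 ≤ X₀ ∧ ∀ X : ℝ, X₀ ≤ X → ∀ κ : ℝ, 0 < κ →
    κ ≤ 1 / 2000 → ∀ (P M D R : ℕ), 1 ≤ P → (P : ℝ) ≤ X ^ (1 / 40 : ℝ) →
    X ^ (1 - κ) ≤ (P : ℝ) * M → (P : ℝ) * M ≤ X ^ (1 + 3 * κ) → 1 ≤ D →
    (D : ℝ) ≤ X ^ (1 / 2 + 2 * κ) → 1 ≤ R → (R : ℝ) ≤ X ^ (1 / 40 : ℝ) →
    ∀ (r : ℤ) (S : Finset ℕ), |(r : ℝ)| ≤ X ^ (1 + 3 * κ) →
    (∀ p ∈ S, p.Prime ∧ P < p ∧ p ≤ 2 * P ∧ ¬ (p : ℤ) ∣ r) →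
    ∀ b a : ℕ → ℝ,
      |∑ p ∈ S, ∑ m ∈ Ioc M (2 * M), b p * a m * UU D R ((p : ℤ) * m - r)| ≤
        X ^ ε * Real.sqrt ((P : ℝ) * M) * Real.sqrt (∑ p ∈ S, b p ^ 2) *
          Real.sqrt (∑ m ∈ Ioc M (2 * M), a m ^ 2) *
          ((P : ℝ) ^ (-(1 / 2) : ℝ) + (R : ℝ) ^ (-(1 / 2) : ℝ) + X ^ (-(1 / 50) : ℝ)) := by
  obtain ⟨ε', hε'0, hε'1, hε'2⟩ : ∃ ε' : ℝ, 0 < ε' ∧ ε' ≤ ε / 3 ∧ ε' ≤ 1 / 10 :=
    ⟨min (ε / 3) (1 / 10), by positivity, min_le_left _ _, min_le_right _ _⟩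
  obtain ⟨C, hC, h⟩ := disp hε'0
  refine ⟨max 1 ((8 * C) ^ (1 / ε)), le_max_left _ _, ?_⟩
  intro X hX κ hκ0 hκ P M D R hP hPX hPM hPM2 hD hDX hR hRX r S hrX hS b a
  have hX1 : 1 ≤ X := (le_max_left _ _).trans hX
  have hX0 : 0 < X := by linarith
  have hCX : 8 * C ≤ X ^ ε := by
    have i1 : (8 * C) ^ (1 / ε) ≤ X := (le_max_right _ _).trans hX
    calc 8 * C = ((8 * C) ^ (1 / ε)) ^ ε := by
          rw [← Real.rpow_mul (by linarith), one_div, inv_mul_cancel₀ hε.ne', Real.rpow_one]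
      _ ≤ X ^ ε := Real.rpow_le_rpow (by positivity) i1 hε.le
  have hP0 : (1 : ℝ) ≤ P := by exact_mod_cast hP
  have hR0 : (1 : ℝ) ≤ R := by exact_mod_cast hR
  have hD0 : (1 : ℝ) ≤ D := by exact_mod_cast hD
  have hPMpos : 0 < (P : ℝ) * M := lt_of_lt_of_le (by positivity) hPM
  have hMpos : (0 : ℝ) < M := by
    by_contra hcon
    push Not at hcon
    nlinarith
  have hM1 : 1 ≤ M := by
    have : 0 < M := by exact_mod_cast hMpos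
    omega
  by_cases hr0 : r = 0
  · have hSe : S = ∅ := by
      rw [Finset.eq_empty_iff_forall_notMem]
      intro p hp
      exact (hS p hp).2.2.2 (by rw [hr0]; exact dvd_zero _)
    rw [hSe, Finset.sum_empty, abs_zero]
    positivity
  have hML : X ^ (1 - κ - 1 / 40) ≤ M := by
    have i1 : (P : ℝ) * X ^ (1 - κ - 1 / 40) ≤ P * M := by
      refine le_trans ?_ hPM
      calc (P : ℝ) * X ^ (1 - κ - 1 / 40) ≤ X ^ (1 / 40 : ℝ) * X ^ (1 - κ - 1 / 40) :=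
            mul_le_mul_of_nonneg_right hPX (by positivity)
        _ = X ^ (1 - κ) := by rw [← Real.rpow_add hX0]; congr 1; ring
    exact le_of_mul_le_mul_left i1 (by linarith)
  -- the size
  obtain ⟨Y, hY⟩ : ∃ Y : ℝ, Y = (P : ℝ) * M * D * |(r : ℝ)| := ⟨_, rfl⟩
  have hY0 : 0 ≤ Y := by rw [hY]; positivity
  have hYX : Y ≤ X ^ (3 : ℝ) := by
    calc Y ≤ X ^ (1 + 3 * κ) * X ^ (1 / 2 + 2 * κ) * X ^ (1 + 3 * κ) := by
          rw [hY]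
          exact mul_le_mul (mul_le_mul hPM2 hDX (by positivity) (by positivity)) hrX
            (abs_nonneg _) (by positivity)
      _ = X ^ ((1 + 3 * κ) + (1 / 2 + 2 * κ) + (1 + 3 * κ)) := by
          rw [Real.rpow_add hX0 ((1 + 3 * κ) + (1 / 2 + 2 * κ)), Real.rpow_add hX0 (1 + 3 * κ)]
      _ ≤ X ^ (3 : ℝ) := Real.rpow_le_rpow_of_exponent_le hX1 (by linarith)
  have hYe : Y ^ ε' ≤ X ^ (3 * ε') := by
    rw [Real.rpow_mul hX0.le]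
    exact Real.rpow_le_rpow hY0 hYX hε'0.le
  have hcond : (R : ℝ) * D * Y ^ ε' ≤ M := by
    calc (R : ℝ) * D * Y ^ ε' ≤ X ^ (1 / 40 : ℝ) * X ^ (1 / 2 + 2 * κ) * X ^ (3 * ε') :=
          mul_le_mul (mul_le_mul hRX hDX (by positivity) (by positivity)) hYe
            (by positivity) (by positivity)
      _ = X ^ (1 / 40 + (1 / 2 + 2 * κ) + 3 * ε') := by
          rw [Real.rpow_add hX0 (1 / 40 + (1 / 2 + 2 * κ)), Real.rpow_add hX0 (1 / 40)]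
      _ ≤ X ^ (1 - κ - 1 / 40) := Real.rpow_le_rpow_of_exponent_le hX1 (by linarith)
      _ ≤ M := hML
  -- T₀
  have hx1 : 1 ≤ X ^ (1 / 25 : ℝ) := Real.one_le_rpow hX1 (by norm_num)
  obtain ⟨T₀, hTl, hTu⟩ : ∃ T₀ : ℕ, X ^ (1 / 25 : ℝ) ≤ (T₀ : ℝ) ∧ (T₀ : ℝ) ≤ 2 * X ^ (1 / 25 : ℝ) := by
    refine ⟨⌈X ^ (1 / 25 : ℝ)⌉₊, Nat.le_ceil _, ?_⟩
    have := (Nat.ceil_lt_add_one (by positivity : (0 : ℝ) ≤ X ^ (1 / 25 : ℝ))).le
    linarith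
  have hT1 : 1 ≤ T₀ := by
    have : (1 : ℝ) ≤ T₀ := hx1.trans hTl
    exact_mod_cast this
  have hmain := h P M D R T₀ hP hM1 hD hR hT1 r S hS (by rw [← hY]; exact hcond) b a
  rw [← hY] at hmain
  have hbr := dxc_bracket (X := X) (κ := κ) (P := (P : ℝ)) (M := (M : ℝ)) (D := (D : ℝ))
    (R := (R : ℝ)) (T := (T₀ : ℝ)) (r := |(r : ℝ)|) hX1 hκ0 hκ hP0 hPX hPM hMpos (by linarith) hDX
    hR0 hTl hTu (abs_nonneg _) hrX hML
  have hCY : 8 * (C * Y ^ ε') ≤ X ^ (2 * ε) := by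
    calc 8 * (C * Y ^ ε') = (8 * C) * Y ^ ε' := by ring
      _ ≤ X ^ ε * X ^ ε := by
          refine mul_le_mul hCX (hYe.trans ?_) (by positivity) (by positivity)
          exact Real.rpow_le_rpow_of_exponent_le hX1 (by linarith)
      _ = X ^ (2 * ε) := by rw [← Real.rpow_add hX0]; congr 1; ring
  -- the number of primes
  have hcard : (S.card : ℝ) ≤ P := by
    have i1 : S ⊆ Ioc P (2 * P) := by
      intro p hp
      rw [mem_Ioc]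
      exact ⟨(hS p hp).2.1, (hS p hp).2.2.1⟩
    have i2 := Finset.card_le_card i1
    rw [Nat.card_Ioc] at i2
    exact_mod_cast (by omega : S.card ≤ P)
  have hB1 : (∑ p ∈ S, |b p|) ^ 2 ≤ (P : ℝ) * ∑ p ∈ S, b p ^ 2 := by
    have i1 := sq_sum_le_card_mul_sum_sq (s := S) (f := fun p => |b p|)
    simp only [sq_abs] at i1
    exact i1.trans (mul_le_mul_of_nonneg_right hcard (Finset.sum_nonneg fun _ _ => sq_nonneg _))
  have hA0 : 0 ≤ ∑ m ∈ Ioc M (2 * M), a m ^ 2 := Finset.sum_nonneg fun _ _ => sq_nonneg _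
  have hB0 : 0 ≤ ∑ p ∈ S, b p ^ 2 := Finset.sum_nonneg fun _ _ => sq_nonneg _
  have hW0 : 0 ≤ (M : ℝ) / R + (M : ℝ) / T₀ + 1 + (1 + |(r : ℝ)| / (P * M)) *
            ((D : ℝ) + (D : ℝ) ^ (7 / 4 : ℝ) * ((P : ℝ) * T₀) ^ (3 / 4 : ℝ)) := by positivity
  refine abs_le_of_sq_le_sq ?_ (by positivity)
  exact dxc_final hX0 (by linarith) hMpos (by linarith) hA0 hB0 (by linarith)
    (Real.rpow_nonneg hY0 _) hW0 hB1 hmain hCY hbr

end Pool.Agent.LSPD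

namespace Pool.Agent.LSPD

alias disp_X := disp_X_pr

end Pool.Agent.LSPD
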